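import Pool.Agent.Lib.MP_62a69e_lc.Defs

/-! # The complete Boolean algebra of regular open sets of a preorder -/

set_option autoImplicit false

namespace Pool.Agent.Ladder

/-- Regular open sets of conditions: `p ∈ A` iff the members of `A` are dense below `p`. -/
@[ext] structure RO (P : Type) [Preorder P] where
  carrier : Set P
  reg : ∀ p, p ∈ carrier ↔ ∀ q, q ≤ p → ∃ r, r ≤ q ∧ r ∈ carrier

namespace RO

variable {P : Type} [Preorder P]

instance : Membership P (RO P) := ⟨fun A p => p ∈ A.carrier⟩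

theorem mem_def {A : RO P} {p : P} : p ∈ A ↔ p ∈ A.carrier := Iff.rfl

theorem mem_iff_dense {A : RO P} {p : P} : p ∈ A ↔ ∀ q, q ≤ p → ∃ r, r ≤ q ∧ r ∈ A := A.reg p

theorem mem_of_le {A : RO P} {p q : P} (hp : p ∈ A) (h : q ≤ p) : q ∈ A :=
  mem_iff_dense.2 fun r hr => (mem_iff_dense.1 hp) r (hr.trans h)

theorem ext' {A B : RO P} (h : ∀ p, p ∈ A ↔ p ∈ B) : A = B := by
  apply RO.ext
  ext p
  exact h p

/-- Regularisation of the downward closure of a property of conditions. -/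
def mk' (Q : P → Prop) (_hQ : ∀ p q, Q p → q ≤ p → Q q) : RO P where
  carrier := {p | ∀ q, q ≤ p → ∃ r, r ≤ q ∧ Q r}
  reg := by
    intro p
    constructor
    · intro hp q hq
      exact ⟨q, le_rfl, fun r hr => hp r (hr.trans hq)⟩
    · intro hp q hq
      obtain ⟨r, hr, h⟩ := hp q hq
      obtain ⟨r', hr', h'⟩ := h r le_rfl
      exact ⟨r', hr'.trans hr, h'⟩

theorem mem_mk' {Q : P → Prop} {hQ} {p : P} :
    p ∈ mk' Q hQ ↔ ∀ q, q ≤ p → ∃ r, r ≤ q ∧ Q r := Iff.rfl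

theorem mem_mk'_of {Q : P → Prop} {hQ} {p : P} (h : Q p) : p ∈ mk' Q hQ :=
  fun q hq => ⟨q, le_rfl, hQ p q h hq⟩

instance : LE (RO P) := ⟨fun A B => ∀ p, p ∈ A → p ∈ B⟩

instance : PartialOrder (RO P) where
  le := fun A B => ∀ p, p ∈ A → p ∈ B
  le_refl _ _ h := h
  le_trans _ _ _ h h' p hp := h' p (h p hp)
  le_antisymm _ _ h h' := ext' fun p => ⟨h p, h' p⟩

instance : InfSet (RO P) where
  sInf S :=
    { carrier := {p | ∀ A ∈ S, p ∈ A}
      reg := by
        intro p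
        constructor
        · intro hp q hq
          exact ⟨q, le_rfl, fun A hA => mem_of_le (hp A hA) hq⟩
        · intro hp A hA
          refine mem_iff_dense.2 fun q hq => ?_
          obtain ⟨r, hr, h⟩ := hp q hq
          exact ⟨r, hr, h A hA⟩ }

theorem mem_sInf {S : Set (RO P)} {p : P} : p ∈ sInf S ↔ ∀ A ∈ S, p ∈ A := Iff.rfl

/-- The complement. -/
def cpl (A : RO P) : RO P where
  carrier := {p | ∀ q, q ≤ p → q ∉ A}
  reg := by
    intro p
    constructor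
    · intro hp q hq
      exact ⟨q, le_rfl, fun r hr => hp r (hr.trans hq)⟩
    · intro hp q hq hqA
      obtain ⟨r, hr, h⟩ := hp q hq
      exact h r le_rfl (mem_of_le hqA hr)

theorem mem_cpl {A : RO P} {p : P} : p ∈ A.cpl ↔ ∀ q, q ≤ p → q ∉ A := Iff.rfl

/-- Implication. -/
def imp (A B : RO P) : RO P where
  carrier := {p | ∀ q, q ≤ p → q ∈ A → q ∈ B}
  reg := by
    intro p
    constructor
    · intro hp q hq
      exact ⟨q, le_rfl, fun r hr => hp r (hr.trans hq)⟩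
    · intro hp q hq hqA
      refine mem_iff_dense.2 fun r hr => ?_
      obtain ⟨r', hr', h⟩ := hp r (hr.trans hq)
      exact ⟨r', hr', h r' le_rfl (mem_of_le hqA (hr'.trans hr))⟩

theorem mem_imp {A B : RO P} {p : P} : p ∈ A.imp B ↔ ∀ q, q ≤ p → q ∈ A → q ∈ B := Iff.rfl

/-- Binary infimum. -/
def inf' (A B : RO P) : RO P where
  carrier := {p | p ∈ A ∧ p ∈ B}
  reg := by
    intro p
    constructor
    · intro hp q hq
      exact ⟨q, le_rfl, mem_of_le hp.1 hq, mem_of_le hp.2 hq⟩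
    · intro hp
      refine ⟨mem_iff_dense.2 fun q hq => ?_, mem_iff_dense.2 fun q hq => ?_⟩
      · obtain ⟨r, hr, h⟩ := hp q hq
        exact ⟨r, hr, h.1⟩
      · obtain ⟨r, hr, h⟩ := hp q hq
        exact ⟨r, hr, h.2⟩

/-- Supremum of a set. -/
def sup' (S : Set (RO P)) : RO P :=
  mk' (fun p => ∃ A ∈ S, p ∈ A) (fun _ _ ⟨A, hA, h⟩ hq => ⟨A, hA, mem_of_le h hq⟩)

theorem mem_sup' {S : Set (RO P)} {p : P} :
    p ∈ sup' S ↔ ∀ q, q ≤ p → ∃ r, r ≤ q ∧ ∃ A ∈ S, r ∈ A := Iff.rfl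

/-- The least element. -/
def bot' : RO P where
  carrier := ∅
  reg := by
    intro p
    constructor
    · intro h; exact h.elim
    · intro h
      obtain ⟨r, _, h⟩ := h p le_rfl
      exact h

/-- The largest element. -/
def top' : RO P where
  carrier := Set.univ
  reg := fun _ => ⟨fun _ q _ => ⟨q, le_rfl, trivial⟩, fun _ => trivial⟩

instance : CompleteLattice (RO P) where
  sup A B := sup' {A, B}
  le_sup_left A B p hp := mem_sup'.2 fun q hq => ⟨q, le_rfl, A, Or.inl rfl, mem_of_le hp hq⟩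
  le_sup_right A B p hp := mem_sup'.2 fun q hq => ⟨q, le_rfl, B, Or.inr rfl, mem_of_le hp hq⟩
  sup_le A B D h h' p hp := by
    refine mem_iff_dense.2 fun q hq => ?_
    obtain ⟨r, hr, E, hE, hrE⟩ := mem_sup'.1 hp q hq
    rcases hE with rfl | hE
    · exact ⟨r, hr, h r hrE⟩
    · have : E = B := hE
      subst this
      exact ⟨r, hr, h' r hrE⟩
  inf := inf'
  inf_le_left A B p hp := hp.1
  inf_le_right A B p hp := hp.2
  le_inf A B D h h' p hp := ⟨h p hp, h' p hp⟩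
  sSup := sup'
  isLUB_sSup S :=
    ⟨fun A hA p hp => mem_sup'.2 fun q hq => ⟨q, le_rfl, A, hA, mem_of_le hp hq⟩,
      fun D hD p hp => by
        refine mem_iff_dense.2 fun q hq => ?_
        obtain ⟨r, hr, E, hE, hrE⟩ := mem_sup'.1 hp q hq
        exact ⟨r, hr, hD hE r hrE⟩⟩
  isGLB_sInf S := ⟨fun A hA p hp => mem_sInf.1 hp A hA, fun D hD p hp =>
    mem_sInf.2 fun A hA => hD hA p hp⟩
  top := top'
  bot := bot'
  le_top A p _ := trivial
  bot_le A p hp := hp.elim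

theorem mem_inf {A B : RO P} {p : P} : p ∈ A ⊓ B ↔ p ∈ A ∧ p ∈ B := Iff.rfl

theorem mem_sup {A B : RO P} {p : P} :
    p ∈ A ⊔ B ↔ ∀ q, q ≤ p → ∃ r, r ≤ q ∧ (r ∈ A ∨ r ∈ B) := by
  constructor
  · intro h q hq
    obtain ⟨r, hr, E, hE, hrE⟩ := mem_sup'.1 h q hq
    rcases hE with rfl | hE
    · exact ⟨r, hr, Or.inl hrE⟩
    · have : E = B := hE
      subst this
      exact ⟨r, hr, Or.inr hrE⟩
  · intro h
    refine mem_sup'.2 fun q hq => ?_
    obtain ⟨r, hr, h⟩ := h q hq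
    rcases h with h | h
    · exact ⟨r, hr, A, Or.inl rfl, h⟩
    · exact ⟨r, hr, B, Or.inr rfl, h⟩

theorem mem_bot {p : P} : ¬ p ∈ (⊥ : RO P) := fun h => h.elim

theorem mem_top {p : P} : p ∈ (⊤ : RO P) := trivial

instance : BooleanAlgebra (RO P) :=
  { (inferInstance : CompleteLattice (RO P)) with
    le_sup_inf := by
      intro A B D p hp
      refine mem_sup.2 fun q hq => ?_
      have h1 := mem_sup.1 hp.1
      obtain ⟨r, hr, h⟩ := h1 q hq
      rcases h with h | h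
      · exact ⟨r, hr, Or.inl h⟩
      · obtain ⟨r', hr', h'⟩ := mem_sup.1 hp.2 r (hr.trans hq)
        rcases h' with h' | h'
        · exact ⟨r', hr'.trans hr, Or.inl h'⟩
        · exact ⟨r', hr'.trans hr, Or.inr ⟨mem_of_le h hr', h'⟩⟩
    compl := cpl
    sdiff := fun A B => A ⊓ cpl B
    himp := imp
    inf_compl_le_bot := fun A p hp => (hp.2 p le_rfl hp.1).elim
    top_le_sup_compl := fun A p _ => by
      refine mem_sup.2 fun q _ => ?_
      by_cases h : ∃ r, r ≤ q ∧ r ∈ A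
      · obtain ⟨r, hr, h⟩ := h
        exact ⟨r, hr, Or.inl h⟩
      · exact ⟨q, le_rfl, Or.inr fun r hr hrA => h ⟨r, hr, hrA⟩⟩
    sdiff_eq := fun _ _ => rfl
    himp_eq := fun A B => by
      apply le_antisymm
      · intro p hp
        refine mem_sup.2 fun q hq => ?_
        by_cases h : ∃ r, r ≤ q ∧ r ∈ A
        · obtain ⟨r, hr, h⟩ := h
          exact ⟨r, hr, Or.inl (mem_imp.1 hp r (hr.trans hq) h)⟩
        · exact ⟨q, le_rfl, Or.inr fun r hr hrA => h ⟨r, hr, hrA⟩⟩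
      · intro p hp q hq hqA
        refine mem_iff_dense.2 fun r hr => ?_
        obtain ⟨r', hr', h⟩ := mem_sup.1 hp r (hr.trans hq)
        rcases h with h | h
        · exact ⟨r', hr', h⟩
        · exact (h r' le_rfl (mem_of_le hqA (hr'.trans hr))).elim }

instance : CompleteBooleanAlgebra (RO P) :=
  { (inferInstance : CompleteLattice (RO P)), (inferInstance : BooleanAlgebra (RO P)) with }

theorem mem_compl {A : RO P} {p : P} : p ∈ Aᶜ ↔ ∀ q, q ≤ p → q ∉ A := Iff.rfl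

theorem mem_himp {A B : RO P} {p : P} : p ∈ A ⇨ B ↔ ∀ q, q ≤ p → q ∈ A → q ∈ B := Iff.rfl

theorem mem_iInf {ι : Sort*} {A : ι → RO P} {p : P} : p ∈ ⨅ i, A i ↔ ∀ i, p ∈ A i := by
  constructor
  · intro h i
    exact mem_sInf.1 h _ ⟨i, rfl⟩
  · intro h
    refine mem_sInf.2 ?_
    rintro _ ⟨i, rfl⟩
    exact h i

theorem mem_iSup {ι : Sort*} {A : ι → RO P} {p : P} :
    p ∈ ⨆ i, A i ↔ ∀ q, q ≤ p → ∃ r, r ≤ q ∧ ∃ i, r ∈ A i := by
  constructor
  · intro h q hq
    obtain ⟨r, hr, E, ⟨i, rfl⟩, hrE⟩ := mem_sup'.1 h q hq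
    exact ⟨r, hr, i, hrE⟩
  · intro h
    refine mem_sup'.2 fun q hq => ?_
    obtain ⟨r, hr, i, h⟩ := h q hq
    exact ⟨r, hr, A i, ⟨i, rfl⟩, h⟩

theorem le_iff {A B : RO P} : A ≤ B ↔ ∀ p, p ∈ A → p ∈ B := Iff.rfl

theorem eq_top_iff' {A : RO P} : A = ⊤ ↔ ∀ p, p ∈ A := by
  constructor
  · rintro rfl p; exact mem_top
  · intro h; exact ext' fun p => ⟨fun _ => mem_top, fun _ => h p⟩

theorem eq_bot_iff' {A : RO P} : A = ⊥ ↔ ∀ p, p ∉ A := by
  constructor
  · rintro rfl p; exact mem_bot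
  · intro h; exact ext' fun p => ⟨fun hp => (h p hp).elim, fun hp => (mem_bot hp).elim⟩

theorem exists_mem_of_ne_bot {A : RO P} (h : A ≠ ⊥) : ∃ p, p ∈ A := by
  by_contra hcon
  exact h (eq_bot_iff'.2 fun p hp => hcon ⟨p, hp⟩)

end RO

end Pool.Agent.Ladder
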