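import Pool.Agent.Lib.MP_62a69e_lc.Defs

/-! # Basic facts on `ω₁`, ladders and trees -/

set_option autoImplicit false

namespace Pool.Agent.Ladder

open Cardinal Ordinal

theorem countable_Iio (a : W) : (Set.Iio a).Countable := by
  have h : Ordinal.typein (α := W) (· < ·) a < ω₁ := by
    have := Ordinal.typein_lt_type (α := W) (· < ·) a
    simpa using this
  rw [← Cardinal.le_aleph0_iff_set_countable, ← Order.lt_succ_iff, Cardinal.succ_aleph0]
  have h2 : #(Set.Iio a) = (Ordinal.typein (α := W) (· < ·) a).card := by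
    rfl
  rw [h2]
  rw [← Cardinal.lt_ord]
  simpa using h

theorem countable_Iic (a : W) : (Set.Iic a).Countable := by
  have : Set.Iic a = insert a (Set.Iio a) := by
    ext x; simp [le_iff_eq_or_lt]
  rw [this]
  exact (countable_Iio a).insert a

theorem not_countable_W : ¬ Countable W := by
  intro h
  have h1 : #W = ℵ₁ := by simp [W]
  have h2 : #W ≤ ℵ₀ := Cardinal.mk_le_aleph0_iff.2 h
  rw [h1] at h2
  exact absurd h2 (not_le.2 Cardinal.aleph0_lt_aleph_one)

theorem mk_W : #W = ℵ₁ := by simp [W]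

instance : Uncountable W := ⟨not_countable_W⟩
instance : Nonempty W := by
  by_contra h
  rw [not_nonempty_iff] at h
  exact not_countable_W inferInstance

/-- Countable sets are strictly bounded. -/
theorem exists_gt_of_countable {s : Set W} (hs : s.Countable) : ∃ a, ∀ x ∈ s, x < a := by
  by_contra h
  push Not at h
  have : (Set.univ : Set W) ⊆ ⋃ x ∈ s, Set.Iic x := by
    intro a _
    obtain ⟨x, hx, hax⟩ := h a
    exact Set.mem_biUnion hx hax
  have h2 : (Set.univ : Set W).Countable :=
    (hs.biUnion fun x _ => countable_Iic x).mono this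
  exact not_countable_W (Set.countable_univ_iff.1 h2)

theorem exists_gt (a : W) : ∃ b, a < b := by
  obtain ⟨b, hb⟩ := exists_gt_of_countable (Set.countable_singleton a)
  exact ⟨b, hb a rfl⟩

/-- Closure points of a function `ω₁ → ω₁`. -/
theorem exists_closure_point (γ : W → W) (η : W) :
    ∃ δ, η < δ ∧ IsLim δ ∧ ∀ β, β < δ → γ β < δ := by
  classical
  have hstep : ∀ a : W, ∃ b, a < b ∧ ∀ x, x ≤ a → γ x < b := by
    intro a
    obtain ⟨b, hb⟩ := exists_gt_of_countable
      (((countable_Iic a).image γ).union (Set.countable_singleton a))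
    exact ⟨b, hb a (Or.inr rfl), fun x hx => hb _ (Or.inl ⟨x, hx, rfl⟩)⟩
  choose f hf1 hf2 using hstep
  let d : ℕ → W := fun n => Nat.rec (f η) (fun _ x => f x) n
  have d0 : d 0 = f η := rfl
  have ds : ∀ n, d (n + 1) = f (d n) := fun n => rfl
  have hub : (upperBounds (Set.range d)).Nonempty := by
    obtain ⟨b, hb⟩ := exists_gt_of_countable (Set.countable_range d)
    exact ⟨b, fun x hx => (hb x hx).le⟩
  obtain ⟨δ, hδ, hmin⟩ : ∃ δ, δ ∈ upperBounds (Set.range d) ∧
      ∀ x ∈ upperBounds (Set.range d), δ ≤ x := by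
    refine ⟨WellFounded.min (wellFounded_lt (α := W)) _ hub, WellFounded.min_mem _ _ hub, ?_⟩
    intro x hx
    exact not_lt.1 (WellFounded.not_lt_min _ _ hx)
  have hlt : ∀ n, d n < δ := fun n => lt_of_lt_of_le (by rw [ds]; exact hf1 _) (hδ ⟨n + 1, rfl⟩)
  have hcof : ∀ β, β < δ → ∃ n, β < d n := by
    intro β hβ
    by_contra h
    replace h : ∀ n, d n ≤ β := fun n => not_lt.1 fun h' => h ⟨n, h'⟩
    have : β ∈ upperBounds (Set.range d) := by
      rintro _ ⟨n, rfl⟩
      exact h n
    exact absurd (hmin β this) (not_le.2 hβ)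
  refine ⟨δ, lt_trans (by rw [d0]; exact hf1 _) (hlt 0), ⟨⟨d 0, hlt 0⟩, ?_⟩, ?_⟩
  · intro β hβ
    obtain ⟨n, hn⟩ := hcof β hβ
    exact ⟨d n, hn, hlt n⟩
  · intro β hβ
    obtain ⟨n, hn⟩ := hcof β hβ
    exact lt_trans (by rw [ds]; exact hf2 _ _ hn.le) (hlt (n + 1))

/-- A form of the pressing down lemma: there is no injection of the limit ordinals into
pairs (countable data, smaller ordinal with countably many nodes). -/
theorem press {Y Z : Type} [Countable Y] (lev : Z → W) (hlev : ∀ ξ, {z | lev z = ξ}.Countable)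
    (g : W → Y × Z) (hg : ∀ α, IsLim α → lev (g α).2 < α) :
    ∃ α β, α ≠ β ∧ IsLim α ∧ IsLim β ∧ g α = g β := by
  classical
  by_contra hcon
  push Not at hcon
  have hinj : Set.InjOn g {α | IsLim α} := by
    intro α hα β hβ h
    by_contra hne
    exact hcon α β hne hα hβ h
  have hcount : ∀ ξ : W, {α | IsLim α ∧ lev (g α).2 ≤ ξ}.Countable := by
    intro ξ
    have h1 : {z | lev z ≤ ξ}.Countable := by
      have : {z | lev z ≤ ξ} = ⋃ η ∈ Set.Iic ξ, {z | lev z = η} := by
        ext z; simp
      rw [this]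
      exact (countable_Iic ξ).biUnion fun η _ => hlev η
    have h2 : ((Set.univ : Set Y) ×ˢ {z | lev z ≤ ξ}).Countable :=
      (Set.countable_univ).prod h1
    refine Set.MapsTo.countable_of_injOn (f := g) ?_ (hinj.mono fun α hα => hα.1) h2
    intro α hα
    exact ⟨Set.mem_univ _, hα.2⟩
  choose γ hγ using fun ξ => exists_gt_of_countable (hcount ξ)
  obtain ⟨δ, -, hδ, hcl⟩ := exists_closure_point γ (Classical.arbitrary W)
  have h1 := hg δ hδ
  have h2 := hcl _ h1
  have h3 := hγ (lev (g δ).2) δ ⟨hδ, le_rfl⟩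
  exact absurd h3 (not_lt.2 h2.le)

/-! ### Ladders -/

theorem LadderSystem.eventually_gt (C : LadderSystem) {α : W} (hα : IsLim α) {β : W} (hβ : β < α) :
    ∃ N, ∀ n, N ≤ n → β < C.c α n := by
  obtain ⟨N, hN⟩ := C.cof α hα β hβ
  exact ⟨N, fun n hn => lt_of_lt_of_le hN ((C.mono α hα).monotone hn)⟩

/-! ### Trees -/

section OTree
variable {T : Type} [PartialOrder T] (tr : OTree T)

theorem OTree.res_le (t : T) (ξ : W) : tr.res t ξ ≤ t := by
  unfold OTree.res
  split_ifs with h
  · exact (tr.res_unique t ξ h).choose_spec.1.1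
  · exact le_rfl

theorem OTree.ht_res {t : T} {ξ : W} (h : ξ ≤ tr.ht t) : tr.ht (tr.res t ξ) = ξ := by
  unfold OTree.res
  rw [dif_pos h]
  exact (tr.res_unique t ξ h).choose_spec.1.2

theorem OTree.eq_res {t s : T} (h : s ≤ t) : s = tr.res t (tr.ht s) := by
  have hle : tr.ht s ≤ tr.ht t := by
    rcases eq_or_lt_of_le h with rfl | h'
    · exact le_rfl
    · exact (tr.ht_lt s t h').le
  exact (tr.res_unique t (tr.ht s) hle).unique ⟨h, rfl⟩ ⟨tr.res_le t _, tr.ht_res hle⟩

theorem OTree.ht_mono {t s : T} (h : s ≤ t) : tr.ht s ≤ tr.ht t := by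
  rcases eq_or_lt_of_le h with rfl | h'
  · exact le_rfl
  · exact (tr.ht_lt s t h').le

theorem OTree.res_self (t : T) : tr.res t (tr.ht t) = t := (tr.eq_res le_rfl).symm

theorem OTree.res_res {t : T} {ξ η : W} (h : ξ ≤ η) (hη : η ≤ tr.ht t) :
    tr.res (tr.res t η) ξ = tr.res t ξ := by
  have h1 : tr.ht (tr.res t η) = η := tr.ht_res hη
  have h2 : tr.ht (tr.res (tr.res t η) ξ) = ξ := tr.ht_res (by rw [h1]; exact h)
  have h3 : tr.res (tr.res t η) ξ ≤ t := (tr.res_le _ _).trans (tr.res_le _ _)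
  have := tr.eq_res h3
  rw [h2] at this
  exact this

include tr in
theorem OTree.comparable {t s s' : T} (h : s ≤ t) (h' : s' ≤ t) : s ≤ s' ∨ s' ≤ s := by
  rcases le_total (tr.ht s) (tr.ht s') with hle | hle
  · left
    have h1 := tr.eq_res h
    have h2 := tr.eq_res h'
    rw [h1, h2]
    rw [← tr.res_res hle (tr.ht_mono h')]
    exact tr.res_le _ _
  · right
    have h1 := tr.eq_res h
    have h2 := tr.eq_res h'
    rw [h1, h2]
    rw [← tr.res_res hle (tr.ht_mono h)]
    exact tr.res_le _ _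

/-- In a tree with countable nonempty levels there are nodes all of whose levels above are met
by such nodes: the set of nodes with uncountable cone is a pruned subtree. -/
def OTree.core : Set T := {t | ¬ (Set.Ici t).Countable}

theorem OTree.core_down {s t : T} (h : s ≤ t) (ht : t ∈ (OTree.core : Set T)) :
    s ∈ (OTree.core : Set T) := fun hc => ht (hc.mono (Set.Ici_subset_Ici.2 h))

theorem OTree.countable_below (hc : ∀ ξ, {t | tr.ht t = ξ}.Countable) (γ : W) :
    {t | tr.ht t < γ}.Countable := by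
  have : {t | tr.ht t < γ} = ⋃ η ∈ Set.Iio γ, {t | tr.ht t = η} := by
    ext z; simp
  rw [this]
  exact (countable_Iio γ).biUnion fun η _ => hc η

theorem OTree.core_pruned (hc : ∀ ξ, {t | tr.ht t = ξ}.Countable) {s : T}
    (hs : s ∈ (OTree.core : Set T)) (γ : W) :
    ∃ t, s ≤ t ∧ γ ≤ tr.ht t ∧ t ∈ (OTree.core : Set T) := by
  by_cases hγ : γ ≤ tr.ht s
  · exact ⟨s, le_rfl, hγ, hs⟩
  push Not at hγ
  by_contra hcon
  push Not at hcon
  apply hs
  have hsub : Set.Ici s ⊆ {t | tr.ht t < γ} ∪
      ⋃ u ∈ {u | tr.ht u = γ} ∩ Set.Ici s, Set.Ici u := by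
    intro t ht
    by_cases h : tr.ht t < γ
    · exact Or.inl h
    · right
      push Not at h
      have h1 : s ≤ tr.res t γ := by
        rcases tr.comparable ht (tr.res_le t γ) with h2 | h2
        · exact h2
        · exfalso
          have := tr.ht_mono h2
          rw [tr.ht_res h] at this
          exact absurd hγ (not_lt.2 this)
      refine Set.mem_biUnion (x := tr.res t γ) ⟨tr.ht_res h, h1⟩ (tr.res_le t γ)
  refine ((tr.countable_below hc γ).union ?_).mono hsub
  refine ((hc γ).mono Set.inter_subset_left).biUnion ?_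
  rintro u ⟨hu1, hu2⟩
  by_contra h
  exact hcon u hu2 (le_of_eq hu1.symm) h

theorem OTree.core_nonempty (hc : ∀ ξ, {t | tr.ht t = ξ}.Nonempty ∧ {t | tr.ht t = ξ}.Countable) :
    (OTree.core : Set T).Nonempty := by
  by_contra h
  rw [Set.not_nonempty_iff_eq_empty] at h
  have h0 : ∀ t : T, (Set.Ici t).Countable := by
    intro t
    by_contra ht
    have : t ∈ (OTree.core : Set T) := ht
    rw [h] at this
    exact this
  -- the least level
  obtain ⟨m, hm⟩ : ∃ m : W, ∀ x, m ≤ x := by
    refine ⟨WellFounded.min (wellFounded_lt (α := W)) Set.univ Set.univ_nonempty, ?_⟩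
    intro x
    exact not_lt.1 (WellFounded.not_lt_min _ _ (Set.mem_univ x))
  have hall : (Set.univ : Set T).Countable := by
    refine ((hc m).2.biUnion (t := fun u _ => Set.Ici u) (fun u _ => h0 u)).mono ?_
    intro t _
    exact Set.mem_biUnion (x := tr.res t m) (tr.ht_res (hm _)) (tr.res_le t m)
  have : (Set.range tr.ht).Countable := by
    rw [← Set.image_univ]
    exact hall.image _
  have h2 : Set.range tr.ht = Set.univ := by
    ext ξ
    simp only [Set.mem_range, Set.mem_univ, iff_true]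
    exact (hc ξ).1
  rw [h2] at this
  exact not_countable_W (Set.countable_univ_iff.1 this)

end OTree

end Pool.Agent.Ladder
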