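import Mathlib

/-!
# MP_62a69e_lc: basic definitions

`W` is `ω₁` as a well-ordered type. Ladder systems, `ω₁`-trees, Boolean-valued names and the
Boolean value of '`φ` restricted to `S` is a `T`-uniformization of the colouring `f`'.
-/

set_option autoImplicit false

namespace Pool.Agent.Ladder

open Cardinal Ordinal

/-- The first uncountable ordinal `ω₁`, as a well-ordered type. -/
abbrev W : Type := (ω₁ : Ordinal.{0}).ToType

/-- `α` is a limit ordinal: not the least element, and without immediate predecessor. -/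
def IsLim (α : W) : Prop := (∃ β, β < α) ∧ ∀ β, β < α → ∃ γ, β < γ ∧ γ < α

/-- A ladder system: `c α 0 < c α 1 < ...` is cofinal in `α`, for each limit `α < ω₁`
(the values of `c α` at non-limit `α` are irrelevant). -/
structure LadderSystem where
  c : W → ℕ → W
  mono : ∀ α, IsLim α → StrictMono (c α)
  lt : ∀ α, IsLim α → ∀ n, c α n < α
  cof : ∀ α, IsLim α → ∀ β, β < α → ∃ n, β < c α n

/-- A tree with levels indexed by `ω₁`: a partial order with a strictly increasing height
function such that below each `t` there is exactly one node of every height `≤ ht t`.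
(Equivalently: the predecessors of `t` are well-ordered of order type `ht t < ω₁`.) -/
structure OTree (T : Type) [PartialOrder T] where
  ht : T → W
  ht_lt : ∀ s t, s < t → ht s < ht t
  res_unique : ∀ t ξ, ξ ≤ ht t → ∃! s, s ≤ t ∧ ht s = ξ

/-- `s ↾ ξ`: the node of height `ξ` below `t` (and `t` itself if `ht t < ξ`). -/
noncomputable def OTree.res {T : Type} [PartialOrder T] (tr : OTree T) (t : T) (ξ : W) : T :=
  open Classical in
  if h : ξ ≤ tr.ht t then (tr.res_unique t ξ h).choose else t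

/-- `T` is Aronszajn: all levels `ξ < ω₁` are nonempty and countable, and there is no
cofinal branch. -/
def OTree.IsAronszajn {T : Type} [PartialOrder T] (tr : OTree T) : Prop :=
  (∀ ξ, {t | tr.ht t = ξ}.Nonempty ∧ {t | tr.ht t = ξ}.Countable) ∧
  ¬ ∃ b : Set T, (∀ s ∈ b, ∀ t ∈ b, s ≤ t ∨ t ≤ s) ∧ ∀ ξ, ∃ t ∈ b, tr.ht t = ξ

/-! ### Boolean-valued names -/

/-- A `B`-name for a function from the ground-model set `X` to the ground-model set `Y`:
`val x y` is the Boolean value of `f x = y`. -/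
structure BFun (B : Type) [CompleteBooleanAlgebra B] (X Y : Type) where
  val : X → Y → B
  disj : ∀ x y y', y ≠ y' → val x y ⊓ val x y' = ⊥
  total : ∀ x, ⨆ y, val x y = ⊤

section
variable {B : Type} [CompleteBooleanAlgebra B] {T : Type} [PartialOrder T]

/-- The Boolean value of '`S` is a subtree of `T`': nonempty, downward closed and pruned. A
`B`-name for a subset of `T` is a function `S : T → B`, `S t` being the value of `t ∈ S`. -/
def subtreeVal (tr : OTree T) (S : T → B) : B :=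
  (⨆ t, S t) ⊓
  (⨅ s, ⨅ t, ⨅ (_ : s ≤ t), (S t ⇨ S s)) ⊓
  (⨅ s, ⨅ γ : W, (S s ⇨ ⨆ t, ⨆ (_ : s ≤ t ∧ γ ≤ tr.ht t), S t))

/-- The Boolean value of 'the restriction of `φ` to `S` is a `T`-uniformization of the
colouring `f`'. Here `f.val (α, n) k` is the Boolean value of `f_α(c_α(n)) = k`. -/
noncomputable def unifVal (C : LadderSystem) (tr : OTree T) (f : BFun B (W × ℕ) ℕ) (S : T → B)
    (φ : BFun B T ℕ) : B :=
  subtreeVal tr S ⊓
  (⨅ s, ⨅ (_ : IsLim (tr.ht s)),
    (S s ⇨ ⨆ N : ℕ, ⨅ n : ℕ, ⨅ (_ : N ≤ n), ⨆ k : ℕ,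
      (φ.val (tr.res s (C.c (tr.ht s) n)) k ⊓ f.val (tr.ht s, n) k)))

/-- The Boolean value of `unif^ω_T(C)`: every `ω`-colouring has a `T`-uniformization. -/
noncomputable def unifOmegaVal (B : Type) [CompleteBooleanAlgebra B] (C : LadderSystem) (tr : OTree T) : B :=
  ⨅ f : BFun B (W × ℕ) ℕ, ⨆ S : T → B, ⨆ φ : BFun B T ℕ, unifVal C tr f S φ

/-- The Boolean value of `unif^2_T(C)`: every colouring with values in `{0, 1}` has a
`T`-uniformization. -/
noncomputable def unifTwoVal (B : Type) [CompleteBooleanAlgebra B] (C : LadderSystem) (tr : OTree T) : B :=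
  ⨅ f : BFun B (W × ℕ) ℕ, ⨅ (_ : ∀ x k, 2 ≤ k → f.val x k = ⊥),
    ⨆ S : T → B, ⨆ φ : BFun B T ℕ, unifVal C tr f S φ

/-- The Boolean value of '`T` has a cofinal branch'. -/
def branchVal (B : Type) [CompleteBooleanAlgebra B] (tr : OTree T) : B :=
  ⨆ b : T → B, ((⨅ s, ⨅ t, ⨅ (_ : ¬ (s ≤ t ∨ t ≤ s)), (b s ⊓ b t)ᶜ) ⊓
    (⨅ ξ : W, ⨆ t, ⨆ (_ : tr.ht t = ξ), b t))

/-- `B` has the countable chain condition. -/
def BCCC (B : Type) [CompleteBooleanAlgebra B] : Prop :=
  ∀ A : Set B, (∀ a ∈ A, a ≠ ⊥) → (∀ a ∈ A, ∀ b ∈ A, a ≠ b → a ⊓ b = ⊥) → A.Countable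

end

end Pool.Agent.Ladder
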