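import Pool.Agent.Lib.MP_62a69e_lc.Basic

/-! # Existence of ladder systems and of Aronszajn trees (in ZFC) -/

set_option autoImplicit false

namespace Pool.Agent.Ladder

open Cardinal Ordinal

theorem exists_ladder (α : W) (hα : IsLim α) :
    ∃ c : ℕ → W, StrictMono c ∧ (∀ n, c n < α) ∧ ∀ β, β < α → ∃ n, β < c n := by
  classical
  obtain ⟨⟨β0, hβ0⟩, hlim⟩ := hα
  have hne : (Set.Iio α).Nonempty := ⟨β0, hβ0⟩
  obtain ⟨s, hs⟩ := (countable_Iio α).exists_eq_range hne
  have hsα : ∀ n, s n < α := fun n => by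
    have : s n ∈ Set.Iio α := by rw [hs]; exact ⟨n, rfl⟩
    exact this
  have hnext : ∀ (x : {x : W // x < α}) (n : ℕ), ∃ y : {x : W // x < α}, x.1 < y.1 ∧ s n < y.1 := by
    intro x n
    obtain ⟨y, hy1, hy2⟩ := hlim (max x.1 (s n)) (max_lt x.2 (hsα n))
    exact ⟨⟨y, hy2⟩, lt_of_le_of_lt (le_max_left _ _) hy1, lt_of_le_of_lt (le_max_right _ _) hy1⟩
  choose nx hnx1 hnx2 using hnext
  let c : ℕ → {x : W // x < α} := fun n => Nat.rec ⟨β0, hβ0⟩ (fun n x => nx x n) n
  have hc : ∀ n, c (n + 1) = nx (c n) n := fun n => rfl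
  refine ⟨fun n => (c n).1, strictMono_nat_of_lt_succ fun n => ?_, fun n => (c n).2, ?_⟩
  · rw [hc]; exact hnx1 _ _
  · intro β hβ
    have : β ∈ Set.range s := by rw [← hs]; exact hβ
    obtain ⟨n, rfl⟩ := this
    exact ⟨n + 1, hnx2 (c n) n⟩

theorem ladderSystem_nonempty : Nonempty LadderSystem := by
  classical
  have h : ∀ α : W, ∃ c : ℕ → W, IsLim α →
      StrictMono c ∧ (∀ n, c n < α) ∧ ∀ β, β < α → ∃ n, β < c n := by
    intro α
    by_cases hα : IsLim α
    · obtain ⟨c, hc⟩ := exists_ladder α hα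
      exact ⟨c, fun _ => hc⟩
    · exact ⟨fun _ => α, fun h => (hα h).elim⟩
  choose c hc using h
  exact ⟨⟨c, fun α hα => (hc α hα).1, fun α hα => (hc α hα).2.1, fun α hα => (hc α hα).2.2⟩⟩

/-- coherence requirement for the next function -/
def CohStep (β : W) (e : (α : W) → α < β → W → ℕ) (f : W → ℕ) : Prop :=
  (∀ k, {ξ | ξ < β ∧ f ξ ≤ k}.Finite) ∧
  ∀ α (h : α < β), {ξ | ξ < α ∧ e α h ξ ≠ f ξ}.Finite

theorem exists_coh (C : LadderSystem) (β : W) (e : W → W → ℕ)
    (h1 : ∀ α < β, ∀ k, {ξ | ξ < α ∧ e α ξ ≤ k}.Finite)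
    (h2 : ∀ α < β, ∀ γ < β, α < γ → {ξ | ξ < α ∧ e α ξ ≠ e γ ξ}.Finite) :
    ∃ f, CohStep β (fun α _ => e α) f := by
  classical
  by_cases hmin : ∃ x, x < β
  · by_cases hlim : IsLim β
    · -- limit case
      have hlt := C.lt β hlim
      have hcof := C.cof β hlim
      have hex : ∀ ξ : W, ∃ n, ξ < β → (ξ < C.c β n ∧ ∀ m < n, C.c β m ≤ ξ) := by
        intro ξ
        by_cases hξ : ξ < β
        · refine ⟨Nat.find (hcof ξ hξ), fun _ => ⟨Nat.find_spec (hcof ξ hξ), fun m hm => ?_⟩⟩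
          exact not_lt.1 (Nat.find_min (hcof ξ hξ) hm)
        · exact ⟨0, fun h => (hξ h).elim⟩
      choose nn hnn using hex
      refine ⟨fun ξ => max (e (C.c β (nn ξ)) ξ) (nn ξ), fun k => ?_, fun α hα => ?_⟩
      · refine Set.Finite.subset (Set.Finite.biUnion (Set.finite_Iic k)
          (t := fun n => {ξ | ξ < C.c β n ∧ e (C.c β n) ξ ≤ k})
          (fun n _ => h1 _ (hlt n) k)) ?_
        rintro ξ ⟨hξ, hle⟩
        have hle' : max (e (C.c β (nn ξ)) ξ) (nn ξ) ≤ k := hle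
        exact Set.mem_biUnion (x := nn ξ) ((le_max_right _ _).trans hle')
          ⟨(hnn ξ hξ).1, (le_max_left _ _).trans hle'⟩
      · obtain ⟨m, hm⟩ := hcof α hα
        refine Set.Finite.subset (Set.Finite.biUnion (Set.finite_Iic m)
          (t := fun n => {ξ | ξ < C.c β n ∧ e (C.c β n) ξ ≤ n} ∪
            {ξ | ξ < α ∧ ξ < C.c β n ∧ e α ξ ≠ e (C.c β n) ξ}) (fun n _ => ?_)) ?_
        · refine (h1 _ (hlt n) n).union ?_
          rcases lt_trichotomy α (C.c β n) with h | h | h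
          · refine (h2 α hα (C.c β n) (hlt n) h).subset ?_
            rintro ξ ⟨hξ1, _, hξ2⟩
            exact ⟨hξ1, hξ2⟩
          · rw [← h]
            simp
          · refine (h2 (C.c β n) (hlt n) α hα h).subset ?_
            rintro ξ ⟨_, hξ1, hξ2⟩
            exact ⟨hξ1, fun h => hξ2 h.symm⟩
        · rintro ξ ⟨hξ, hne⟩
          have hne' : e α ξ ≠ max (e (C.c β (nn ξ)) ξ) (nn ξ) := hne
          have hξβ : ξ < β := hξ.trans hα
          obtain ⟨h3, h4⟩ := hnn ξ hξβ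
          have hnm : nn ξ ≤ m := by
            by_contra h
            have := h4 m (not_le.1 h)
            exact absurd (hξ.trans hm) (not_lt.2 this)
          refine Set.mem_biUnion (x := nn ξ) hnm ?_
          by_cases hle : e (C.c β (nn ξ)) ξ ≤ nn ξ
          · exact Or.inl ⟨h3, hle⟩
          · right
            refine ⟨hξ, h3, ?_⟩
            rwa [max_eq_left (not_le.1 hle).le] at hne'
    · -- successor case
      have hsucc : ∃ γ, γ < β ∧ ∀ x, x < β → x ≤ γ := by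
        by_contra hcon
        apply hlim
        refine ⟨hmin, fun x hx => ?_⟩
        by_contra h
        exact hcon ⟨x, hx, fun y hy => not_lt.1 fun hxy => h ⟨y, hxy, hy⟩⟩
      obtain ⟨γ, hγ, hmax⟩ := hsucc
      refine ⟨e γ, fun k => ?_, fun α hα => ?_⟩
      · refine ((h1 γ hγ k).union (Set.finite_singleton γ)).subset ?_
        rintro ξ ⟨hξ, hle⟩
        rcases lt_or_eq_of_le (hmax ξ hξ) with h | h
        · exact Or.inl ⟨h, hle⟩
        · exact Or.inr h
      · rcases lt_or_eq_of_le (hmax α hα) with h | h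
        · exact h2 α hα γ hγ h
        · subst h
          simp
  · refine ⟨fun _ => 0, fun k => ?_, fun α hα => (hmin ⟨α, hα⟩).elim⟩
    have : {ξ | ξ < β ∧ (fun _ : W => 0) ξ ≤ k} = ∅ := by
      ext ξ
      simp only [Set.mem_ofPred_eq, Set.mem_empty_iff_false, iff_false, not_and]
      intro h
      exact (hmin ⟨ξ, h⟩).elim
    rw [this]
    exact Set.finite_empty

/-- A coherent sequence of finite-to-one functions. -/
theorem exists_coherent : ∃ e : W → W → ℕ, (∀ α k, {ξ | ξ < α ∧ e α ξ ≤ k}.Finite) ∧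
    ∀ α γ, α < γ → {ξ | ξ < α ∧ e α ξ ≠ e γ ξ}.Finite := by
  classical
  obtain ⟨C⟩ := ladderSystem_nonempty
  let stepF : (x : W) → ((y : W) → y < x → W → ℕ) → W → ℕ := fun x rec =>
    if h : ∃ f, CohStep x rec f then h.choose else fun _ => 0
  let e : W → W → ℕ := (wellFounded_lt (α := W)).fix stepF
  have he : ∀ x, e x = stepF x (fun y _ => e y) := fun x =>
    (wellFounded_lt (α := W)).fix_eq stepF x
  have hP : ∀ x, CohStep x (fun y _ => e y) (e x) := by
    intro x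
    induction x using (wellFounded_lt (α := W)).induction with
    | _ x ih =>
      have hex : ∃ f, CohStep x (fun y _ => e y) f := by
        refine exists_coh C x e (fun α hα k => (ih α hα).1 k) (fun α hα γ hγ hαγ => ?_)
        exact (ih γ hγ).2 α hαγ
      have h3 : e x = hex.choose := by
        rw [he x]
        exact dif_pos hex
      rw [h3]
      exact hex.choose_spec
  exact ⟨e, fun α k => (hP α).1 k, fun α γ h => (hP γ).2 α h⟩

/-- Nodes: finite modifications of the functions `e α`. -/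
def CTree (e : W → W → ℕ) : Type :=
  {x : W × (W → ℕ) // (∀ η, x.1 ≤ η → x.2 η = 0) ∧ {η | η < x.1 ∧ x.2 η ≠ e x.1 η}.Finite}

instance (e : W → W → ℕ) : PartialOrder (CTree e) where
  le x y := x.1.1 ≤ y.1.1 ∧ ∀ η, η < x.1.1 → x.1.2 η = y.1.2 η
  le_refl x := ⟨le_rfl, fun _ _ => rfl⟩
  le_trans x y z h h' := ⟨h.1.trans h'.1, fun η hη =>
    (h.2 η hη).trans (h'.2 η (lt_of_lt_of_le hη h.1))⟩
  le_antisymm x y h h' := by
    have h1 : x.1.1 = y.1.1 := le_antisymm h.1 h'.1
    apply Subtype.ext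
    refine Prod.ext h1 (funext fun η => ?_)
    by_cases hη : η < x.1.1
    · exact h.2 η hη
    · rw [x.2.1 η (not_lt.1 hη), y.2.1 η (by rw [← h1]; exact not_lt.1 hη)]

theorem CTree.le_def {e : W → W → ℕ} {x y : CTree e} :
    x ≤ y ↔ x.1.1 ≤ y.1.1 ∧ ∀ η, η < x.1.1 → x.1.2 η = y.1.2 η := Iff.rfl

theorem CTree.ext' {e : W → W → ℕ} {x y : CTree e} (h1 : x.1.1 = y.1.1)
    (h2 : ∀ η, η < x.1.1 → x.1.2 η = y.1.2 η) : x = y :=
  le_antisymm (CTree.le_def.2 ⟨h1.le, h2⟩)
    (CTree.le_def.2 ⟨h1.ge, fun η hη => (h2 η (by rw [h1]; exact hη)).symm⟩)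

/-- the tree structure -/
noncomputable def cTree (e : W → W → ℕ)
    (h2 : ∀ α γ, α < γ → {ξ | ξ < α ∧ e α ξ ≠ e γ ξ}.Finite) : OTree (CTree e) where
  ht x := x.1.1
  ht_lt s t h := by
    have hle : s ≤ t := h.le
    rcases lt_or_eq_of_le (CTree.le_def.1 hle).1 with h' | h'
    · exact h'
    · exact absurd (CTree.ext' h' (CTree.le_def.1 hle).2) h.ne
  res_unique t ξ hξ := by
    classical
    have hfin : {η | η < ξ ∧ (if η < ξ then t.1.2 η else 0) ≠ e ξ η}.Finite := by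
      rcases lt_or_eq_of_le hξ with h | h
      · refine (t.2.2.union (h2 ξ t.1.1 h)).subset ?_
        rintro η ⟨hη, hne⟩
        rw [if_pos hη] at hne
        by_cases h' : t.1.2 η = e t.1.1 η
        · right
          exact ⟨hη, fun h'' => hne (h'.trans h''.symm)⟩
        · exact Or.inl ⟨lt_of_lt_of_le hη hξ, h'⟩
      · subst h
        refine t.2.2.subset ?_
        rintro η ⟨hη, hne⟩
        rw [if_pos hη] at hne
        exact ⟨hη, hne⟩
    refine ⟨⟨(ξ, fun η => if η < ξ then t.1.2 η else 0),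
      fun η hη => if_neg (not_lt.2 hη), hfin⟩, ⟨⟨hξ, fun η hη => if_pos hη⟩, rfl⟩, ?_⟩
    rintro y ⟨hy1, hy2⟩
    have hy2' : y.1.1 = ξ := hy2
    refine CTree.ext' hy2' fun η hη => ?_
    have h3 : η < ξ := by rw [← hy2']; exact hη
    show y.1.2 η = if η < ξ then t.1.2 η else 0
    rw [if_pos h3]
    exact (CTree.le_def.1 hy1).2 η hη

theorem cTree_aronszajn (e : W → W → ℕ) (h1 : ∀ α k, {ξ | ξ < α ∧ e α ξ ≤ k}.Finite)
    (h2 : ∀ α γ, α < γ → {ξ | ξ < α ∧ e α ξ ≠ e γ ξ}.Finite) : (cTree e h2).IsAronszajn := by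
  classical
  refine ⟨fun ξ => ⟨?_, ?_⟩, ?_⟩
  · refine ⟨⟨(ξ, fun η => if η < ξ then e ξ η else 0), fun η hη => if_neg (not_lt.2 hη), ?_⟩, rfl⟩
    have : {η | η < ξ ∧ (if η < ξ then e ξ η else 0) ≠ e ξ η} = ∅ := by
      ext η
      simp only [Set.mem_ofPred_eq, Set.mem_empty_iff_false, iff_false, not_and]
      intro hη
      rw [if_pos hη]
      simp
    show {η | η < ξ ∧ (if η < ξ then e ξ η else 0) ≠ e ξ η}.Finite
    rw [this]
    exact Set.finite_empty
  · -- countable levels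
    have hcount : ((Set.Iio ξ) ×ˢ (Set.univ : Set ℕ)).Countable :=
      (countable_Iio ξ).prod Set.countable_univ
    refine Set.MapsTo.countable_of_injOn
      (f := fun x : CTree e => {p : W × ℕ | p.1 < ξ ∧ x.1.2 p.1 = p.2 ∧ x.1.2 p.1 ≠ e ξ p.1})
      ?_ ?_ (Set.countable_ofPred_finite_subset hcount)
    · intro x hx
      have hx' : x.1.1 = ξ := hx
      refine ⟨?_, fun p hp => ⟨hp.1, Set.mem_univ _⟩⟩
      have hf : {η | η < ξ ∧ x.1.2 η ≠ e ξ η}.Finite := by
        have := x.2.2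
        rw [hx'] at this
        exact this
      refine (hf.image (fun η => (η, x.1.2 η))).subset ?_
      rintro ⟨η, k⟩ ⟨hp1, hp2, hp3⟩
      exact ⟨η, ⟨hp1, hp3⟩, Prod.ext rfl hp2⟩
    · intro x hx y hy hxy
      have hx' : x.1.1 = ξ := hx
      have hy' : y.1.1 = ξ := hy
      refine CTree.ext' (hx'.trans hy'.symm) fun η hη => ?_
      rw [hx'] at hη
      have hiff : ∀ p : W × ℕ, (p.1 < ξ ∧ x.1.2 p.1 = p.2 ∧ x.1.2 p.1 ≠ e ξ p.1) ↔
          (p.1 < ξ ∧ y.1.2 p.1 = p.2 ∧ y.1.2 p.1 ≠ e ξ p.1) := fun p =>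
        iff_of_eq (congrArg (fun s : Set (W × ℕ) => p ∈ s) hxy)
      by_cases hxe : x.1.2 η = e ξ η
      · by_contra hne
        have h3 : y.1.2 η ≠ e ξ η := fun h => hne (hxe.trans h.symm)
        exact ((hiff (η, y.1.2 η)).2 ⟨hη, rfl, h3⟩).2.2 hxe
      · exact ((hiff (η, x.1.2 η)).1 ⟨hη, rfl, hxe⟩).2.1.symm
  · rintro ⟨b, hchain, hb⟩
    choose t htb htξ using hb
    choose nx hnx using exists_gt
    let G : W → ℕ := fun η => (t (nx η)).1.2 η
    have hG : ∀ ξ η, η < ξ → G η = (t ξ).1.2 η := by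
      intro ξ η hη
      have ha : (t (nx η)).1.1 = nx η := htξ _
      have hb' : (t ξ).1.1 = ξ := htξ _
      rcases hchain _ (htb (nx η)) _ (htb ξ) with h | h
      · exact (CTree.le_def.1 h).2 η (by rw [ha]; exact hnx η)
      · exact ((CTree.le_def.1 h).2 η (by rw [hb']; exact hη)).symm
    have hGfin : ∀ ξ k, {η | η < ξ ∧ G η ≤ k}.Finite := by
      intro ξ k
      have hf : {η | η < ξ ∧ (t ξ).1.2 η ≠ e ξ η}.Finite := by
        have h3 := (t ξ).2.2
        have h4 : (t ξ).1.1 = ξ := htξ ξ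
        rw [h4] at h3
        exact h3
      refine ((h1 ξ k).union hf).subset ?_
      rintro η ⟨hη, hk⟩
      rw [hG ξ η hη] at hk
      by_cases h' : (t ξ).1.2 η = e ξ η
      · left
        rw [h'] at hk
        exact ⟨hη, hk⟩
      · exact Or.inr ⟨hη, h'⟩
    obtain ⟨k, hk⟩ : ∃ k, ¬ {η | G η ≤ k}.Countable := by
      by_contra h
      push Not at h
      have : (Set.univ : Set W) = ⋃ k : ℕ, {η | G η ≤ k} := by
        ext η
        simp only [Set.mem_univ, Set.mem_iUnion, Set.mem_ofPred_eq, true_iff]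
        exact ⟨_, le_rfl⟩
      have h5 : (Set.univ : Set W).Countable := by
        rw [this]; exact Set.countable_iUnion h
      exact not_countable_W (Set.countable_univ_iff.1 h5)
    have hinf : {η | G η ≤ k}.Infinite := fun h => hk h.countable
    let emb := hinf.natEmbedding
    obtain ⟨ξ, hξ⟩ := exists_gt_of_countable (Set.countable_range (fun n => (emb n).1))
    have hsub : Set.range (fun n => (emb n).1) ⊆ {η | η < ξ ∧ G η ≤ k} := by
      rintro _ ⟨n, rfl⟩
      exact ⟨hξ _ ⟨n, rfl⟩, (emb n).2⟩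
    have := (hGfin ξ k).subset hsub
    exact Set.infinite_range_of_injective
      (fun a b h => emb.injective (Subtype.ext h)) this

/-- **Aronszajn trees exist.** -/
theorem exists_aronszajn : ∃ (T : Type) (_ : PartialOrder T) (tr : OTree T), tr.IsAronszajn := by
  obtain ⟨e, h1, h2⟩ := exists_coherent
  exact ⟨CTree e, inferInstance, cTree e h2, cTree_aronszajn e h1 h2⟩

end Pool.Agent.Ladder
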