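import Pool.Agent.Lib.MP_62a69e_lc.FSKn

/-! # Consequences of the Knaster property: ccc and no new branches -/

set_option autoImplicit false
set_option linter.unusedSectionVars false

namespace Pool.Agent.Ladder

open Cardinal

/-- An uncountable set contains an injective image of `ω₁`. -/
theorem exists_injection_of_uncountable {X : Type} {A : Set X} (hA : ¬ A.Countable) :
    ∃ f : W → X, Function.Injective f ∧ ∀ ν, f ν ∈ A := by
  have h1 : #W ≤ #A := by
    rw [mk_W, ← Cardinal.succ_aleph0]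
    apply Order.succ_le_of_lt
    rw [← not_le]
    intro h
    exact hA (Cardinal.le_aleph0_iff_set_countable.1 h)
  obtain ⟨e⟩ := (Cardinal.le_def _ _).1 h1
  exact ⟨fun ν => (e ν).1, fun a b h => e.injective (Subtype.ext h), fun ν => (e ν).2⟩

section
variable {K : Type} {C : K → LadderSystem} [LinearOrder K] [WellFoundedLT K] {bk : K → Code K C}

theorem Kn.countable_of_incompatible {R : Cd K C → Cd K C → Prop} (h : Kn R)
    (A : Set (Cd K C)) (hA : ∀ p ∈ A, ∀ q ∈ A, p ≠ q → ¬ ∃ r, R r p ∧ R r q) : A.Countable := by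
  by_contra hcon
  obtain ⟨f, hf, hfA⟩ := exists_injection_of_uncountable hcon
  obtain ⟨E, _, hE, hpw⟩ := h Set.univ (fun hc => not_countable_W (Set.countable_univ_iff.1 hc)) f
  have : ∃ a ∈ E, ∃ b ∈ E, a ≠ b := by
    by_contra hcon
    push Not at hcon
    apply hE
    rcases E.eq_empty_or_nonempty with h0 | ⟨a, ha⟩
    · rw [h0]; exact Set.countable_empty
    · exact (Set.countable_singleton a).mono fun b hb => (hcon a ha b hb).symm
  obtain ⟨a, ha, b, hb, hab⟩ := this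
  exact hA _ (hfA a) _ (hfA b) (fun h' => hab (hf h')) (hpw a ha b hb hab)

/-- Every set of conditions has a countable subset that is predense in it. -/
theorem Kn.exists_countable_predense {R : Cd K C → Cd K C → Prop} (hR : ∀ p, R p p)
    (h : Kn R) (D : Set (Cd K C)) :
    ∃ Z ⊆ D, Z.Countable ∧ ∀ d ∈ D, ∃ z ∈ Z, ∃ r, R r d ∧ R r z := by
  classical
  obtain ⟨M, hM⟩ := zorn_subset {M : Set (Cd K C) | M ⊆ D ∧
      ∀ a ∈ M, ∀ b ∈ M, a ≠ b → ¬ ∃ r, R r a ∧ R r b} (by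
    intro c hc hchain
    refine ⟨⋃₀ c, ⟨Set.sUnion_subset fun s hs => (hc hs).1, ?_⟩, fun s hs =>
      Set.subset_sUnion_of_mem hs⟩
    rintro a ⟨s, hs, has⟩ b ⟨t, ht, hbt⟩ hab
    rcases hchain.total hs ht with hst | hts
    · exact (hc ht).2 a (hst has) b hbt hab
    · exact (hc hs).2 a has b (hts hbt) hab)
  refine ⟨M, hM.prop.1, h.countable_of_incompatible M hM.prop.2, fun d hd => ?_⟩
  by_contra hcon
  push Not at hcon
  have hdM : d ∉ M := fun hdM => hcon d hdM d (hR d) (hR d)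
  have hins : insert d M ∈ {M : Set (Cd K C) | M ⊆ D ∧
      ∀ a ∈ M, ∀ b ∈ M, a ≠ b → ¬ ∃ r, R r a ∧ R r b} := by
    refine ⟨Set.insert_subset hd hM.prop.1, ?_⟩
    rintro x (rfl | hx) y (rfl | hy) hxy
    · exact (hxy rfl).elim
    · rintro ⟨r, hr1, hr2⟩
      exact hcon y hy r hr1 hr2
    · rintro ⟨r, hr1, hr2⟩
      exact hcon x hx r hr2 hr1
    · exact hM.prop.2 x hx y hy hxy
  exact hdM (hM.le_of_ge hins (Set.subset_insert _ _) (Set.mem_insert _ _))

variable (bk) in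
/-- The regular open algebra of the iteration is ccc. -/
theorem bccc_Po : BCCC (RO (Po bk)) := by
  classical
  intro A hA hdis
  by_contra hcon
  obtain ⟨f, hf, hfA⟩ := exists_injection_of_uncountable hcon
  choose g hg using fun ν => RO.exists_mem_of_ne_bot (hA (f ν) (hfA ν))
  obtain ⟨E, _, hE, hpw⟩ := kn_low (bk := bk) low_univ Set.univ
    (fun hc => not_countable_W (Set.countable_univ_iff.1 hc)) g
  have : ∃ a ∈ E, ∃ b ∈ E, a ≠ b := by
    by_contra hcon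
    push Not at hcon
    apply hE
    rcases E.eq_empty_or_nonempty with h0 | ⟨a, ha⟩
    · rw [h0]; exact Set.countable_empty
    · exact (Set.countable_singleton a).mono fun b hb => (hcon a ha b hb).symm
  obtain ⟨a, ha, b, hb, hab⟩ := this
  obtain ⟨r0, hra, hrb⟩ := hpw a ha b hb hab
  obtain ⟨r, hr⟩ : ∃ r : Po bk, r = r0 := ⟨r0, rfl⟩
  subst hr
  have h1 : r ∈ f a ⊓ f b := ⟨RO.mem_of_le (hg a) hra, RO.mem_of_le (hg b) hrb⟩
  rw [hdis (f a) (hfA a) (f b) (hfA b) (fun h' => hab (hf h'))] at h1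
  exact RO.mem_bot h1

variable (bk) in
/-- No cofinal branch is added to an Aronszajn tree. -/
theorem branchVal_Po {T : Type} [PartialOrder T] (tr : OTree T) (hA : tr.IsAronszajn) :
    branchVal (RO (Po bk)) tr = ⊥ := by
  classical
  rw [eq_bot_iff]
  refine iSup_le fun b => ?_
  refine (RO.eq_bot_iff'.2 fun p hp => ?_).le
  obtain ⟨h1, h2⟩ := hp
  have hstep : ∀ ξ, ∃ x : Po bk × T, x.1 ≤ p ∧ tr.ht x.2 = ξ ∧ x.1 ∈ b x.2 := by
    intro ξ
    obtain ⟨q, hq, t, ht⟩ := RO.mem_iSup.1 (RO.mem_iInf.1 h2 ξ) p le_rfl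
    obtain ⟨r, hr, hξ, ht'⟩ := RO.mem_iSup.1 ht q le_rfl
    exact ⟨(r, t), hr.trans hq, hξ, ht'⟩
  choose x hx1 hx2 hx3 using hstep
  obtain ⟨E, _, hE, hpw⟩ := kn_low (bk := bk) low_univ Set.univ
    (fun hc => not_countable_W (Set.countable_univ_iff.1 hc)) (fun ξ => (x ξ).1)
  have hcomp : ∀ ξ ∈ E, ∀ η ∈ E, (x ξ).2 ≤ (x η).2 ∨ (x η).2 ≤ (x ξ).2 := by
    intro ξ hξ η hη
    by_cases hne : ξ = η
    · rw [hne]; exact Or.inl le_rfl
    by_contra hcon
    have h3 := RO.mem_iInf.1 (RO.mem_iInf.1 (RO.mem_iInf.1 h1 (x ξ).2) (x η).2) hcon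
    obtain ⟨r0, hr1, hr2⟩ := hpw ξ hξ η hη hne
    obtain ⟨r, hr⟩ : ∃ r : Po bk, r = r0 := ⟨r0, rfl⟩
    subst hr
    have hr1' : r ≤ (x ξ).1 := hr1
    have hr2' : r ≤ (x η).1 := hr2
    exact RO.mem_compl.1 h3 r (hr1'.trans (hx1 ξ))
      ⟨RO.mem_of_le (hx3 ξ) hr1', RO.mem_of_le (hx3 η) hr2'⟩
  apply hA.2
  refine ⟨{t | ∃ ξ ∈ E, t ≤ (x ξ).2}, ?_, ?_⟩
  · rintro t ⟨ξ, hξ, ht⟩ u ⟨η, hη, hu⟩
    rcases hcomp ξ hξ η hη with h | h
    · exact tr.comparable (ht.trans h) hu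
    · exact tr.comparable ht (hu.trans h)
  · intro ξ
    have : ∃ η ∈ E, ξ ≤ η := by
      by_contra h
      push Not at h
      exact hE ((countable_Iio ξ).mono fun η hη => h η hη)
    obtain ⟨η, hηE, hη⟩ := this
    refine ⟨tr.res (x η).2 ξ, ⟨η, hηE, tr.res_le _ _⟩, ?_⟩
    rw [tr.ht_res]
    rw [hx2]; exact hη

end

end Pool.Agent.Ladder
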