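import Pool.Agent.Lib.MP_62a69e_lc.FSOrd
import Pool.Agent.Lib.MP_62a69e_lc.Exist

/-! # The index set of the iteration and the bookkeeping -/

set_option autoImplicit false

namespace Pool.Agent.Ladder

open Cardinal Ordinal

/-- The index set of the iteration: the initial ordinal of `2^ℵ₁`. -/
abbrev KK : Type := ((2 : Cardinal.{0}) ^ (ℵ₁ : Cardinal.{0})).ord.ToType

theorem mk_KK : #KK = (2 : Cardinal.{0}) ^ (ℵ₁ : Cardinal.{0}) := by
  simp [KK]

theorem aleph0_le_KK : ℵ₀ ≤ #KK := by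
  rw [mk_KK]
  exact (aleph0_le_aleph 1).trans (cantor _).le

instance : Infinite KK := Cardinal.infinite_iff.2 aleph0_le_KK

theorem mk_Iio_KK (i : KK) : #(Set.Iio i) < #KK := by
  apply Cardinal.mk_Iio_lt
  simp [KK]

/-- Every family of at most `ℵ₁` indices is strictly bounded. -/
theorem exists_gt_KK (s : Set KK) (hs : #s ≤ ℵ₁) : ∃ i : KK, ∀ x ∈ s, x < i := by
  by_contra hcon
  push Not at hcon
  have h1 : IsCofinal s := by
    intro a
    obtain ⟨x, hx, hax⟩ := hcon a
    exact ⟨x, hx, hax⟩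
  have h2 : Order.cof KK ≤ #s := Order.cof_le h1
  rw [cof_toType] at h2
  have h3 : (ℵ₁ : Cardinal.{0}) < ((2 : Cardinal.{0}) ^ (ℵ₁ : Cardinal.{0})).ord.cof :=
    Cardinal.lt_cof_ord_power (aleph0_le_aleph 1) (by norm_num)
  exact absurd (h2.trans hs) (not_le.2 h3)

theorem exists_gt_KK_range {ι : Type} (hι : #ι ≤ ℵ₁) (f : ι → KK) : ∃ i : KK, ∀ x, f x < i := by
  obtain ⟨i, hi⟩ := exists_gt_KK (Set.range f) (mk_range_le.trans hι)
  exact ⟨i, fun x => hi _ ⟨x, rfl⟩⟩

theorem exists_gt_KK_one (i : KK) : ∃ j : KK, i < j := by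
  obtain ⟨j, hj⟩ := exists_gt_KK {i} (by
    rw [mk_singleton]
    exact one_le_aleph0.trans (aleph0_le_aleph 1))
  exact ⟨j, hj i rfl⟩

theorem mk_W_le_KK : #W ≤ #KK := by
  rw [mk_KK]
  have : #W = ℵ₁ := by simp [W]
  rw [this]
  exact (cantor _).le

theorem mk_Cd_le (C : KK → LadderSystem) : #(Cd KK C) ≤ #KK := by
  have hinj : Function.Injective (fun p : Cd KK C => (p.s, p.u, p.w)) := by
    intro p q h
    simp only [Prod.mk.injEq] at h
    exact Cd.ext h.1 h.2.1 h.2.2
  refine (mk_le_of_injective hinj).trans ?_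
  have hK := aleph0_le_KK
  have hW : #W ≤ #KK := mk_W_le_KK
  have hWK : #(KK × W × Bool) ≤ #KK := by
    simp only [mk_prod, Cardinal.lift_id, mk_bool]
    have h2 : (2 : Cardinal) ≤ #KK := (Cardinal.natCast_lt_aleph0 (n := 2)).le.trans hK
    refine (mul_le_mul' le_rfl (mul_le_mul' hW h2)).trans ?_
    rw [mul_eq_self hK, mul_eq_self hK]
  have hWK' : #(KK × W) ≤ #KK := by
    simp only [mk_prod, Cardinal.lift_id]
    refine (mul_le_mul' le_rfl hW).trans ?_
    rw [mul_eq_self hK]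
  have hWN : #((W × ℕ) × ℕ) ≤ #KK := by
    simp only [mk_prod, Cardinal.lift_id, mk_nat]
    refine (mul_le_mul' (mul_le_mul' hW hK) hK).trans ?_
    rw [mul_eq_self hK, mul_eq_self hK]
  have hfin : ∀ X : Type, Infinite X → #X ≤ #KK → #(Finset X) ≤ #KK := by
    intro X _ h
    rw [mk_finset_of_infinite]
    exact h
  simp only [mk_prod, Cardinal.lift_id]
  refine (mul_le_mul' (hfin _ inferInstance hWN)
    (mul_le_mul' (hfin _ inferInstance hWK) (hfin _ inferInstance hWK'))).trans ?_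
  rw [mul_eq_self hK, mul_eq_self hK]

theorem mk_Code_le (C : KK → LadderSystem) : #(Code KK C) ≤ #KK := by
  have hK := aleph0_le_KK
  have h0 : #(Option (Cd KK C)) ≤ #KK := by
    rw [mk_option]
    exact (add_le_add (mk_Cd_le C) (one_le_aleph0.trans hK)).trans (add_eq_self hK).le
  have hW : #(W × ℕ) = ℵ₁ := by
    simp only [mk_prod, Cardinal.lift_id, mk_nat]
    have : #W = ℵ₁ := by simp [W]
    rw [this]
    exact mul_aleph0_eq (aleph0_le_aleph 1)
  have h1 : #(Code KK C) = (#(Option (Cd KK C)) ^ ℵ₀) ^ ℵ₁ := by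
    simp only [Code, mk_arrow, Cardinal.lift_id, mk_nat, hW]
  rw [h1, ← power_mul]
  refine (power_le_power_right h0).trans ?_
  rw [mk_KK, ← power_mul]
  have : (ℵ₁ : Cardinal.{0}) * (ℵ₀ * ℵ₁) = ℵ₁ := by
    rw [mul_comm ℵ₀, mul_aleph0_eq (aleph0_le_aleph 1), mul_eq_self (aleph0_le_aleph 1)]
  rw [this]

theorem mk_LadderSystem_le : #LadderSystem ≤ #KK := by
  have hinj : Function.Injective (fun L : LadderSystem => L.c) := by
    intro L L' h
    cases L
    cases L'
    simp only at h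
    subst h
    rfl
  refine (mk_le_of_injective hinj).trans ?_
  have h1 : #(W → ℕ → W) = (ℵ₁ ^ ℵ₀) ^ ℵ₁ := by
    simp only [mk_arrow, Cardinal.lift_id, mk_nat, mk_W]
  rw [h1, ← power_mul, mul_comm, mul_aleph0_eq (aleph0_le_aleph 1)]
  refine (power_le_power_right (cantor ℵ₁).le).trans ?_
  rw [← power_mul, mul_eq_self (aleph0_le_aleph 1), mk_KK]

/-- **The bookkeeping**: every pair of a ladder system and a code is listed cofinally often. -/
theorem exists_bookkeeping :
    ∃ (C : KK → LadderSystem) (bk : KK → Code KK C), ∀ (L : LadderSystem) (S : Code KK C) (i : KK),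
      ∃ j, i < j ∧ C j = L ∧ bk j = S := by
  classical
  have hK := aleph0_le_KK
  obtain ⟨L0⟩ := ladderSystem_nonempty
  have hle : #(LadderSystem × KK × KK) ≤ #KK := by
    simp only [mk_prod, Cardinal.lift_id]
    exact (mul_le_mul' mk_LadderSystem_le (mul_eq_self hK).le).trans (mul_eq_self hK).le
  obtain ⟨e⟩ := Cardinal.le_def _ _ |>.1 hle
  have : Nonempty (LadderSystem × KK × KK) :=
    ⟨(L0, Classical.arbitrary KK, Classical.arbitrary KK)⟩
  let g : KK → LadderSystem × KK × KK := Function.invFun e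
  have hg : Function.Surjective g := Function.invFun_surjective e.injective
  let C : KK → LadderSystem := fun j => (g j).1
  obtain ⟨d⟩ := Cardinal.le_def _ _ |>.1 (mk_Code_le C)
  have : Nonempty (Code KK C) := ⟨fun _ _ => none⟩
  let dd : KK → Code KK C := Function.invFun d
  have hdd : Function.Surjective dd := Function.invFun_surjective d.injective
  refine ⟨C, fun j => dd (g j).2.1, fun L S i => ?_⟩
  obtain ⟨k, hk⟩ := hdd S
  by_contra hcon
  push Not at hcon
  obtain ⟨i', hi'⟩ := exists_gt_KK_one i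
  have hsub : {j | (g j).1 = L ∧ (g j).2.1 = k} ⊆ Set.Iio i' := by
    intro j hj
    have : ¬ i < j := fun h => hcon j h hj.1 (by rw [hj.2]; exact hk)
    exact lt_of_le_of_lt (not_lt.1 this) hi'
  have hsurj : Function.Surjective
      (fun j : {j | (g j).1 = L ∧ (g j).2.1 = k} => (g j.1).2.2) := by
    intro l
    obtain ⟨j, hj⟩ := hg (L, k, l)
    exact ⟨⟨j, by show (g j).1 = L ∧ (g j).2.1 = k; rw [hj]; exact ⟨rfl, rfl⟩⟩,
      by show (g j).2.2 = l; rw [hj]⟩
  have h1 : #KK ≤ #{j | (g j).1 = L ∧ (g j).2.1 = k} := mk_le_of_surjective hsurj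
  have h2 : #{j | (g j).1 = L ∧ (g j).2.1 = k} ≤ #(Set.Iio i') := mk_le_mk_of_subset hsub
  exact absurd (h1.trans h2) (not_le.2 (mk_Iio_KK i'))

end Pool.Agent.Ladder
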