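import Pool.Agent.Lib.MP_62a69e_lc.RO
import Pool.Agent.Lib.MP_62a69e_lc.Basic

/-! # Boolean values of statements about subtrees -/

set_option autoImplicit false

namespace Pool.Agent.Ladder

/-- The core of a tree with countable nonempty levels is a subtree, with Boolean value `1`. -/
theorem subtreeVal_core {B : Type} [CompleteBooleanAlgebra B] {T : Type} [PartialOrder T]
    (tr : OTree T) (hc : ∀ ξ, {t | tr.ht t = ξ}.Nonempty ∧ {t | tr.ht t = ξ}.Countable)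
    (S : T → B) (hS1 : ∀ t, t ∈ (OTree.core : Set T) → S t = ⊤)
    (hS2 : ∀ t, t ∉ (OTree.core : Set T) → S t = ⊥) : subtreeVal tr S = ⊤ := by
  classical
  unfold subtreeVal
  rw [inf_eq_top_iff, inf_eq_top_iff]
  refine ⟨⟨?_, ?_⟩, ?_⟩
  · obtain ⟨t, ht⟩ := tr.core_nonempty hc
    exact eq_top_iff.2 ((hS1 t ht).ge.trans (le_iSup S t))
  · simp only [iInf_eq_top]
    intro s t hst
    by_cases ht : t ∈ (OTree.core : Set T)
    · rw [hS1 t ht, hS1 s (OTree.core_down hst ht)]; simp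
    · rw [hS2 t ht]; simp
  · simp only [iInf_eq_top]
    intro s γ
    by_cases hs : s ∈ (OTree.core : Set T)
    · obtain ⟨t, hst, hγ, ht⟩ := tr.core_pruned (fun ξ => (hc ξ).2) hs γ
      have : (⨆ t, ⨆ (_ : s ≤ t ∧ γ ≤ tr.ht t), S t) = ⊤ := by
        refine eq_top_iff.2 ((hS1 t ht).ge.trans ?_)
        exact le_iSup_of_le t (le_iSup_of_le ⟨hst, hγ⟩ le_rfl)
      rw [this]; simp
    · rw [hS2 s hs]; simp

/-- Below any condition forcing `S` to be a subtree there are, at each level, nodes forced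
into `S`. -/
theorem exists_node_of_subtreeVal {P : Type} [Preorder P] {T : Type} [PartialOrder T]
    (tr : OTree T) {S : T → RO P} {p : P} (hp : p ∈ subtreeVal tr S) (α : W) :
    ∃ q, q ≤ p ∧ ∃ t, tr.ht t = α ∧ q ∈ S t := by
  obtain ⟨⟨h1, h2⟩, h3⟩ := hp
  obtain ⟨q1, hq1, t0, ht0⟩ := RO.mem_iSup.1 h1 p le_rfl
  have h4 := RO.mem_himp.1 (RO.mem_iInf.1 (RO.mem_iInf.1 h3 t0) α) q1 hq1 ht0
  obtain ⟨q2, hq2, t1, ht1⟩ := RO.mem_iSup.1 h4 q1 le_rfl
  obtain ⟨q3, hq3, ⟨hle, hlev⟩, ht1'⟩ := RO.mem_iSup.1 ht1 q2 le_rfl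
  refine ⟨q3, hq3.trans (hq2.trans hq1), tr.res t1 α, tr.ht_res hlev, ?_⟩
  have h5 := RO.mem_iInf.1 (RO.mem_iInf.1 (RO.mem_iInf.1 h2 (tr.res t1 α)) t1) (tr.res_le t1 α)
  exact RO.mem_himp.1 h5 q3 (hq3.trans (hq2.trans hq1)) ht1'

end Pool.Agent.Ladder
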