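import Pool.Agent.Lib.MP_62a69e_lc.FSNeg
import Pool.Agent.Lib.MP_62a69e_lc.FSTree

/-! # The Cohen colouring is not uniformized -/

set_option autoImplicit false
set_option linter.unusedSectionVars false

namespace Pool.Agent.Ladder

/-- Suprema of increasing sequences. -/
theorem exists_sup_seq (d : ℕ → W) (hd : ∀ n, d n < d (n + 1)) :
    ∃ δ, IsLim δ ∧ (∀ n, d n < δ) ∧ ∀ β, β < δ → ∃ n, β < d n := by
  have hub : (upperBounds (Set.range d)).Nonempty := by
    obtain ⟨b, hb⟩ := exists_gt_of_countable (Set.countable_range d)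
    exact ⟨b, fun x hx => (hb x hx).le⟩
  obtain ⟨δ, hδ, hmin⟩ : ∃ δ, δ ∈ upperBounds (Set.range d) ∧
      ∀ x ∈ upperBounds (Set.range d), δ ≤ x := by
    refine ⟨WellFounded.min (wellFounded_lt (α := W)) _ hub, WellFounded.min_mem _ _ hub, ?_⟩
    intro x hx
    exact not_lt.1 (WellFounded.not_lt_min _ _ hx)
  have hlt : ∀ n, d n < δ := fun n => lt_of_lt_of_le (hd n) (hδ ⟨n + 1, rfl⟩)
  have hcof : ∀ β, β < δ → ∃ n, β < d n := by
    intro β hβ
    by_contra h
    replace h : ∀ n, d n ≤ β := fun n => not_lt.1 fun h' => h ⟨n, h'⟩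
    have : β ∈ upperBounds (Set.range d) := by
      rintro _ ⟨n, rfl⟩
      exact h n
    exact absurd (hmin β this) (not_le.2 hβ)
  refine ⟨δ, ⟨⟨d 0, hlt 0⟩, fun β hβ => ?_⟩, hlt, hcof⟩
  obtain ⟨n, hn⟩ := hcof β hβ
  exact ⟨d n, hn, hlt n⟩

/-- finite subsets of a limit of an increasing sequence are bounded by a member -/
theorem exists_seq_bound {d : ℕ → W} {δ : W} (hmono : ∀ n m, n ≤ m → d n ≤ d m)
    (hcof : ∀ β, β < δ → ∃ n, β < d n) (s : Finset W) (hs : ∀ x ∈ s, x < δ) :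
    ∃ n, ∀ x ∈ s, x < d n := by
  classical
  induction s using Finset.induction_on with
  | empty => exact ⟨0, fun x hx => absurd hx (Finset.notMem_empty _)⟩
  | @insert a s _ ih =>
    obtain ⟨n, hn⟩ := ih fun x hx => hs x (Finset.mem_insert_of_mem hx)
    obtain ⟨m, hm⟩ := hcof a (hs a (Finset.mem_insert_self _ _))
    refine ⟨max n m, fun x hx => ?_⟩
    rw [Finset.mem_insert] at hx
    rcases hx with rfl | hx
    · exact lt_of_lt_of_le hm (hmono _ _ (le_max_right _ _))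
    · exact lt_of_lt_of_le (hn x hx) (hmono _ _ (le_max_left _ _))

theorem countable_finsets {X : Type} {A : Set X} (hA : A.Countable) :
    {u : Finset X | ∀ x ∈ u, x ∈ A}.Countable := by
  have h := Set.countable_ofPred_finite_subset hA
  refine Set.MapsTo.countable_of_injOn (f := fun u : Finset X => (u : Set X)) ?_
    (Finset.coe_injective.injOn) h
  intro u hu
  exact ⟨u.finite_toSet, fun x hx => hu x hx⟩

section
variable {K : Type} {C : K → LadderSystem} [LinearOrder K] [WellFoundedLT K] {bk : K → Code K C}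

/-- Every condition has an extension that is full at `δ` at all coordinates. -/
theorem exists_full (p : Cd K C) (δ : W) : ∃ p', LE' bk Set.univ p' p ∧ ∀ i, FullAt p' δ i := by
  classical
  have key : ∀ i : K, ∀ p : Cd K C, (∀ j, i < j → FullAt p δ j) →
      ∃ p', LE' bk Set.univ p' p ∧ ∀ j, FullAt p' δ j := by
    intro i
    induction i using (wellFounded_lt (α := K)).induction with
    | _ i ih =>
      intro p hp
      obtain ⟨p1, h1, h2, h3, h4⟩ := exists_full_at (bk := bk) p δ i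
      have hfull1 : ∀ j, i < j → FullAt p1 δ j := by
        intro j hj α hα hδα n hn
        obtain ⟨b, hb⟩ := hp j hj α (((h4 j hj).2 α).1 hα) hδα n hn
        exact ⟨b, ((h4 j hj).1 _ b).2 hb⟩
      by_cases hne : ((coords p1).filter (· < i)).Nonempty
      · obtain ⟨j, hj, hmax⟩ := ((coords p1).filter (· < i)).exists_max_image id hne
        have hji : j < i := (Finset.mem_filter.1 hj).2
        obtain ⟨p2, g1, g2⟩ := ih j hji p1 (by
          intro l hl
          rcases lt_trichotomy l i with h | h | h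
          · intro α hα
            exfalso
            have : l ≤ j := hmax l (Finset.mem_filter.2 ⟨mem_coords_w hα, h⟩)
            exact absurd hl (not_lt.2 this)
          · rw [h]; exact h2
          · exact hfull1 l h)
        exact ⟨p2, LE'.trans low_univ g1 h1, g2⟩
      · refine ⟨p1, h1, fun l => ?_⟩
        rcases lt_trichotomy l i with h | h | h
        · intro α hα
          exact (hne ⟨l, Finset.mem_filter.2 ⟨mem_coords_w hα, h⟩⟩).elim
        · rw [h]; exact h2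
        · exact hfull1 l h
  by_cases hne : (coords p).Nonempty
  · obtain ⟨i, hi, hmax⟩ := (coords p).exists_max_image id hne
    refine key i p fun j hj α hα => ?_
    exfalso
    have : j ≤ i := hmax j (mem_coords_w hα)
    exact absurd hj (not_lt.2 this)
  · exact ⟨p, LE'.refl bk _ p, fun j α hα => (hne ⟨j, mem_coords_w hα⟩).elim⟩

/-! ### The closed family -/

variable (bk) in
/-- An approximation to a closed family: names, coordinates, and an ordinal. -/
structure App where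
  Y : Set (Set K × (ℕ → Set (Cd K C)))
  N : Set K
  γ : W
  cY : Y.Countable
  cN : N.Countable
  low : ∀ z ∈ Y, Low z.1
  nn : ∀ z ∈ Y, NN bk z.1 z.2

/-- One step of the closure. -/
structure Next {T : Type} (lev : T → W) (nm : T → ℕ → Set (Cd K C)) (x x' : App bk) : Prop where
  sub : x.Y ⊆ x'.Y
  subN : x.N ⊆ x'.N
  lt : x.γ < x'.γ
  base : ∀ t, lev t < x.γ → (Set.univ, nm t) ∈ x'.Y
  opA : ∀ z ∈ x.Y, ∀ i ∈ x.N, i ∈ z.1 → (Set.Iic i, opA bk z.1 z.2 i) ∈ x'.Y
  opB : ∀ (i : K) (y : ℕ → Set (Cd K C)), (Set.Iic i, y) ∈ x.Y → i ∈ x.N →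
    ∀ (U : Finset (W × Bool)) (V D : Finset W) (h : Valid (C i) U V) (hD : ∀ ξ ∈ D, ∀ b, (ξ, b) ∉ U),
      (∀ u ∈ U, u.1 < x.γ) → (∀ u ∈ V, u < x.γ) → (∀ u ∈ D, u < x.γ) →
      (Set.Iio i, opB bk i y h hD) ∈ x'.Y
  crd : ∀ z ∈ x.Y, ∀ a ∈ supp bk z.1 z.2, ∀ i ∈ coords a, i ∈ x'.N
  bdd : ∀ z ∈ x.Y, ∀ a ∈ supp bk z.1 z.2, Below x'.γ a

theorem exists_next {T : Type} (lev : T → W) (hlev : ∀ γ, {t | lev t < γ}.Countable)
    (nm : T → ℕ → Set (Cd K C)) (hnm : ∀ t, NN bk Set.univ (nm t)) (x : App bk) :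
    ∃ x', Next lev nm x x' := by
  classical
  let dataSet : Set (Finset (W × Bool) × Finset W × Finset W) :=
    {u | ∀ v ∈ u, v ∈ {v : W × Bool | v.1 < x.γ}} ×ˢ
      ({u | ∀ v ∈ u, v ∈ Set.Iio x.γ} ×ˢ {u | ∀ v ∈ u, v ∈ Set.Iio x.γ})
  have hdata : dataSet.Countable := by
    have h0 : {v : W × Bool | v.1 < x.γ}.Countable := by
      have : {v : W × Bool | v.1 < x.γ} = (Set.Iio x.γ) ×ˢ (Set.univ : Set Bool) := by
        ext v; simp
      rw [this]
      exact (countable_Iio _).prod Set.countable_univ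
    exact (countable_finsets h0).prod ((countable_finsets (countable_Iio _)).prod
      (countable_finsets (countable_Iio _)))
  let Y1 : Set (Set K × (ℕ → Set (Cd K C))) := (fun t => (Set.univ, nm t)) '' {t | lev t < x.γ}
  let Y2 : Set (Set K × (ℕ → Set (Cd K C))) :=
    {w | ∃ z ∈ x.Y, ∃ i ∈ x.N, i ∈ z.1 ∧ w = (Set.Iic i, Pool.Agent.Ladder.opA bk z.1 z.2 i)}
  let Y3 : Set (Set K × (ℕ → Set (Cd K C))) :=
    {w | ∃ z ∈ x.Y, ∃ i ∈ x.N, z.1 = Set.Iic i ∧ ∃ d ∈ dataSet, ∃ (h : Valid (C i) d.1 d.2.1)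
      (hD : ∀ ξ ∈ d.2.2, ∀ b, (ξ, b) ∉ d.1), w = (Set.Iio i, Pool.Agent.Ladder.opB bk i z.2 h hD)}
  have hY1 : Y1.Countable := (hlev x.γ).image _
  have hY2 : Y2.Countable := by
    refine (x.cY.biUnion fun z _ => x.cN.biUnion fun i _ => Set.countable_singleton
      ((Set.Iic i, Pool.Agent.Ladder.opA bk z.1 z.2 i) : Set K × (ℕ → Set (Cd K C)))).mono ?_
    rintro w ⟨z, hz, i, hi, _, rfl⟩
    exact Set.mem_biUnion hz (Set.mem_biUnion hi rfl)
  have hY3 : Y3.Countable := by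
    have hs : ∀ (z : Set K × (ℕ → Set (Cd K C))) (i : K)
        (d : Finset (W × Bool) × Finset W × Finset W),
        {w : Set K × (ℕ → Set (Cd K C)) | ∃ (h : Valid (C i) d.1 d.2.1)
        (hD : ∀ ξ ∈ d.2.2, ∀ b, (ξ, b) ∉ d.1),
        w = (Set.Iio i, Pool.Agent.Ladder.opB bk i z.2 h hD)}.Countable := by
      intro z i d
      apply Set.Subsingleton.countable
      rintro w ⟨h, hD, rfl⟩ w' ⟨h', hD', rfl⟩
      rfl
    refine (x.cY.biUnion fun z _ => x.cN.biUnion fun i _ => hdata.biUnion fun d _ => hs z i d).mono ?_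
    rintro w ⟨z, hz, i, hi, _, d, hd, h⟩
    exact Set.mem_biUnion hz (Set.mem_biUnion hi (Set.mem_biUnion hd h))
  let N1 : Set K := ⋃ z ∈ x.Y, ⋃ a ∈ supp bk z.1 z.2, (coords a : Set K)
  have hN1 : N1.Countable := x.cY.biUnion fun z _ => (supp_countable z.1 z.2).biUnion
    fun a _ => (coords a).countable_toSet
  -- the ordinal
  have hbel : ∀ a : Cd K C, ∃ ζ, Below ζ a := by
    intro a
    obtain ⟨ζ, hζ⟩ := exists_gt_of_countable (s := ((a.s.image (fun x => x.1.1) ∪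
      a.u.image (fun x => x.2.1) ∪ a.w.image (fun x => x.2) : Finset W) : Set W))
      (Finset.countable_toSet _)
    refine ⟨ζ, fun y k h => hζ _ ?_, fun i ξ b h => hζ _ ?_, fun i α h => hζ _ ?_⟩
    · exact Finset.mem_coe.2 (Finset.mem_union_left _ (Finset.mem_union_left _
        (Finset.mem_image.2 ⟨_, h, rfl⟩)))
    · exact Finset.mem_coe.2 (Finset.mem_union_left _ (Finset.mem_union_right _
        (Finset.mem_image.2 ⟨_, h, rfl⟩)))
    · exact Finset.mem_coe.2 (Finset.mem_union_right _ (Finset.mem_image.2 ⟨_, h, rfl⟩))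
  choose ζ hζ using hbel
  have hord : ((⋃ z ∈ x.Y, ζ '' supp bk z.1 z.2) ∪ {x.γ}).Countable :=
    (x.cY.biUnion fun z _ => (supp_countable z.1 z.2).image ζ).union (Set.countable_singleton _)
  obtain ⟨γ', hγ'⟩ := exists_gt_of_countable hord
  have hlow : ∀ z ∈ x.Y ∪ (Y1 ∪ (Y2 ∪ Y3)), Low z.1 := by
    rintro z (hz | ⟨t, _, rfl⟩ | ⟨z', _, i, _, _, rfl⟩ | ⟨z', _, i, _, _, d, _, h, hD, rfl⟩)
    · exact x.low z hz
    · exact low_univ
    · exact low_Iic i
    · exact low_Iio i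
  have hnn : ∀ z ∈ x.Y ∪ (Y1 ∪ (Y2 ∪ Y3)), NN bk z.1 z.2 := by
    rintro z (hz | ⟨t, _, rfl⟩ | ⟨z', hz', i, _, hi, rfl⟩ | ⟨z', hz', i, _, hi, d, _, h, hD, rfl⟩)
    · exact x.nn z hz
    · exact hnm t
    · exact opA_nn (x.low z' hz') (x.nn z' hz') hi
    · have h1 := x.nn z' hz'
      rw [hi] at h1
      exact opB_nn h1 h hD
  refine ⟨⟨x.Y ∪ (Y1 ∪ (Y2 ∪ Y3)), x.N ∪ N1, γ', x.cY.union (hY1.union (hY2.union hY3)),
    x.cN.union hN1, hlow, hnn⟩, ?_⟩
  refine ⟨Set.subset_union_left, Set.subset_union_left, hγ' _ (Or.inr rfl), ?_, ?_, ?_, ?_, ?_⟩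
  · intro t ht
    exact Or.inr (Or.inl ⟨t, ht, rfl⟩)
  · intro z hz i hi hiz
    exact Or.inr (Or.inr (Or.inl ⟨z, hz, i, hi, hiz, rfl⟩))
  · intro i y hy hi U V D h hD hU hV hD'
    exact Or.inr (Or.inr (Or.inr ⟨_, hy, i, hi, rfl, (U, V, D),
      ⟨fun v hv => hU v hv, fun v hv => hV v hv, fun v hv => hD' v hv⟩, h, hD, rfl⟩))
  · intro z hz a ha i hi
    exact Or.inr (Set.mem_biUnion hz (Set.mem_biUnion ha (Finset.mem_coe.2 hi)))
  · intro z hz a ha
    have h1 : ζ a < γ' := hγ' _ (Or.inl (Set.mem_biUnion hz ⟨a, ha, rfl⟩))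
    obtain ⟨h2, h3, h4⟩ := hζ a
    exact ⟨fun y k h => (h2 y k h).trans h1, fun i ξ b h => (h3 i ξ b h).trans h1,
      fun i α h => (h4 i α h).trans h1⟩

/-- Closed families exist. -/
theorem exists_closed {T : Type} (lev : T → W) (hlev : ∀ γ, {t | lev t < γ}.Countable)
    (nm : T → ℕ → Set (Cd K C)) (hnm : ∀ t, NN bk Set.univ (nm t)) :
    ∃ (𝒴 : Set (Set K × (ℕ → Set (Cd K C)))) (N : Set K) (δ : W), IsLim δ ∧
      Closed bk 𝒴 N δ ∧ ∀ t, lev t < δ → (Set.univ, nm t) ∈ 𝒴 := by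
  classical
  choose f hf using exists_next (bk := bk) lev hlev nm hnm
  let x0 : App bk := ⟨∅, ∅, Classical.arbitrary W, Set.countable_empty, Set.countable_empty,
    fun z hz => hz.elim, fun z hz => hz.elim⟩
  let x : ℕ → App bk := fun n => Nat.rec x0 (fun _ y => f y) n
  have hx : ∀ n, Next lev nm (x n) (x (n + 1)) := fun n => hf (x n)
  have hY : ∀ n m, n ≤ m → (x n).Y ⊆ (x m).Y := by
    intro n m h
    induction m, h using Nat.le_induction with
    | base => exact subset_rfl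
    | succ m _ ih => exact ih.trans (hx m).sub
  have hN : ∀ n m, n ≤ m → (x n).N ⊆ (x m).N := by
    intro n m h
    induction m, h using Nat.le_induction with
    | base => exact subset_rfl
    | succ m _ ih => exact ih.trans (hx m).subN
  have hγ : ∀ n m, n ≤ m → (x n).γ ≤ (x m).γ := by
    intro n m h
    induction m, h using Nat.le_induction with
    | base => exact le_rfl
    | succ m _ ih => exact ih.trans (hx m).lt.le
  obtain ⟨δ, hδ, hlt, hcof⟩ := exists_sup_seq (fun n => (x n).γ) fun n => (hx n).lt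
  refine ⟨⋃ n, (x n).Y, ⋃ n, (x n).N, δ, hδ, ?_, ?_⟩
  · refine ⟨?_, ?_, ?_, ?_, ?_, ?_⟩
    · intro z hz
      obtain ⟨n, hn⟩ := Set.mem_iUnion.1 hz
      exact (x n).low z hn
    · intro z hz
      obtain ⟨n, hn⟩ := Set.mem_iUnion.1 hz
      exact (x n).nn z hn
    · intro z hz a ha i hi
      obtain ⟨n, hn⟩ := Set.mem_iUnion.1 hz
      exact Set.mem_iUnion.2 ⟨n + 1, (hx n).crd z hn a ha i hi⟩
    · intro z hz
      obtain ⟨n, hn⟩ := Set.mem_iUnion.1 hz
      exact ⟨(x (n + 1)).γ, hlt (n + 1), fun a ha => (hx n).bdd z hn a ha⟩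
    · intro z hz i hi hiz
      obtain ⟨n, hn⟩ := Set.mem_iUnion.1 hz
      obtain ⟨m, hm⟩ := Set.mem_iUnion.1 hi
      exact Set.mem_iUnion.2 ⟨max n m + 1, (hx (max n m)).opA z (hY _ _ (le_max_left _ _) hn) i
        (hN _ _ (le_max_right _ _) hm) hiz⟩
    · intro i y hy hi U V D h hD hU hV hD'
      obtain ⟨n, hn⟩ := Set.mem_iUnion.1 hy
      obtain ⟨m, hm⟩ := Set.mem_iUnion.1 hi
      obtain ⟨k, hk⟩ := exists_seq_bound hγ hcof (U.image Prod.fst ∪ V ∪ D) (by
        intro u hu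
        rw [Finset.mem_union, Finset.mem_union, Finset.mem_image] at hu
        rcases hu with (⟨v, hv, rfl⟩ | hu) | hu
        · exact hU v hv
        · exact hV u hu
        · exact hD' u hu)
      let l := max (max n m) k
      have hkl : (x k).γ ≤ (x l).γ := hγ _ _ (le_max_right _ _)
      refine Set.mem_iUnion.2 ⟨l + 1, (hx l).opB i y
        (hY _ _ ((le_max_left _ _).trans (le_max_left _ _)) hn)
        (hN _ _ ((le_max_right _ _).trans (le_max_left _ _)) hm) U V D h hD ?_ ?_ ?_⟩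
      · intro u hu
        exact lt_of_lt_of_le (hk _ (Finset.mem_union_left _ (Finset.mem_union_left _
          (Finset.mem_image_of_mem _ hu)))) hkl
      · intro u hu
        exact lt_of_lt_of_le (hk _ (Finset.mem_union_left _ (Finset.mem_union_right _ hu))) hkl
      · intro u hu
        exact lt_of_lt_of_le (hk _ (Finset.mem_union_right _ hu)) hkl
  · intro t ht
    obtain ⟨n, hn⟩ := hcof (lev t) ht
    exact Set.mem_iUnion.2 ⟨n + 1, (hx n).base t hn⟩

/-! ### The Cohen colouring -/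

variable (bk) in
/-- The name of the Cohen-generic `ω`-colouring. -/
noncomputable def cohenColor : BFun (RO (Po bk)) (W × ℕ) ℕ where
  val x k := RO.mk' (P := Po bk) (fun p => (x, k) ∈ (p : Cd K C).s) (fun p q h hle => hle.1 h)
  disj := by
    intro x k k' hne
    refine RO.eq_bot_iff'.2 fun p hp => ?_
    obtain ⟨h1, h2⟩ := hp
    obtain ⟨q, hq, hq1⟩ := RO.mem_mk'.1 h1 p le_rfl
    obtain ⟨r, hr, hr1⟩ := RO.mem_mk'.1 h2 q hq
    exact hne (Cd.sfn r _ _ _ (hr.1 hq1) hr1)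
  total := by
    classical
    intro x
    refine RO.eq_top_iff'.2 fun p => RO.mem_iSup.2 fun q _ => ?_
    by_cases h : ∃ k, (x, k) ∈ (q : Cd K C).s
    · obtain ⟨k, hk⟩ := h
      exact ⟨q, le_rfl, k, RO.mem_mk'_of (P := Po bk) hk⟩
    · push Not at h
      exact ⟨addS q x 0 h, addS_le _ _ _ _ _, 0,
        RO.mem_mk'_of (P := Po bk) (Finset.mem_insert_self _ _)⟩

theorem eq_of_mem_cohenColor {x : W × ℕ} {k v : ℕ} {p : Po bk}
    (h : p ∈ (cohenColor bk).val x k) (hv : (x, v) ∈ (p : Cd K C).s) : k = v := by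
  have h' : p ∈ RO.mk' (P := Po bk) (fun p => (x, k) ∈ (p : Cd K C).s)
    (fun p q h hle => hle.1 h) := h
  obtain ⟨r, hr, hr1⟩ := RO.mem_mk'.1 h' p le_rfl
  exact Cd.sfn r _ _ _ hr1 (hr.1 hv)

/-- The name for a natural number given by the value of `φ` at `t`. -/
def valName {T : Type} (φ : BFun (RO (Po bk)) T ℕ) (t : T) : ℕ → Set (Cd K C) :=
  fun k => {p | ∃ k', k' ≤ k ∧ Membership.mem (γ := RO (Po bk)) (φ.val t k') p}

theorem valName_nn {T : Type} (φ : BFun (RO (Po bk)) T ℕ) (t : T) :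
    NN bk Set.univ (valName φ t) := by
  refine ⟨?_, ?_, ?_⟩
  · rintro k p q ⟨k', hk', hp⟩ hqp
    exact ⟨k', hk', RO.mem_of_le (P := Po bk) hp hqp⟩
  · rintro k l hkl p ⟨k', hk', hp⟩
    exact ⟨k', hk'.trans hkl, hp⟩
  · have h0 : ∀ p : Po bk, ∃ q : Po bk, q ≤ p ∧ ∃ k, q ∈ φ.val t k := by
      intro p
      have h1 : p ∈ ⨆ k, φ.val t k := by
        rw [φ.total]; exact RO.mem_top
      exact RO.mem_iSup.1 h1 p le_rfl
    intro p
    obtain ⟨q, hq, k, hk⟩ := h0 p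
    exact ⟨q, hq, k, k, le_rfl, hk⟩

/-- **The Cohen colouring has no `T`-uniformization**, for any tree with countable levels. -/
theorem unifVal_Po_eq_bot (L : LadderSystem) {T : Type} [PartialOrder T] (tr : OTree T)
    (hc : ∀ ξ, {t | tr.ht t = ξ}.Countable) (S : T → RO (Po bk)) (φ : BFun (RO (Po bk)) T ℕ) :
    unifVal L tr (cohenColor bk) S φ = ⊥ := by
  classical
  refine RO.eq_bot_iff'.2 fun p hp => ?_
  have hsub : p ∈ subtreeVal tr S := hp.1
  have hun := hp.2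
  obtain ⟨𝒴, N, δ, hδ, hcl, hbase⟩ := exists_closed (bk := bk) tr.ht
    (fun γ => tr.countable_below hc γ) (valName φ) (valName_nn φ)
  obtain ⟨p1, hp1, t, ht, hS⟩ := exists_node_of_subtreeVal tr hsub δ
  have h1 := RO.mem_iInf.1 (RO.mem_iInf.1 hun t) (by rw [ht]; exact hδ)
  have h2 := RO.mem_himp.1 h1 p1 hp1 hS
  obtain ⟨p2, hp2, N0, hN0⟩ := RO.mem_iSup.1 h2 p1 le_rfl
  obtain ⟨p3, hp3, hfull⟩ := exists_full (bk := bk) p2 δ
  -- a number `n0 ≥ N0` such that the value at `(δ, n0)` is not decided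
  obtain ⟨n0, hn0, hfree⟩ : ∃ n0, N0 ≤ n0 ∧ ∀ k, ((δ, n0), k) ∉ p3.s := by
    have hfin : {n | ∃ k, ((δ, n), k) ∈ p3.s}.Finite := by
      refine ((p3.s.image (fun x => x.1.2)).finite_toSet).subset ?_
      rintro n ⟨k, hk⟩
      exact Finset.mem_coe.2 (Finset.mem_image.2 ⟨_, hk, rfl⟩)
    obtain ⟨M, hM⟩ := hfin.bddAbove
    refine ⟨max N0 (M + 1), le_max_left _ _, fun k hk => ?_⟩
    have := hM ⟨k, hk⟩
    have h3 := le_max_right N0 (M + 1)
    omega
  let ξ : W := L.c δ n0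
  have hξ : ξ < δ := L.lt δ hδ n0
  have hht : tr.ht (tr.res t ξ) = ξ := tr.ht_res (by rw [ht]; exact hξ.le)
  have hy : (Set.univ, valName φ (tr.res t ξ)) ∈ 𝒴 := hbase _ (by rw [hht]; exact hξ)
  obtain ⟨Kb, hKb⟩ := main_claim hδ hcl p3 hfull n0 hfree _ Set.univ _ hy
    ⟨(coords p3).filter (fun i => i ∈ N), rfl, fun i => by
      rw [Finset.mem_filter]; simp⟩
  obtain ⟨q, hq, k', hk', hqk⟩ := hKb (Kb + 1)
  have hq3 : LE' bk Set.univ q p3 := LE'.trans low_univ hq (addS_le _ _ _ _ _)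
  have hq2 : LE' bk Set.univ q p2 := LE'.trans low_univ hq3 hp3
  have h3 := RO.mem_iInf.1 (RO.mem_iInf.1 hN0 n0) hn0
  simp only [ht] at h3
  have h4 := RO.mem_iSup.1 h3 q hq2
  obtain ⟨r, hr, k, hk⟩ := h4
  have hrs : ((δ, n0), Kb + 1) ∈ (r : Cd K C).s := hr.1 (hq.1 (Finset.mem_insert_self _ _))
  have e1 : k = Kb + 1 := eq_of_mem_cohenColor hk.2 hrs
  have hne : k ≠ k' := by omega
  have h5 : r ∈ φ.val (tr.res t ξ) k ⊓ φ.val (tr.res t ξ) k' := ⟨hk.1, RO.mem_of_le hqk hr⟩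
  rw [φ.disj _ _ _ hne] at h5
  exact RO.mem_bot h5

theorem unifOmegaVal_Po (L : LadderSystem) {T : Type} [PartialOrder T] (tr : OTree T)
    (hc : ∀ ξ, {t | tr.ht t = ξ}.Countable) : unifOmegaVal (RO (Po bk)) L tr = ⊥ := by
  rw [eq_bot_iff]
  refine (iInf_le _ (cohenColor bk)).trans ?_
  refine iSup_le fun S => iSup_le fun φ => ?_
  rw [unifVal_Po_eq_bot L tr hc S φ]

end

end Pool.Agent.Ladder
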