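import Pool.Agent.Lib.MP_62a69e_lc.FSOrd

/-! # The Knaster property of the iteration -/

set_option autoImplicit false
set_option linter.unusedSectionVars false

namespace Pool.Agent.Ladder

/-! ### Combinatorial lemmas -/

theorem exists_uncountable_pairwise {ι : Type} (E : Set ι) (r : ι → ι → Prop)
    (hs : ∀ a b, r a b → r b a)
    (h : ∀ M ⊆ E, M.Countable → ∃ a ∈ E, a ∉ M ∧ ∀ m ∈ M, r a m) :
    ∃ M ⊆ E, ¬ M.Countable ∧ ∀ a ∈ M, ∀ b ∈ M, a ≠ b → r a b := by
  classical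
  obtain ⟨M, hM⟩ := zorn_subset {M : Set ι | M ⊆ E ∧ ∀ a ∈ M, ∀ b ∈ M, a ≠ b → r a b} (by
    intro c hc hchain
    refine ⟨⋃₀ c, ⟨Set.sUnion_subset fun s hs => (hc hs).1, ?_⟩, fun s hs =>
      Set.subset_sUnion_of_mem hs⟩
    rintro a ⟨s, hs, has⟩ b ⟨t, ht, hbt⟩ hab
    rcases hchain.total hs ht with hst | hts
    · exact (hc ht).2 a (hst has) b hbt hab
    · exact (hc hs).2 a has b (hts hbt) hab)
  refine ⟨M, hM.prop.1, fun hcount => ?_, hM.prop.2⟩
  obtain ⟨a, haE, haM, har⟩ := h M hM.prop.1 hcount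
  have hins : insert a M ∈ {M : Set ι | M ⊆ E ∧ ∀ a ∈ M, ∀ b ∈ M, a ≠ b → r a b} := by
    refine ⟨Set.insert_subset haE hM.prop.1, ?_⟩
    rintro x (rfl | hx) y (rfl | hy) hxy
    · exact (hxy rfl).elim
    · exact har y hy
    · exact hs _ _ (har x hx)
    · exact hM.prop.2 x hx y hy hxy
  exact haM (hM.le_of_ge hins (Set.subset_insert _ _) (Set.mem_insert _ _))

theorem delta_aux {ι X : Type} [DecidableEq X] (n : ℕ) : ∀ (E : Set ι), ¬ E.Countable →
    ∀ F : ι → Finset X, (∀ a ∈ E, (F a).card = n) →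
    ∃ E' ⊆ E, ¬ E'.Countable ∧ ∃ R : Finset X, ∀ a ∈ E', ∀ b ∈ E', a ≠ b → F a ∩ F b = R := by
  classical
  induction n with
  | zero =>
    intro E hE F hF
    refine ⟨E, subset_rfl, hE, ∅, fun a ha b _ _ => ?_⟩
    rw [Finset.card_eq_zero.1 (hF a ha)]
    simp
  | succ n ih =>
    intro E hE F hF
    by_cases hx : ∃ x, ¬ {a | a ∈ E ∧ x ∈ F a}.Countable
    · obtain ⟨x, hx⟩ := hx
      obtain ⟨E', hE', hunc, R, hR⟩ := ih {a | a ∈ E ∧ x ∈ F a} hx (fun a => (F a).erase x) (by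
        intro a ha
        rw [Finset.card_erase_of_mem ha.2, hF a ha.1]
        rfl)
      refine ⟨E', fun a ha => (hE' ha).1, hunc, insert x R, fun a ha b hb hab => ?_⟩
      rw [← hR a ha b hb hab]
      ext y
      simp only [Finset.mem_inter, Finset.mem_insert, Finset.mem_erase]
      by_cases hy : y = x
      · subst hy
        simp [(hE' ha).2, (hE' hb).2]
      · simp [hy]
    · push Not at hx
      obtain ⟨M, hME, hM, hpw⟩ := exists_uncountable_pairwise E (fun a b => F a ∩ F b = ∅)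
        (fun a b h => by rw [Finset.inter_comm]; exact h) (by
          intro M hME hM
          by_contra hcon
          push Not at hcon
          apply hE
          have hX0 : (⋃ m ∈ M, (F m : Set X)).Countable :=
            hM.biUnion fun m _ => (F m).countable_toSet
          refine (hM.union (hX0.biUnion fun x _ => hx x)).mono ?_
          intro a ha
          by_cases haM : a ∈ M
          · exact Or.inl haM
          · right
            obtain ⟨m, hm, hne⟩ := hcon a ha haM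
            obtain ⟨y, hy⟩ := hne
            rw [Finset.mem_inter] at hy
            exact Set.mem_biUnion (x := y) (Set.mem_biUnion hm hy.2) ⟨ha, hy.1⟩)
      exact ⟨M, hME, hM, ∅, hpw⟩

theorem exists_uncountable_fiber {ι Y : Type} [Countable Y] {E : Set ι} (hE : ¬ E.Countable)
    (f : ι → Y) : ∃ y, ¬ {a | a ∈ E ∧ f a = y}.Countable := by
  by_contra h
  push Not at h
  apply hE
  refine (Set.countable_iUnion h).mono fun a ha => ?_
  exact Set.mem_iUnion.2 ⟨f a, ha, rfl⟩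

/-- The Δ-system lemma. -/
theorem delta_system {ι X : Type} [DecidableEq X] {E : Set ι} (hE : ¬ E.Countable)
    (F : ι → Finset X) :
    ∃ E' ⊆ E, ¬ E'.Countable ∧ ∃ R : Finset X, ∀ a ∈ E', ∀ b ∈ E', a ≠ b → F a ∩ F b = R := by
  obtain ⟨n, hn⟩ := exists_uncountable_fiber hE (fun a => (F a).card)
  obtain ⟨E', h1, h2, h3⟩ := delta_aux n _ hn F fun a ha => ha.2
  exact ⟨E', fun a ha => (h1 ha).1, h2, h3⟩

/-- Pressing down. -/
theorem press_uncountable {Z : Type} (Zs : Set Z) (lev : Z → W)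
    (hc : ∀ ξ, {z | z ∈ Zs ∧ lev z ≤ ξ}.Countable)
    (g : W → Z) (hg : ∀ ν, IsLim ν → g ν ∈ Zs ∧ lev (g ν) < ν) :
    ∃ z, ¬ {ν | IsLim ν ∧ g ν = z}.Countable := by
  classical
  by_contra hcon
  push Not at hcon
  have hcount : ∀ ξ : W, {ν | IsLim ν ∧ lev (g ν) ≤ ξ}.Countable := by
    intro ξ
    refine ((hc ξ).biUnion fun z _ => hcon z).mono ?_
    intro ν hν
    exact Set.mem_biUnion (x := g ν) ⟨(hg ν hν.1).1, hν.2⟩ ⟨hν.1, rfl⟩
  choose γ hγ using fun ξ => exists_gt_of_countable (hcount ξ)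
  obtain ⟨δ, -, hδ, hcl⟩ := exists_closure_point γ (Classical.arbitrary W)
  have h1 := (hg δ hδ).2
  have h2 := hcl _ h1
  have h3 := hγ (lev (g δ)) δ ⟨hδ, le_rfl⟩
  exact absurd h3 (not_lt.2 h2.le)

/-- Injective choice along `ω₁`. -/
theorem exists_injective_choice (P : W → W → Prop)
    (h : ∀ ν, ∀ Z : Set W, Z.Countable → ∃ a, a ∉ Z ∧ P ν a) :
    ∃ a : W → W, Function.Injective a ∧ ∀ ν, P ν (a ν) := by
  classical
  let stepF : (ν : W) → ((μ : W) → μ < ν → W) → W := fun ν rec =>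
    if hh : ∃ a, a ∉ Set.range (fun μ : Set.Iio ν => rec μ.1 μ.2) ∧ P ν a then hh.choose
    else ν
  let a : W → W := (wellFounded_lt (α := W)).fix stepF
  have ha : ∀ ν, a ν = stepF ν (fun μ _ => a μ) := fun ν =>
    (wellFounded_lt (α := W)).fix_eq stepF ν
  have hP : ∀ ν, (a ν ∉ Set.range (fun μ : Set.Iio ν => a μ.1)) ∧ P ν (a ν) := by
    intro ν
    have hcount : (Set.range (fun μ : Set.Iio ν => a μ.1)).Countable := by
      have : Countable (Set.Iio ν) := (countable_Iio ν).to_subtype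
      exact Set.countable_range _
    have hh := h ν _ hcount
    have h3 : a ν = hh.choose := by
      rw [ha ν]
      exact dif_pos hh
    rw [h3]
    exact hh.choose_spec
  refine ⟨a, ?_, fun ν => (hP ν).2⟩
  intro μ ν hμν
  rcases lt_trichotomy μ ν with h1 | h1 | h1
  · exact ((hP ν).1 ⟨⟨μ, h1⟩, hμν⟩).elim
  · exact h1
  · exact ((hP μ).1 ⟨⟨ν, h1⟩, hμν.symm⟩).elim

/-! ### Coordinates -/

section
variable {K : Type} {C : K → LadderSystem} [LinearOrder K] [WellFoundedLT K] {bk : K → Code K C}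

open Classical in
/-- The function part of coordinate `i`. -/
noncomputable def uAt (p : Cd K C) (i : K) : Finset (W × Bool) :=
  (p.u.filter (fun x => x.1 = i)).image Prod.snd

open Classical in
/-- The promise part of coordinate `i`. -/
noncomputable def wAt (p : Cd K C) (i : K) : Finset W :=
  (p.w.filter (fun x => x.1 = i)).image Prod.snd

theorem mem_uAt {p : Cd K C} {i : K} {x : W × Bool} : x ∈ uAt p i ↔ (i, x.1, x.2) ∈ p.u := by
  unfold uAt
  rw [Finset.mem_image]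
  constructor
  · rintro ⟨⟨j, y⟩, hy, rfl⟩
    obtain ⟨h1, h2⟩ := Finset.mem_filter.1 hy
    have h3 : j = i := h2
    rw [← h3]
    exact h1
  · intro h
    exact ⟨(i, x.1, x.2), Finset.mem_filter.2 ⟨h, rfl⟩, rfl⟩

theorem mem_wAt {p : Cd K C} {i : K} {α : W} : α ∈ wAt p i ↔ (i, α) ∈ p.w := by
  unfold wAt
  rw [Finset.mem_image]
  constructor
  · rintro ⟨⟨j, y⟩, hy, rfl⟩
    obtain ⟨h1, h2⟩ := Finset.mem_filter.1 hy
    have h3 : j = i := h2
    rw [← h3]
    exact h1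
  · intro h
    exact ⟨(i, α), Finset.mem_filter.2 ⟨h, rfl⟩, rfl⟩

open Classical in
/-- The coordinates mentioned in `p`. -/
noncomputable def coords (p : Cd K C) : Finset K := p.u.image Prod.fst ∪ p.w.image Prod.fst

theorem mem_coords_u {p : Cd K C} {i : K} {ξ : W} {b : Bool} (h : (i, ξ, b) ∈ p.u) :
    i ∈ coords p := Finset.mem_union_left _ (Finset.mem_image.2 ⟨_, h, rfl⟩)

theorem mem_coords_w {p : Cd K C} {i : K} {α : W} (h : (i, α) ∈ p.w) :
    i ∈ coords p := Finset.mem_union_right _ (Finset.mem_image.2 ⟨_, h, rfl⟩)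

/-- Validity of a single coordinate. -/
def Valid (C : LadderSystem) (U : Finset (W × Bool)) (V : Finset W) : Prop :=
  (∀ ξ b b', (ξ, b) ∈ U → (ξ, b') ∈ U → b = b') ∧ (∀ α ∈ V, IsLim α) ∧
  ∀ α ∈ V, ∀ β ∈ V, α ≠ β → ∀ n m, C.c α n = C.c β m → ∃ b, (C.c α n, b) ∈ U

open Classical in
/-- `r` below `i`, the coordinate `(U, V)` at `i`, nothing above. -/
noncomputable def mkTop (r : Cd K C) (i : K) (U : Finset (W × Bool)) (V : Finset W)
    (h : Valid (C i) U V) : Cd K C where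
  s := r.s
  u := r.u.filter (fun x => x.1 < i) ∪ U.image (fun x => (i, x.1, x.2))
  w := r.w.filter (fun x => x.1 < i) ∪ V.image (fun α => (i, α))
  sfn := r.sfn
  ufn := by
    intro j ξ b b' h1 h2
    simp only [Finset.mem_union, Finset.mem_filter, Finset.mem_image, Prod.mk.injEq,
      Prod.exists] at h1 h2
    rcases h1 with h1 | ⟨x, c, h1, rfl, rfl, rfl⟩ <;>
      rcases h2 with h2 | ⟨x', c', h2, h3, rfl, rfl⟩
    · exact r.ufn _ _ _ _ h1.1 h2.1
    · rw [← h3] at h1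
      exact absurd h1.2 (lt_irrefl _)
    · exact absurd h2.2 (lt_irrefl _)
    · exact h.1 _ _ _ h1 h2
  lim := by
    intro j α h1
    simp only [Finset.mem_union, Finset.mem_filter, Finset.mem_image, Prod.mk.injEq] at h1
    rcases h1 with h1 | ⟨x, h1, rfl, rfl⟩
    · exact r.lim _ _ h1.1
    · exact h.2.1 _ h1
  inter := by
    intro j α β h1 h2 hne n m hnm
    simp only [Finset.mem_union, Finset.mem_filter, Finset.mem_image, Prod.mk.injEq,
      Prod.exists] at h1 h2 ⊢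
    rcases h1 with h1 | ⟨x, h1, rfl, rfl⟩ <;> rcases h2 with h2 | ⟨x', h2, h3, rfl⟩
    · obtain ⟨b, hb⟩ := r.inter j α β h1.1 h2.1 hne n m hnm
      exact ⟨b, Or.inl ⟨hb, h1.2⟩⟩
    · rw [← h3] at h1
      exact absurd h1.2 (lt_irrefl _)
    · exact absurd h2.2 (lt_irrefl _)
    · obtain ⟨b, hb⟩ := h.2.2 _ h1 _ h2 hne n m hnm
      exact ⟨b, Or.inr ⟨_, _, hb, rfl, rfl, rfl⟩⟩

theorem mkTop_u_lt {r : Cd K C} {i j : K} {U : Finset (W × Bool)} {V : Finset W}
    {h : Valid (C i) U V} (hj : j < i) (ξ : W) (b : Bool) :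
    (j, ξ, b) ∈ (mkTop r i U V h).u ↔ (j, ξ, b) ∈ r.u := by
  simp only [mkTop, Finset.mem_union, Finset.mem_filter, hj, and_true, Finset.mem_image,
    Prod.mk.injEq, Prod.exists]
  constructor
  · rintro (h1 | ⟨_, _, _, h2, _⟩)
    · exact h1
    · exact absurd h2 (ne_of_gt hj)
  · exact Or.inl

theorem mkTop_w_lt {r : Cd K C} {i j : K} {U : Finset (W × Bool)} {V : Finset W}
    {h : Valid (C i) U V} (hj : j < i) (α : W) :
    (j, α) ∈ (mkTop r i U V h).w ↔ (j, α) ∈ r.w := by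
  simp only [mkTop, Finset.mem_union, Finset.mem_filter, hj, and_true, Finset.mem_image,
    Prod.mk.injEq]
  constructor
  · rintro (h1 | ⟨_, _, h2, _⟩)
    · exact h1
    · exact absurd h2 (ne_of_gt hj)
  · exact Or.inl

theorem mkTop_u_eq {r : Cd K C} {i : K} {U : Finset (W × Bool)} {V : Finset W}
    {h : Valid (C i) U V} (ξ : W) (b : Bool) :
    (i, ξ, b) ∈ (mkTop r i U V h).u ↔ (ξ, b) ∈ U := by
  simp only [mkTop, Finset.mem_union, Finset.mem_filter, lt_irrefl, and_false, false_or,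
    Finset.mem_image, Prod.mk.injEq, Prod.exists, true_and]
  constructor
  · rintro ⟨x, c, h1, rfl, rfl⟩
    exact h1
  · intro h1
    exact ⟨_, _, h1, rfl, rfl⟩

theorem mkTop_w_eq {r : Cd K C} {i : K} {U : Finset (W × Bool)} {V : Finset W}
    {h : Valid (C i) U V} (α : W) :
    (i, α) ∈ (mkTop r i U V h).w ↔ α ∈ V := by
  simp only [mkTop, Finset.mem_union, Finset.mem_filter, lt_irrefl, and_false, false_or,
    Finset.mem_image, Prod.mk.injEq, true_and]
  constructor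
  · rintro ⟨x, h1, rfl⟩
    exact h1
  · intro h1
    exact ⟨_, h1, rfl⟩

theorem mkTop_agree {r : Cd K C} {i : K} {U : Finset (W × Bool)} {V : Finset W}
    {h : Valid (C i) U V} : Agree (Set.Iio i) (mkTop r i U V h) r :=
  ⟨rfl, fun _ hj => ⟨fun ξ b => mkTop_u_lt hj ξ b, fun α => mkTop_w_lt hj α⟩⟩

theorem mkTop_le {r p : Cd K C} {i : K} {U : Finset (W × Bool)} {V : Finset W}
    {h : Valid (C i) U V} (hr : LE' bk (Set.Iio i) r p)
    (hu : ∀ ξ b, (i, ξ, b) ∈ p.u → (ξ, b) ∈ U) (hw : ∀ α, (i, α) ∈ p.w → α ∈ V)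
    (hd : ∀ α, (i, α) ∈ p.w → ∀ n b, ((C i).c α n, b) ∈ U →
      (i, (C i).c α n, b) ∈ p.u ∨ Dec (ordF bk i) (bk i) r α n b) :
    LE' bk (Set.Iic i) (mkTop r i U V h) p := by
  refine ⟨hr.1, fun j hj => ?_⟩
  rcases lt_or_eq_of_le hj with hj | rfl
  · refine (hr.2 j hj).congr ?_ (fun ξ b => mkTop_u_lt hj ξ b) (fun α => mkTop_w_lt hj α)
      (fun _ _ => Iff.rfl) (fun _ => Iff.rfl)
    exact mkTop_agree.le.mono (fun l hl => lt_trans hl hj)
  · refine ⟨fun ξ b hb => (mkTop_u_eq ξ b).2 (hu ξ b hb), fun α hα => (mkTop_w_eq α).2 (hw α hα),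
      fun α hα n b hb => ?_⟩
    rcases hd α hα n b ((mkTop_u_eq _ b).1 hb) with h1 | h1
    · exact Or.inl h1
    · right
      rw [ordF_eq] at h1 ⊢
      exact h1.mono (LE'.trans_Iio _) mkTop_agree.le

/-! ### The Knaster property -/

/-- Every uncountable family has an uncountable pairwise compatible subfamily. -/
def Kn (R : Cd K C → Cd K C → Prop) : Prop :=
  ∀ (E : Set W), ¬ E.Countable → ∀ p : W → Cd K C,
    ∃ E' ⊆ E, ¬ E'.Countable ∧ ∀ a ∈ E', ∀ b ∈ E', a ≠ b → ∃ r, R r (p a) ∧ R r (p b)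

theorem kn_empty : Kn (LE' bk ∅) := by
  classical
  intro E hE p
  obtain ⟨E1, hE1, hunc1, R, hR⟩ := delta_system hE (fun a => (p a).s.image Prod.fst)
  obtain ⟨y, hy⟩ := exists_uncountable_fiber (Y := Finset (ℕ)) hunc1 (fun _ => ∅)
  -- the restriction to the root takes countably many values
  have hcnt : {t : Finset ((W × ℕ) × ℕ) | ∀ x ∈ t, x ∈ {x : (W × ℕ) × ℕ | x.1 ∈ R}}.Countable := by
    have h1 : {x : (W × ℕ) × ℕ | x.1 ∈ R}.Countable := by
      have : {x : (W × ℕ) × ℕ | x.1 ∈ R} = (R : Set (W × ℕ)) ×ˢ (Set.univ : Set ℕ) := by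
        ext x; simp
      rw [this]
      exact R.countable_toSet.prod Set.countable_univ
    have h := Set.countable_ofPred_finite_subset h1
    refine Set.MapsTo.countable_of_injOn (f := fun u : Finset ((W × ℕ) × ℕ) => (u : Set _)) ?_
      (Finset.coe_injective.injOn) h
    intro u hu
    exact ⟨u.finite_toSet, fun x hx => hu x hx⟩
  have hcnt' : Countable {t : Finset ((W × ℕ) × ℕ) | ∀ x ∈ t, x ∈ {x : (W × ℕ) × ℕ | x.1 ∈ R}} :=
    hcnt.to_subtype
  obtain ⟨t, ht⟩ := exists_uncountable_fiber hunc1 (fun a =>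
    (⟨(p a).s.filter (fun x => x.1 ∈ R), fun x hx => (Finset.mem_filter.1 hx).2⟩ :
      {t : Finset ((W × ℕ) × ℕ) | ∀ x ∈ t, x ∈ {x : (W × ℕ) × ℕ | x.1 ∈ R}}))
  refine ⟨_, fun a ha => hE1 ha.1, ht, fun a ha b hb hab => ?_⟩
  have heq : (p a).s.filter (fun x => x.1 ∈ R) = (p b).s.filter (fun x => x.1 ∈ R) :=
    congrArg Subtype.val (ha.2.trans hb.2.symm)
  have hfn : ∀ x k k', (x, k) ∈ (p a).s → (x, k') ∈ (p b).s → k = k' := by
    intro x k k' h1 h2
    have hx : x ∈ R := by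
      rw [← hR a ha.1 b hb.1 hab]
      exact Finset.mem_inter.2 ⟨Finset.mem_image.2 ⟨_, h1, rfl⟩, Finset.mem_image.2 ⟨_, h2, rfl⟩⟩
    have h3 : (x, k) ∈ (p b).s.filter (fun x => x.1 ∈ R) := by
      rw [← heq]; exact Finset.mem_filter.2 ⟨h1, hx⟩
    exact (p b).sfn _ _ _ (Finset.mem_filter.1 h3).1 h2
  refine ⟨⟨(p a).s ∪ (p b).s, ∅, ∅, ?_, by simp, by simp, by simp⟩,
    ⟨Finset.subset_union_left, by simp⟩, ⟨Finset.subset_union_right, by simp⟩⟩
  intro x k k' h1 h2
  rw [Finset.mem_union] at h1 h2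
  rcases h1 with h1 | h1 <;> rcases h2 with h2 | h2
  · exact (p a).sfn _ _ _ h1 h2
  · exact hfn _ _ _ h1 h2
  · exact (hfn _ _ _ h2 h1).symm
  · exact (p b).sfn _ _ _ h1 h2

/-- Two conditions that are compatible on a lower set `J` and have no common coordinate in
`I` outside `J` are compatible on `I`. -/
theorem compat_of_disjoint {I J : Set K} (hJ : Low J) {p q r : Cd K C}
    (h1 : LE' bk J r p) (h2 : LE' bk J r q)
    (hd : ∀ i ∈ I, i ∉ J → i ∈ coords p → i ∉ coords q) :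
    ∃ t, LE' bk I t p ∧ LE' bk I t q ∧ Agree J t r := by
  classical
  let m : Cd K C := glue (coords p : Set K) p q
  refine ⟨glue J r m, ⟨h1.1, fun i hi => ?_⟩, ⟨h2.1, fun i hi => ?_⟩, glue_agree J r m⟩
  · by_cases hiJ : i ∈ J
    · refine (h1.2 i hiJ).congr ((glue_agree J r m).le.mono (hJ.Iio_subset hiJ))
        (fun ξ b => glue_u_in hiJ ξ b) (fun α => glue_w_in hiJ α) (fun _ _ => Iff.rfl)
        (fun _ => Iff.rfl)
    · by_cases hip : i ∈ coords p
      · exact Step.of_eq (fun ξ b => (glue_u_out hiJ ξ b).trans (glue_u_in hip ξ b))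
          (fun α => (glue_w_out hiJ α).trans (glue_w_in hip α))
      · exact ⟨fun ξ b hb => (hip (mem_coords_u hb)).elim, fun α hα => (hip (mem_coords_w hα)).elim,
          fun α hα => (hip (mem_coords_w hα)).elim⟩
  · by_cases hiJ : i ∈ J
    · refine (h2.2 i hiJ).congr ((glue_agree J r m).le.mono (hJ.Iio_subset hiJ))
        (fun ξ b => glue_u_in hiJ ξ b) (fun α => glue_w_in hiJ α) (fun _ _ => Iff.rfl)
        (fun _ => Iff.rfl)
    · by_cases hip : i ∈ coords p
      · have hiq := hd i hi hiJ hip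
        exact ⟨fun ξ b hb => (hiq (mem_coords_u hb)).elim, fun α hα => (hiq (mem_coords_w hα)).elim,
          fun α hα => (hiq (mem_coords_w hα)).elim⟩
      · exact Step.of_eq (fun ξ b => (glue_u_out hiJ ξ b).trans (glue_u_out hip ξ b))
          (fun α => (glue_w_out hiJ α).trans (glue_w_out hip α))

theorem kn_limit {I : Set K} (hI : Low I) (h : ∀ j ∈ I, Kn (LE' bk (Set.Iic j))) :
    Kn (LE' bk I) := by
  classical
  intro E hE p
  obtain ⟨E1, hE1, hunc1, R, hR⟩ := delta_system hE (fun a => (coords (p a)).filter (· ∈ I))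
  have hRI : ∀ x ∈ R, x ∈ I := by
    have : ∃ a ∈ E1, ∃ b ∈ E1, a ≠ b := by
      by_contra hcon
      push Not at hcon
      apply hunc1
      rcases E1.eq_empty_or_nonempty with h0 | ⟨a, ha⟩
      · rw [h0]; exact Set.countable_empty
      · refine (Set.countable_singleton a).mono fun b hb => (hcon a ha b hb).symm
    obtain ⟨a, ha, b, hb, hab⟩ := this
    intro x hx
    rw [← hR a ha b hb hab] at hx
    exact (Finset.mem_filter.1 (Finset.mem_inter.1 hx).1).2
  obtain ⟨J, hJ, hJI, hRJ, hKn⟩ : ∃ J : Set K, Low J ∧ J ⊆ I ∧ (∀ x ∈ R, x ∈ J) ∧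
      Kn (LE' bk J) := by
    rcases R.eq_empty_or_nonempty with h0 | hne
    · exact ⟨∅, fun i hi => hi.elim, Set.empty_subset _, by rw [h0]; simp, kn_empty⟩
    · obtain ⟨j, hj, hmax⟩ := R.exists_max_image id hne
      refine ⟨Set.Iic j, low_Iic j, ?_, fun x hx => hmax x hx, h j (hRI j hj)⟩
      intro x hx
      rcases lt_or_eq_of_le hx with h1 | h1
      · exact hI j (hRI j hj) x h1
      · rw [h1]; exact hRI j hj
  obtain ⟨E2, hE2, hunc2, h2⟩ := hKn E1 hunc1 p
  refine ⟨E2, hE2.trans hE1, hunc2, fun a ha b hb hab => ?_⟩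
  obtain ⟨r, hra, hrb⟩ := h2 a ha b hb hab
  obtain ⟨t, ht1, ht2, _⟩ := compat_of_disjoint (I := I) hJ hra hrb (by
    intro i hi hiJ hia hib
    apply hiJ
    apply hRJ
    rw [← hR a (hE2 ha) b (hE2 hb) hab]
    exact Finset.mem_inter.2 ⟨Finset.mem_filter.2 ⟨hia, hi⟩, Finset.mem_filter.2 ⟨hib, hi⟩⟩)
  exact ⟨t, ht1, ht2⟩

theorem countable_data : ∀ ξ : W, {z : W × Finset (W × Bool) × Finset W |
    z ∈ {z : W × Finset (W × Bool) × Finset W | (∀ x ∈ z.2.1, x.1 < z.1) ∧ ∀ x ∈ z.2.2, x < z.1} ∧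
    z.1 ≤ ξ}.Countable := by
  intro ξ
  have h1 : {u : Finset (W × Bool) | ∀ x ∈ u, x ∈ {x : W × Bool | x.1 < ξ}}.Countable := by
    have h0 : {x : W × Bool | x.1 < ξ}.Countable := by
      have : {x : W × Bool | x.1 < ξ} = (Set.Iio ξ) ×ˢ (Set.univ : Set Bool) := by
        ext x; simp
      rw [this]
      exact (countable_Iio ξ).prod Set.countable_univ
    have h := Set.countable_ofPred_finite_subset h0
    refine Set.MapsTo.countable_of_injOn (f := fun u : Finset (W × Bool) => (u : Set _)) ?_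
      (Finset.coe_injective.injOn) h
    intro u hu
    exact ⟨u.finite_toSet, fun x hx => hu x hx⟩
  have h2 : {u : Finset W | ∀ x ∈ u, x ∈ Set.Iio ξ}.Countable := by
    have h := Set.countable_ofPred_finite_subset (countable_Iio ξ)
    refine Set.MapsTo.countable_of_injOn (f := fun u : Finset W => (u : Set _)) ?_
      (Finset.coe_injective.injOn) h
    intro u hu
    exact ⟨u.finite_toSet, fun x hx => hu x hx⟩
  refine ((countable_Iic ξ).prod (h1.prod h2)).mono ?_
  rintro ⟨a, u, w⟩ ⟨⟨hu, hw⟩, ha⟩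
  exact ⟨ha, fun x hx => lt_of_lt_of_le (hu x hx) ha, fun x hx => lt_of_lt_of_le (hw x hx) ha⟩

/-- finite sets below a limit ordinal are bounded below it -/
theorem exists_bound_below {δ : W} (hδ : IsLim δ) (s : Finset W) (h : ∀ x ∈ s, x < δ) :
    ∃ y, y < δ ∧ ∀ x ∈ s, x < y := by
  classical
  induction s using Finset.induction_on with
  | empty =>
    obtain ⟨y, hy⟩ := hδ.1
    exact ⟨y, hy, fun x hx => absurd hx (Finset.notMem_empty _)⟩
  | @insert a s _ ih =>
    obtain ⟨y, hy, hys⟩ := ih fun x hx => h x (Finset.mem_insert_of_mem hx)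
    obtain ⟨z, hz1, hz2⟩ := hδ.2 (max a y) (max_lt (h a (Finset.mem_insert_self _ _)) hy)
    refine ⟨z, hz2, fun x hx => ?_⟩
    rw [Finset.mem_insert] at hx
    rcases hx with rfl | hx
    · exact lt_of_le_of_lt (le_max_left _ _) hz1
    · exact lt_trans (lt_of_lt_of_le (hys x hx) (le_max_right _ _)) hz1

/-- points of a ladder below a smaller ordinal form a finite set -/
theorem finite_ladder_below' (C : LadderSystem) {α δ : W} (hα : IsLim α) (hδ : δ < α) :
    {ξ | ξ < δ ∧ ∃ n, C.c α n = ξ}.Finite := by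
  obtain ⟨N, hN⟩ := C.eventually_gt hα hδ
  refine ((Set.finite_Iio N).image (C.c α)).subset ?_
  rintro ξ ⟨h1, n, rfl⟩
  refine ⟨n, ?_, rfl⟩
  by_contra h
  exact absurd (hN n (not_lt.1 h)) (not_lt.2 h1.le)

/-- Coordinate `i` of `p` covers, below `δ`, the ladders of all promises above `δ`. -/
def FullAt (p : Cd K C) (δ : W) (i : K) : Prop :=
  ∀ α, (i, α) ∈ p.w → δ < α → ∀ n, (C i).c α n < δ → ∃ b, (i, (C i).c α n, b) ∈ p.u

theorem exists_full_at (p : Cd K C) (δ : W) (i : K) :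
    ∃ p', LE' bk Set.univ p' p ∧ FullAt p' δ i ∧ (∀ α, (i, α) ∈ p'.w ↔ (i, α) ∈ p.w) ∧
      (∀ j, i < j → (∀ η b, (j, η, b) ∈ p'.u ↔ (j, η, b) ∈ p.u) ∧
        ∀ α, (j, α) ∈ p'.w ↔ (j, α) ∈ p.w) := by
  classical
  have hfin : {ξ | ∃ α ∈ wAt p i, δ < α ∧ ξ < δ ∧ ∃ n, (C i).c α n = ξ}.Finite := by
    have : {ξ | ∃ α ∈ wAt p i, δ < α ∧ ξ < δ ∧ ∃ n, (C i).c α n = ξ} ⊆
        ⋃ α ∈ {α | α ∈ wAt p i ∧ δ < α}, {ξ | ξ < δ ∧ ∃ n, (C i).c α n = ξ} := by
      rintro ξ ⟨α, h1, h2, h3, h4⟩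
      exact Set.mem_biUnion (x := α) ⟨h1, h2⟩ ⟨h3, h4⟩
    refine Set.Finite.subset (Set.Finite.biUnion ((wAt p i).finite_toSet.subset fun α h => h.1) ?_)
      this
    intro α hα
    exact finite_ladder_below' (C i) (p.lim i α (mem_wAt.1 hα.1)) hα.2
  obtain ⟨p', h1, h2, _, h4, h5⟩ := exists_add_points (bk := bk) p i hfin.toFinset
  refine ⟨p', h1, fun α hα hδα n hn => ?_, h4, h5⟩
  exact h2 _ (hfin.mem_toFinset.2 ⟨α, mem_wAt.2 ((h4 α).1 hα), hδα, hn, n, rfl⟩)

theorem kn_top {i : K} (h : Kn (LE' bk (Set.Iio i))) : Kn (LE' bk (Set.Iic i)) := by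
  classical
  intro E hE p
  -- the exceptional ordinals
  let B : Set W := {ν | ∃ Z : Set W, Z.Countable ∧ ∀ a ∈ E, a ∉ Z → (i, ν) ∈ (p a).w}
  have hB : B.Finite := by
    by_contra hinf
    have hinf' : B.Infinite := hinf
    let e := hinf'.natEmbedding
    choose Z hZ1 hZ2 using fun n => (e n).2
    have hc : (⋃ n, Z n).Countable := Set.countable_iUnion hZ1
    obtain ⟨a, haE, haZ⟩ : ∃ a ∈ E, a ∉ ⋃ n, Z n := by
      by_contra hcon
      push Not at hcon
      exact hE (hc.mono hcon)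
    have hall : ∀ n, (e n).1 ∈ wAt (p a) i := fun n =>
      mem_wAt.2 (hZ2 n a haE fun h' => haZ (Set.mem_iUnion.2 ⟨n, h'⟩))
    have hfin : (Set.range fun n => (e n).1).Finite :=
      (wAt (p a) i).finite_toSet.subset (by rintro _ ⟨n, rfl⟩; exact hall n)
    exact Set.infinite_range_of_injective (fun x y h' => e.injective (Subtype.ext h')) hfin
  obtain ⟨a, hainj, haP⟩ := exists_injective_choice
    (fun ν a => a ∈ E ∧ (ν ∉ B → (i, ν) ∉ (p a).w)) (by
      intro ν Z hZ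
      by_cases hν : ν ∈ B
      · obtain ⟨x, hx, hxZ⟩ : ∃ x ∈ E, x ∉ Z := by
          by_contra hcon
          push Not at hcon
          exact hE (hZ.mono hcon)
        exact ⟨x, hxZ, hx, fun h' => (h' hν).elim⟩
      · by_contra hcon
        push Not at hcon
        apply hν
        refine ⟨Z, hZ, fun x hx hxZ => ?_⟩
        exact (hcon x hxZ hx).2)
  -- full extensions
  choose p' hp'le hp'full hp'w hp'up using fun ν => exists_full_at (bk := bk) (p (a ν)) ν i
  -- bounds of the parts below `ν`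
  have hbd : ∀ ν, ∃ y, IsLim ν → y < ν ∧ (∀ x ∈ uAt (p' ν) i, x.1 < ν → x.1 < y) ∧
      ∀ x ∈ wAt (p' ν) i, x < ν → x < y := by
    intro ν
    by_cases hν : IsLim ν
    · obtain ⟨y, hy, hys⟩ := exists_bound_below hν
        (((uAt (p' ν) i).image Prod.fst ∪ wAt (p' ν) i).filter (· < ν))
        (fun x hx => (Finset.mem_filter.1 hx).2)
      refine ⟨y, fun _ => ⟨hy, fun x hx hxν => hys _ ?_, fun x hx hxν => hys _ ?_⟩⟩
      · exact Finset.mem_filter.2 ⟨Finset.mem_union_left _ (Finset.mem_image_of_mem _ hx), hxν⟩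
      · exact Finset.mem_filter.2 ⟨Finset.mem_union_right _ hx, hxν⟩
    · exact ⟨ν, fun h' => (hν h').elim⟩
  choose y hy using hbd
  let g : W → W × Finset (W × Bool) × Finset W := fun ν =>
    (y ν, (uAt (p' ν) i).filter (fun x => x.1 < y ν), (wAt (p' ν) i).filter (fun x => x < y ν))
  have hgmem : ∀ ν, (∀ x ∈ (g ν).2.1, x.1 < (g ν).1) ∧ ∀ x ∈ (g ν).2.2, x < (g ν).1 := by
    intro ν
    exact ⟨fun x hx => (Finset.mem_filter.1 hx).2, fun x hx => (Finset.mem_filter.1 hx).2⟩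
  obtain ⟨z, hz⟩ := press_uncountable
    {z : W × Finset (W × Bool) × Finset W | (∀ x ∈ z.2.1, x.1 < z.1) ∧ ∀ x ∈ z.2.2, x < z.1}
    (fun z => z.1) countable_data g (fun ν hν => And.intro (hgmem ν) (hy ν hν).1)
  have hE1 : ¬ ({ν | IsLim ν ∧ g ν = z} \ B).Countable := by
    intro hc
    apply hz
    refine (hc.union hB.countable).mono fun ν hν => ?_
    by_cases h' : ν ∈ B
    · exact Or.inr h'
    · exact Or.inl ⟨hν, h'⟩
  -- upper bounds of everything at coordinate `i`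
  have hσ : ∀ ν, ∃ σ, (∀ x ∈ uAt (p' ν) i, x.1 < σ) ∧ ∀ x ∈ wAt (p' ν) i, x < σ := by
    intro ν
    obtain ⟨σ, hσ⟩ := exists_gt_of_countable
      ((((uAt (p' ν) i).image Prod.fst ∪ wAt (p' ν) i : Finset W)).countable_toSet)
    refine ⟨σ, fun x hx => hσ _ ?_, fun x hx => hσ _ ?_⟩
    · exact Finset.mem_coe.2 (Finset.mem_union_left _ (Finset.mem_image_of_mem _ hx))
    · exact Finset.mem_coe.2 (Finset.mem_union_right _ hx)
  choose σ hσ1 hσ2 using hσ
  obtain ⟨E2, hE2, hunc2, hpw2⟩ := exists_uncountable_pairwise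
    ({ν | IsLim ν ∧ g ν = z} \ B) (fun ν μ => (ν < μ → σ ν < μ) ∧ (μ < ν → σ μ < ν))
    (fun _ _ h' => ⟨h'.2, h'.1⟩) (by
      intro M hM hMc
      obtain ⟨b, hb⟩ := exists_gt_of_countable ((hMc.image σ).union hMc)
      obtain ⟨c, hc, hbc⟩ : ∃ c ∈ ({ν | IsLim ν ∧ g ν = z} \ B : Set W), b ≤ c := by
        by_contra hcon
        push Not at hcon
        exact hE1 ((countable_Iio b).mono hcon)
      refine ⟨c, hc, fun hcM => ?_, fun m hm => ⟨fun h' => ?_, fun _ => ?_⟩⟩
      · exact absurd (hb c (Or.inr hcM)) (not_lt.2 hbc)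
      · exact absurd h' (not_lt.2 ((hb m (Or.inr hm)).le.trans hbc))
      · exact lt_of_lt_of_le (hb (σ m) (Or.inl ⟨m, hm, rfl⟩)) hbc)
  obtain ⟨E3, hE3, hunc3, hpw3⟩ := h E2 hunc2 p'
  refine ⟨a '' E3, ?_, ?_, ?_⟩
  · rintro _ ⟨ν, _, rfl⟩
    exact (haP ν).1
  · intro hc
    apply hunc3
    exact Set.MapsTo.countable_of_injOn (f := a)
      (fun ν hν => Set.mem_image_of_mem a hν) hainj.injOn hc
  -- the amalgamation
  have key : ∀ ν ∈ E3, ∀ μ ∈ E3, ν < μ → ∃ r, LE' bk (Set.Iic i) r (p (a ν)) ∧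
      LE' bk (Set.Iic i) r (p (a μ)) := by
    intro ν hν μ hμ hνμ
    obtain ⟨r, hr1, hr2⟩ := hpw3 ν hν μ hμ hνμ.ne
    have hν2 := hE2 (hE3 hν)
    have hμ2 := hE2 (hE3 hμ)
    have hσμ : σ ν < μ := (hpw2 ν (hE3 hν) μ (hE3 hμ) hνμ.ne).1 hνμ
    have hgν : g ν = z := hν2.1.2
    have hgμ : g μ = z := hμ2.1.2
    have hyy : y ν = y μ := by
      have := congrArg (fun z => z.1) (hgν.trans hgμ.symm)
      exact this
    have htu : ∀ x : W × Bool, x.1 < y ν → (x ∈ uAt (p' ν) i ↔ x ∈ uAt (p' μ) i) := by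
      intro x hx
      have h1 : (uAt (p' ν) i).filter (fun x => x.1 < y ν) =
          (uAt (p' μ) i).filter (fun x => x.1 < y μ) :=
        congrArg (fun z => z.2.1) (hgν.trans hgμ.symm)
      have h2 : x ∈ (uAt (p' ν) i).filter (fun x => x.1 < y ν) ↔
          x ∈ (uAt (p' μ) i).filter (fun x => x.1 < y μ) := by rw [h1]
      rw [Finset.mem_filter, Finset.mem_filter, ← hyy] at h2
      simpa only [hx, and_true] using h2
    have htw : ∀ x : W, x < y ν → (x ∈ wAt (p' ν) i ↔ x ∈ wAt (p' μ) i) := by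
      intro x hx
      have h1 : (wAt (p' ν) i).filter (fun x => x < y ν) =
          (wAt (p' μ) i).filter (fun x => x < y μ) :=
        congrArg (fun z => z.2.2) (hgν.trans hgμ.symm)
      have h2 : x ∈ (wAt (p' ν) i).filter (fun x => x < y ν) ↔
          x ∈ (wAt (p' μ) i).filter (fun x => x < y μ) := by rw [h1]
      rw [Finset.mem_filter, Finset.mem_filter, ← hyy] at h2
      simpa only [hx, and_true] using h2
    -- everything of `p' ν` is below `μ`; the part of `p' μ` below `μ` is below `y`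
    have hbelow : ∀ ξ b, (ξ, b) ∈ uAt (p' ν) i → ξ < μ := fun ξ b h' =>
      (hσ1 ν (ξ, b) h').trans hσμ
    have hbelowW : ∀ α, α ∈ wAt (p' ν) i → α < μ := fun α h' => (hσ2 ν α h').trans hσμ
    have hμy : ∀ ξ b, (ξ, b) ∈ uAt (p' μ) i → ξ < μ → ξ < y ν := by
      intro ξ b h1 h2
      rw [hyy]
      exact (hy μ hμ2.1.1).2.1 (ξ, b) h1 h2
    have hμyW : ∀ α, α ∈ wAt (p' μ) i → α < μ → α < y ν := by
      intro α h1 h2
      rw [hyy]
      exact (hy μ hμ2.1.1).2.2 α h1 h2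
    have hμnot : μ ∉ wAt (p' μ) i := by
      intro h'
      have h1 := (hp'w μ μ).1 (mem_wAt.1 h')
      exact (haP μ).2 hμ2.2 h1
    have hfn : ∀ ξ b b', (ξ, b) ∈ uAt (p' ν) i → (ξ, b') ∈ uAt (p' μ) i → b = b' := by
      intro ξ b b' h1 h2
      have h3 : ξ < y ν := hμy ξ b' h2 (hbelow ξ b h1)
      have h4 := (htu (ξ, b') h3).2 h2
      exact (p' ν).ufn i ξ b b' (mem_uAt.1 h1) (mem_uAt.1 h4)
    have hnewW : ∀ α, α ∈ wAt (p' μ) i → α ∉ wAt (p' ν) i → μ < α := by
      intro α h1 h2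
      rcases lt_trichotomy α μ with h3 | h3 | h3
      · exact (h2 ((htw α (hμyW α h1 h3)).2 h1)).elim
      · rw [h3] at h1; exact (hμnot h1).elim
      · exact h3
    have hvalid : Valid (C i) (uAt (p' ν) i ∪ uAt (p' μ) i) (wAt (p' ν) i ∪ wAt (p' μ) i) := by
      refine ⟨?_, ?_, ?_⟩
      · intro ξ b b' h1 h2
        rw [Finset.mem_union] at h1 h2
        rcases h1 with h1 | h1 <;> rcases h2 with h2 | h2
        · exact (p' ν).ufn i ξ b b' (mem_uAt.1 h1) (mem_uAt.1 h2)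
        · exact hfn _ _ _ h1 h2
        · exact (hfn _ _ _ h2 h1).symm
        · exact (p' μ).ufn i ξ b b' (mem_uAt.1 h1) (mem_uAt.1 h2)
      · intro α h1
        rw [Finset.mem_union] at h1
        rcases h1 with h1 | h1
        · exact (p' ν).lim i α (mem_wAt.1 h1)
        · exact (p' μ).lim i α (mem_wAt.1 h1)
      · have hmix : ∀ α ∈ wAt (p' μ) i, ∀ β ∈ wAt (p' ν) i, α ≠ β → ∀ n m,
            (C i).c α n = (C i).c β m → ∃ b, ((C i).c α n, b) ∈ uAt (p' ν) i ∪ uAt (p' μ) i := by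
          intro α hα β hβ hne n m hnm
          by_cases h1 : α ∈ wAt (p' ν) i
          · obtain ⟨b, hb⟩ := (p' ν).inter i α β (mem_wAt.1 h1) (mem_wAt.1 hβ) hne n m hnm
            exact ⟨b, Finset.mem_union_left _ (mem_uAt.2 hb)⟩
          · have h2 := hnewW α hα h1
            have h3 : (C i).c α n < μ := by
              rw [hnm]
              exact ((C i).lt β ((p' ν).lim i β (mem_wAt.1 hβ)) m).trans (hbelowW β hβ)
            obtain ⟨b, hb⟩ := hp'full μ α (mem_wAt.1 hα) h2 n h3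
            exact ⟨b, Finset.mem_union_right _ (mem_uAt.2 hb)⟩
        intro α hα β hβ hne n m hnm
        rw [Finset.mem_union] at hα hβ
        rcases hα with hα | hα <;> rcases hβ with hβ | hβ
        · obtain ⟨b, hb⟩ := (p' ν).inter i α β (mem_wAt.1 hα) (mem_wAt.1 hβ) hne n m hnm
          exact ⟨b, Finset.mem_union_left _ (mem_uAt.2 hb)⟩
        · obtain ⟨b, hb⟩ := hmix β hβ α hα hne.symm m n hnm.symm
          exact ⟨b, by rw [hnm]; exact hb⟩
        · exact hmix α hα β hβ hne n m hnm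
        · obtain ⟨b, hb⟩ := (p' μ).inter i α β (mem_wAt.1 hα) (mem_wAt.1 hβ) hne n m hnm
          exact ⟨b, Finset.mem_union_right _ (mem_uAt.2 hb)⟩
    refine ⟨mkTop r i _ _ hvalid, ?_, ?_⟩
    · refine LE'.trans (low_Iic i) (mkTop_le (p := p' ν) hr1 ?_ ?_ ?_)
        ((hp'le ν).mono (Set.subset_univ _))
      · intro ξ b hb
        exact Finset.mem_union_left _ (mem_uAt.2 hb)
      · intro α hα
        exact Finset.mem_union_left _ (mem_wAt.2 hα)
      · intro α hα n b hb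
        left
        rw [Finset.mem_union] at hb
        rcases hb with hb | hb
        · exact mem_uAt.1 hb
        · have hαν := mem_wAt.2 hα
          have h1 : (C i).c α n < μ := ((C i).lt α ((p' ν).lim i α hα) n).trans (hbelowW α hαν)
          exact mem_uAt.1 ((htu ((C i).c α n, b) (hμy _ b hb h1)).2 hb)
    · refine LE'.trans (low_Iic i) (mkTop_le (p := p' μ) hr2 ?_ ?_ ?_)
        ((hp'le μ).mono (Set.subset_univ _))
      · intro ξ b hb
        exact Finset.mem_union_right _ (mem_uAt.2 hb)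
      · intro α hα
        exact Finset.mem_union_right _ (mem_wAt.2 hα)
      · intro α hα n b hb
        left
        rw [Finset.mem_union] at hb
        rcases hb with hb | hb
        · have h1 : (C i).c α n < μ := hbelow _ b hb
          by_cases h2 : α ∈ wAt (p' ν) i
          · -- `α` is a common promise, hence below `y`
            have h3 : α < y ν := hμyW α (mem_wAt.2 hα) (hbelowW α h2)
            have h4 : (C i).c α n < y ν := ((C i).lt α ((p' μ).lim i α hα) n).trans h3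
            exact mem_uAt.1 ((htu ((C i).c α n, b) h4).1 hb)
          · have h3 := hnewW α (mem_wAt.2 hα) h2
            obtain ⟨b', hb'⟩ := hp'full μ α hα h3 n h1
            rw [hfn _ _ _ hb (mem_uAt.2 hb')]
            exact hb'
        · exact mem_uAt.1 hb
  rintro _ ⟨ν, hν, rfl⟩ _ ⟨μ, hμ, rfl⟩ hne
  have hνμ : ν ≠ μ := fun h' => hne (by rw [h'])
  rcases lt_or_gt_of_ne hνμ with h1 | h1
  · exact key ν hν μ hμ h1
  · obtain ⟨r, hr1, hr2⟩ := key μ hμ ν hν h1
    exact ⟨r, hr2, hr1⟩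

theorem kn_Iic (i : K) : Kn (LE' bk (Set.Iic i)) := by
  induction i using (wellFounded_lt (α := K)).induction with
  | _ i ih => exact kn_top (kn_limit (low_Iio i) fun j hj => ih j hj)

/-- **The iteration has the Knaster property** on every lower set of coordinates. -/
theorem kn_low {I : Set K} (hI : Low I) : Kn (LE' bk I) := kn_limit hI fun j _ => kn_Iic j

end

end Pool.Agent.Ladder
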