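import Pool.Agent.Lib.MP_62a69e_lc.FSBr

/-! # Names of natural numbers and bounded predictions -/

set_option autoImplicit false
set_option linter.unusedSectionVars false

namespace Pool.Agent.Ladder

section
variable {K : Type} {C : K → LadderSystem} [LinearOrder K] [WellFoundedLT K] (bk : K → Code K C)

/-- `y` is a name, in the iteration restricted to `I`, of a natural number; `y k` consists of
conditions forcing that the number is at most `k`. -/
structure NN (I : Set K) (y : ℕ → Set (Cd K C)) : Prop where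
  mono : ∀ k p q, p ∈ y k → LE' bk I q p → q ∈ y k
  up : ∀ k k', k ≤ k' → y k ⊆ y k'
  dense : ∀ p, ∃ q, LE' bk I q p ∧ ∃ k, q ∈ y k

/-- `Z` is a countable set of conditions deciding a bound for the name `y`, predense. -/
structure IsSupp (I : Set K) (y : ℕ → Set (Cd K C)) (Z : Set (Cd K C)) : Prop where
  cnt : Z.Countable
  dec : ∀ a ∈ Z, ∃ k, a ∈ y k
  pre : ∀ p, ∃ a ∈ Z, ∃ r, LE' bk I r p ∧ LE' bk I r a

variable {bk}

theorem exists_supp {I : Set K} (hI : Low I) {y : ℕ → Set (Cd K C)} (h : NN bk I y) :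
    ∃ Z, IsSupp bk I y Z := by
  obtain ⟨Z, h1, h2, h3⟩ := (kn_low (bk := bk) hI).exists_countable_predense
    (fun p => LE'.refl bk _ p) {p | ∃ k, p ∈ y k}
  refine ⟨Z, h2, fun a ha => h1 ha, fun p => ?_⟩
  obtain ⟨q, hq, k, hk⟩ := h.dense p
  obtain ⟨z, hz, r, hr1, hr2⟩ := h3 q ⟨k, hk⟩
  exact ⟨z, hz, r, LE'.trans hI hr1 hq, hr2⟩

variable (bk) in
open Classical in
/-- A chosen support. -/
noncomputable def supp (I : Set K) (y : ℕ → Set (Cd K C)) : Set (Cd K C) :=
  if h : ∃ Z, IsSupp bk I y Z then h.choose else ∅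

theorem supp_spec {I : Set K} (hI : Low I) {y : ℕ → Set (Cd K C)} (h : NN bk I y) :
    IsSupp bk I y (supp bk I y) := by
  have h1 := exists_supp hI h
  unfold supp
  rw [dif_pos h1]
  exact h1.choose_spec

theorem supp_countable (I : Set K) (y : ℕ → Set (Cd K C)) : (supp bk I y).Countable := by
  unfold supp
  split_ifs with h
  · exact h.choose_spec.cnt
  · exact Set.countable_empty

variable (bk) in
/-- First operation: restricting a name to the coordinates `≤ i`. -/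
def opA (I : Set K) (y : ℕ → Set (Cd K C)) (i : K) : ℕ → Set (Cd K C) :=
  fun k => {q | ∃ a ∈ supp bk I y, a ∈ y k ∧ LE' bk (Set.Iic i) q a}

theorem opA_nn {I : Set K} (hI : Low I) {y : ℕ → Set (Cd K C)} (h : NN bk I y) {i : K}
    (hi : i ∈ I) : NN bk (Set.Iic i) (opA bk I y i) := by
  refine ⟨?_, ?_, ?_⟩
  · rintro k p q ⟨a, ha, hak, hpa⟩ hqp
    exact ⟨a, ha, hak, LE'.trans (low_Iic i) hqp hpa⟩
  · rintro k k' hk p ⟨a, ha, hak, hpa⟩
    exact ⟨a, ha, h.up k k' hk hak, hpa⟩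
  · intro p
    obtain ⟨a, ha, r, hr1, hr2⟩ := (supp_spec hI h).pre p
    obtain ⟨k, hk⟩ := (supp_spec hI h).dec a ha
    have hsub : Set.Iic i ⊆ I := by
      intro x hx
      rcases lt_or_eq_of_le hx with h1 | h1
      · exact hI i hi x h1
      · rw [h1]; exact hi
    exact ⟨r, hr1.mono hsub, k, a, ha, hk, hr2.mono hsub⟩

open Classical in
/-- The function part `U` extended by a pattern on `D`: value `1` exactly on `A`. -/
noncomputable def patU (U : Finset (W × Bool)) (D A : Finset W) : Finset (W × Bool) :=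
  U ∪ D.image (fun ξ => (ξ, decide (ξ ∈ A)))

open Classical in
theorem mem_patU {U : Finset (W × Bool)} {D A : Finset W} {ξ : W} {b : Bool} :
    (ξ, b) ∈ patU U D A ↔ (ξ, b) ∈ U ∨ (ξ ∈ D ∧ b = decide (ξ ∈ A)) := by
  unfold patU
  rw [Finset.mem_union, Finset.mem_image]
  constructor
  · rintro (h | ⟨η, hη, h⟩)
    · exact Or.inl h
    · simp only [Prod.mk.injEq] at h
      obtain ⟨rfl, h⟩ := h
      exact Or.inr ⟨hη, h.symm⟩
  · rintro (h | ⟨h1, h2⟩)
    · exact Or.inl h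
    · exact Or.inr ⟨ξ, h1, by rw [h2]⟩

theorem valid_patU {L : LadderSystem} {U : Finset (W × Bool)} {V D : Finset W} (h : Valid L U V)
    (hD : ∀ ξ ∈ D, ∀ b, (ξ, b) ∉ U) (A : Finset W) : Valid L (patU U D A) V := by
  classical
  refine ⟨?_, h.2.1, ?_⟩
  · intro ξ b b' h1 h2
    rw [mem_patU] at h1 h2
    rcases h1 with h1 | h1 <;> rcases h2 with h2 | h2
    · exact h.1 _ _ _ h1 h2
    · exact (hD ξ h2.1 b h1).elim
    · exact (hD ξ h1.1 b' h2).elim
    · rw [h1.2, h2.2]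
  · intro α hα β hβ hne n m hnm
    obtain ⟨b, hb⟩ := h.2.2 α hα β hβ hne n m hnm
    exact ⟨b, mem_patU.2 (Or.inl hb)⟩

/-- The trivial condition. -/
def emptyCd (K : Type) (C : K → LadderSystem) : Cd K C where
  s := ∅
  u := ∅
  w := ∅
  sfn := fun _ _ _ h => absurd h (Finset.notMem_empty _)
  ufn := fun _ _ _ _ h => absurd h (Finset.notMem_empty _)
  lim := fun _ _ h => absurd h (Finset.notMem_empty _)
  inter := fun _ _ _ h => absurd h (Finset.notMem_empty _)

/-- The condition with single coordinate `i`, equal to `(U ∪ pattern, V)`. -/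
noncomputable def sgl (i : K) {U : Finset (W × Bool)} {V D : Finset W} (h : Valid (C i) U V)
    (hD : ∀ ξ ∈ D, ∀ b, (ξ, b) ∉ U) (A : Finset W) : Cd K C :=
  mkTop (emptyCd K C) i (patU U D A) V (valid_patU h hD A)

variable (bk) in
/-- Second operation: eliminating the top coordinate `i`, relative to a fixed coordinate `(U, V)`
and all patterns on `D`. -/
def opB (i : K) (y : ℕ → Set (Cd K C)) {U : Finset (W × Bool)} {V D : Finset W}
    (h : Valid (C i) U V) (hD : ∀ ξ ∈ D, ∀ b, (ξ, b) ∉ U) : ℕ → Set (Cd K C) :=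
  fun k => {p | ∀ A ∈ D.powerset, ∃ a ∈ supp bk (Set.Iic i) y, a ∈ y k ∧
    ∃ q, LE' bk (Set.Iic i) q a ∧ LE' bk (Set.Iic i) q (sgl i h hD A) ∧
      LE' bk (Set.Iio i) p q}

theorem mkTop_le_sgl {i : K} {U : Finset (W × Bool)} {V D : Finset W} (h : Valid (C i) U V)
    (hD : ∀ ξ ∈ D, ∀ b, (ξ, b) ∉ U) (A : Finset W) (p : Cd K C) :
    LE' bk (Set.Iic i) (mkTop p i (patU U D A) V (valid_patU h hD A)) (sgl i h hD A) := by
  refine mkTop_le ⟨Finset.empty_subset _, fun j hj => ?_⟩ ?_ ?_ ?_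
  · have hj' : j < i := hj
    refine ⟨fun ξ b hb => ?_, fun α hα => ?_, fun α hα => ?_⟩
    · exact absurd ((mkTop_u_lt hj' ξ b).1 hb) (Finset.notMem_empty _)
    · exact absurd ((mkTop_w_lt hj' α).1 hα) (Finset.notMem_empty _)
    · exact absurd ((mkTop_w_lt hj' α).1 hα) (Finset.notMem_empty _)
  · intro ξ b hb
    exact (mkTop_u_eq ξ b).1 hb
  · intro α hα
    exact (mkTop_w_eq α).1 hα
  · intro α hα n b hb
    exact Or.inl ((mkTop_u_eq _ b).2 hb)

theorem opB_nn {i : K} {y : ℕ → Set (Cd K C)} (hy : NN bk (Set.Iic i) y)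
    {U : Finset (W × Bool)} {V D : Finset W}
    (h : Valid (C i) U V) (hD : ∀ ξ ∈ D, ∀ b, (ξ, b) ∉ U) :
    NN bk (Set.Iio i) (opB bk i y h hD) := by
  classical
  refine ⟨?_, ?_, ?_⟩
  · intro k p q hp hqp A hA
    obtain ⟨a, ha, hak, r, hr1, hr2, hr3⟩ := hp A hA
    exact ⟨a, ha, hak, r, hr1, hr2, LE'.trans (low_Iio i) hqp hr3⟩
  · intro k k' hk p hp A hA
    obtain ⟨a, ha, hak, r, hr⟩ := hp A hA
    exact ⟨a, ha, hy.up k k' hk hak, r, hr⟩
  · intro p0
    have key : ∀ 𝒜 : Finset (Finset W), ∀ p : Cd K C, ∃ q, LE' bk (Set.Iio i) q p ∧ ∃ k,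
        ∀ A ∈ 𝒜, ∃ a ∈ supp bk (Set.Iic i) y, a ∈ y k ∧
          ∃ r, LE' bk (Set.Iic i) r a ∧ LE' bk (Set.Iic i) r (sgl i h hD A) ∧
            LE' bk (Set.Iio i) q r := by
      intro 𝒜
      induction 𝒜 using Finset.induction_on with
      | empty => exact fun p => ⟨p, LE'.refl bk _ p, 0, fun A hA => absurd hA (Finset.notMem_empty _)⟩
      | @insert A 𝒜 _ ih =>
        intro p
        obtain ⟨q, hq, k, hk⟩ := ih p
        obtain ⟨a, ha, r, hr1, hr2⟩ := (supp_spec (low_Iic i) hy).pre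
          (mkTop q i (patU U D A) V (valid_patU h hD A))
        obtain ⟨k', hk'⟩ := (supp_spec (low_Iic i) hy).dec a ha
        have hsub : Set.Iio i ⊆ Set.Iic i := fun x hx => le_of_lt hx
        have hrq : LE' bk (Set.Iio i) r q :=
          LE'.trans (low_Iio i) (hr1.mono hsub) mkTop_agree.le
        refine ⟨r, LE'.trans (low_Iio i) hrq hq, max k k', ?_⟩
        intro B hB
        rw [Finset.mem_insert] at hB
        rcases hB with rfl | hB
        · exact ⟨a, ha, hy.up _ _ (le_max_right _ _) hk', r, hr2,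
            LE'.trans (low_Iic i) hr1 (mkTop_le_sgl h hD B q), LE'.refl bk _ r⟩
        · obtain ⟨a', ha', hak', r', h1, h2, h3⟩ := hk B hB
          exact ⟨a', ha', hy.up _ _ (le_max_left _ _) hak', r', h1, h2,
            LE'.trans (low_Iio i) hrq h3⟩
    obtain ⟨q, hq, k, hk⟩ := key D.powerset p0
    exact ⟨q, hq, k, hk⟩

/-! ### Adding a value of the Cohen colouring -/

open Classical in
/-- `p` with the value `v` of the Cohen colouring at the new argument `x`. -/
noncomputable def addS (p : Cd K C) (x : W × ℕ) (v : ℕ) (hx : ∀ k, (x, k) ∉ p.s) : Cd K C where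
  s := insert (x, v) p.s
  u := p.u
  w := p.w
  sfn := by
    intro y k k' h1 h2
    rw [Finset.mem_insert] at h1 h2
    rcases h1 with h1 | h1 <;> rcases h2 with h2 | h2
    · simp only [Prod.mk.injEq] at h1 h2
      rw [h1.2, h2.2]
    · simp only [Prod.mk.injEq] at h1
      rw [h1.1] at h2
      exact (hx _ h2).elim
    · simp only [Prod.mk.injEq] at h2
      rw [h2.1] at h1
      exact (hx _ h1).elim
    · exact p.sfn _ _ _ h1 h2
  ufn := p.ufn
  lim := p.lim
  inter := p.inter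

theorem addS_le (I : Set K) (p : Cd K C) (x : W × ℕ) (v : ℕ) (hx : ∀ k, (x, k) ∉ p.s) :
    LE' bk I (addS p x v hx) p :=
  ⟨Finset.subset_insert _ _, fun _ _ => ⟨fun _ _ h => h, fun _ h => h, fun _ _ _ _ h => Or.inl h⟩⟩

/-- all ordinals mentioned in `a` are below `ζ` -/
def Below (ζ : W) (a : Cd K C) : Prop :=
  (∀ x k, (x, k) ∈ a.s → x.1 < ζ) ∧ (∀ i ξ b, (i, ξ, b) ∈ a.u → ξ < ζ) ∧
    ∀ i α, (i, α) ∈ a.w → α < ζ

/-- The closure properties of a countable family of names. -/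
structure Closed (bk : K → Code K C) (𝒴 : Set (Set K × (ℕ → Set (Cd K C)))) (N : Set K) (δ : W) :
    Prop where
  low : ∀ z ∈ 𝒴, Low z.1
  nn : ∀ z ∈ 𝒴, NN bk z.1 z.2
  crd : ∀ z ∈ 𝒴, ∀ a ∈ supp bk z.1 z.2, ∀ i ∈ coords a, i ∈ N
  bdd : ∀ z ∈ 𝒴, ∃ ζ, ζ < δ ∧ ∀ a ∈ supp bk z.1 z.2, Below ζ a
  opA : ∀ z ∈ 𝒴, ∀ i ∈ N, i ∈ z.1 → (Set.Iic i, opA bk z.1 z.2 i) ∈ 𝒴
  opB : ∀ (i : K) (y : ℕ → Set (Cd K C)), (Set.Iic i, y) ∈ 𝒴 → i ∈ N →
    ∀ (U : Finset (W × Bool)) (V D : Finset W) (h : Valid (C i) U V) (hD : ∀ ξ ∈ D, ∀ b, (ξ, b) ∉ U),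
      (∀ x ∈ U, x.1 < δ) → (∀ x ∈ V, x < δ) → (∀ x ∈ D, x < δ) →
      (Set.Iio i, opB bk i y h hD) ∈ 𝒴

/-- Deciding finitely many values of the name at coordinate `i`. -/
theorem exists_dec_finite (i : K) (p : Cd K C) (α : W) (F : Finset ℕ) :
    ∃ r, LE' bk (Set.Iio i) r p ∧ ∀ n ∈ F, ∃ b, Dec (ordF bk i) (bk i) r α n b := by
  classical
  induction F using Finset.induction_on with
  | empty => exact ⟨p, LE'.refl bk _ p, fun n hn => absurd hn (Finset.notMem_empty _)⟩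
  | @insert m F _ ih =>
    obtain ⟨r, hr, h1⟩ := ih
    obtain ⟨r', hr', b, hb⟩ := exists_dec_below (bk := bk) i r α m
    refine ⟨r', LE'.trans (low_Iio i) hr' hr, fun n hn => ?_⟩
    rw [Finset.mem_insert] at hn
    rcases hn with rfl | hn
    · exact ⟨b, hb⟩
    · obtain ⟨c, hc⟩ := h1 n hn
      refine ⟨c, ?_⟩
      rw [ordF_eq] at hc ⊢
      exact hc.mono (LE'.trans_Iio i) hr'

/-- **The main lemma.** For a name `y` in a closed family and a condition `p` whose Cohen part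
does not mention `(δ, n)`, a bound `Kb` for `y` can be forced independently of the value given
to the Cohen colouring at `(δ, n)`. -/
theorem main_claim {𝒴 : Set (Set K × (ℕ → Set (Cd K C)))} {N : Set K} {δ : W} (hδ : IsLim δ)
    (hcl : Closed bk 𝒴 N δ) (p : Cd K C) (hfull : ∀ i, FullAt p δ i) (n0 : ℕ)
    (hn0 : ∀ k, ((δ, n0), k) ∉ p.s) :
    ∀ (m : ℕ) (I : Set K) (y : ℕ → Set (Cd K C)), (I, y) ∈ 𝒴 →
      (∃ F : Finset K, F.card = m ∧ ∀ i, i ∈ F ↔ i ∈ coords p ∧ i ∈ N ∧ i ∈ I) →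
      ∃ Kb, ∀ v, ∃ q, LE' bk I q (addS p (δ, n0) v hn0) ∧ q ∈ y Kb := by
  classical
  intro m
  induction m with
  | zero =>
    intro I y hy hF
    obtain ⟨F, hF0, hF⟩ := hF
    rw [Finset.card_eq_zero] at hF0
    subst hF0
    have hlow : Low I := hcl.low _ hy
    have hnn : NN bk I y := hcl.nn _ hy
    obtain ⟨ζ, hζ, hbel⟩ := hcl.bdd _ hy
    -- the Cohen part of `p` below `δ`
    let p0 : Cd K C :=
      { s := p.s.filter (fun x => x.1.1 < δ)
        u := ∅
        w := ∅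
        sfn := fun x k k' h1 h2 => p.sfn x k k' (Finset.mem_filter.1 h1).1 (Finset.mem_filter.1 h2).1
        ufn := fun _ _ _ _ h => absurd h (Finset.notMem_empty _)
        lim := fun _ _ h => absurd h (Finset.notMem_empty _)
        inter := fun _ _ _ h => absurd h (Finset.notMem_empty _) }
    obtain ⟨a, ha, r, hr1, hr2⟩ := (supp_spec hlow hnn).pre p0
    obtain ⟨k, hk⟩ := (supp_spec hlow hnn).dec a ha
    have hab : Below ζ a := hbel a ha
    refine ⟨k, fun v => ?_⟩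
    have hfn : ∀ x c c', (x, c) ∈ a.s → (x, c') ∈ (addS p (δ, n0) v hn0).s → c = c' := by
      intro x c c' h1 h2
      have h2' : (x, c') ∈ insert ((δ, n0), v) p.s := h2
      rw [Finset.mem_insert] at h2'
      have hx : x.1 < δ := (hab.1 x c h1).trans hζ
      rcases h2' with h3 | h3
      · simp only [Prod.mk.injEq] at h3
        rw [h3.1] at hx
        exact (lt_irrefl _ hx).elim
      · exact r.sfn x c c' (hr2.1 h1) (hr1.1 (Finset.mem_filter.2 ⟨h3, hx⟩))
    let r0 : Cd K C :=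
      { s := a.s ∪ (addS p (δ, n0) v hn0).s
        u := ∅
        w := ∅
        sfn := by
          intro x c c' h1 h2
          rw [Finset.mem_union] at h1 h2
          rcases h1 with h1 | h1 <;> rcases h2 with h2 | h2
          · exact a.sfn _ _ _ h1 h2
          · exact hfn _ _ _ h1 h2
          · exact (hfn _ _ _ h2 h1).symm
          · exact (addS p (δ, n0) v hn0).sfn _ _ _ h1 h2
        ufn := fun _ _ _ _ h => absurd h (Finset.notMem_empty _)
        lim := fun _ _ h => absurd h (Finset.notMem_empty _)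
        inter := fun _ _ _ h => absurd h (Finset.notMem_empty _) }
    obtain ⟨t, ht1, ht2, _⟩ := compat_of_disjoint (bk := bk) (I := I) (J := ∅)
      (fun i hi => hi.elim) (p := addS p (δ, n0) v hn0) (q := a) (r := r0)
      ⟨Finset.subset_union_right, fun i hi => hi.elim⟩
      ⟨Finset.subset_union_left, fun i hi => hi.elim⟩ (by
        intro i hi _ hip hia
        have h1 : i ∈ coords p := hip
        exact Finset.notMem_empty i ((hF i).2 ⟨h1, hcl.crd _ hy a ha i hia, hi⟩))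
    exact ⟨t, ht1, hnn.mono k a t hk ht2⟩
  | succ m ih =>
    intro I y hy hF
    obtain ⟨F, hFc, hF⟩ := hF
    have hlow : Low I := hcl.low _ hy
    have hnn : NN bk I y := hcl.nn _ hy
    have hFne : F.Nonempty := by
      rw [← Finset.card_pos, hFc]; omega
    obtain ⟨i, hiF, himax⟩ := F.exists_max_image id hFne
    have himax' : ∀ j ∈ F, j ≤ i := fun j hj => himax j hj
    obtain ⟨hip, hiN, hiI⟩ := (hF i).1 hiF
    -- first operation
    have hy1 : (Set.Iic i, opA bk I y i) ∈ 𝒴 := hcl.opA _ hy i hiN hiI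
    have hnn1 : NN bk (Set.Iic i) (opA bk I y i) := hcl.nn _ hy1
    obtain ⟨ζ0, hζ0, hbel0⟩ := hcl.bdd _ hy1
    -- an ordinal `ζ < δ` above everything of `p` below `δ` at coordinate `i`, and `ζ0`
    obtain ⟨ζ, hζδ, hζ⟩ := exists_bound_below hδ
      (insert ζ0 (((uAt p i).image Prod.fst ∪ wAt p i).filter (· < δ))) (by
        intro x hx
        rw [Finset.mem_insert] at hx
        rcases hx with rfl | hx
        · exact hζ0
        · exact (Finset.mem_filter.1 hx).2)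
    have hζζ0 : ζ0 < ζ := hζ _ (Finset.mem_insert_self _ _)
    have hζu : ∀ ξ b, (i, ξ, b) ∈ p.u → ξ < δ → ξ < ζ := fun ξ b h1 h2 =>
      hζ ξ (Finset.mem_insert_of_mem (Finset.mem_filter.2 ⟨Finset.mem_union_left _
        (Finset.mem_image.2 ⟨(ξ, b), mem_uAt.2 h1, rfl⟩), h2⟩))
    have hζw : ∀ α, (i, α) ∈ p.w → α < δ → α < ζ := fun α h1 h2 =>
      hζ α (Finset.mem_insert_of_mem (Finset.mem_filter.2 ⟨Finset.mem_union_right _
        (mem_wAt.2 h1), h2⟩))
    have hbel : ∀ a ∈ supp bk (Set.Iic i) (opA bk I y i), Below ζ a := by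
      intro a ha
      obtain ⟨h1, h2, h3⟩ := hbel0 a ha
      exact ⟨fun x k h => (h1 x k h).trans hζζ0, fun j ξ b h => (h2 j ξ b h).trans hζζ0,
        fun j α h => (h3 j α h).trans hζζ0⟩
    -- the data of coordinate `i` below `ζ`
    let U0 : Finset (W × Bool) := (uAt p i).filter (fun x => x.1 < ζ)
    let V0 : Finset W := (wAt p i).filter (fun x => x < ζ)
    have hU0 : ∀ ξ b, (ξ, b) ∈ U0 ↔ (i, ξ, b) ∈ p.u ∧ ξ < ζ := by
      intro ξ b
      rw [Finset.mem_filter, mem_uAt]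
    have hV0 : ∀ α, α ∈ V0 ↔ (i, α) ∈ p.w ∧ α < ζ := by
      intro α
      rw [Finset.mem_filter, mem_wAt]
    have hvalid0 : Valid (C i) U0 V0 := by
      refine ⟨?_, ?_, ?_⟩
      · intro ξ b b' h1 h2
        exact p.ufn i ξ b b' ((hU0 _ _).1 h1).1 ((hU0 _ _).1 h2).1
      · intro α h1
        exact p.lim i α ((hV0 α).1 h1).1
      · intro α hα β hβ hne k l hkl
        have h1 := (hV0 α).1 hα
        have h2 := (hV0 β).1 hβ
        obtain ⟨b, hb⟩ := p.inter i α β h1.1 h2.1 hne k l hkl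
        exact ⟨b, (hU0 _ _).2 ⟨hb, ((C i).lt α (p.lim i α h1.1) k).trans h1.2⟩⟩
    have hDfin : {ξ | (i, δ) ∈ p.w ∧ (ξ < ζ ∧ ∃ k, (C i).c δ k = ξ) ∧ ∀ b, (i, ξ, b) ∉ p.u}.Finite :=
      (finite_ladder_below' (C i) hδ hζδ).subset fun ξ h => h.2.1
    let D : Finset W := hDfin.toFinset
    have hDmem : ∀ ξ, ξ ∈ D ↔ (i, δ) ∈ p.w ∧ (ξ < ζ ∧ ∃ k, (C i).c δ k = ξ) ∧
        ∀ b, (i, ξ, b) ∉ p.u := fun ξ => hDfin.mem_toFinset
    have hDU : ∀ ξ ∈ D, ∀ b, (ξ, b) ∉ U0 := fun ξ hξ b hb =>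
      ((hDmem ξ).1 hξ).2.2 b ((hU0 ξ b).1 hb).1
    have hy2 : (Set.Iio i, opB bk i (opA bk I y i) hvalid0 hDU) ∈ 𝒴 :=
      hcl.opB i _ hy1 hiN U0 V0 D hvalid0 hDU
        (fun x hx => ((hU0 x.1 x.2).1 hx).2.trans hζδ) (fun x hx => ((hV0 x).1 hx).2.trans hζδ)
        (fun x hx => ((hDmem x).1 hx).2.1.1.trans hζδ)
    have hnn2 := hcl.nn _ hy2
    -- the induction hypothesis
    obtain ⟨Kb, hKb⟩ := ih (Set.Iio i) _ hy2 ⟨F.erase i, by
        rw [Finset.card_erase_of_mem hiF, hFc]; rfl, fun j => by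
        rw [Finset.mem_erase, hF j]
        constructor
        · rintro ⟨h1, h2, h3, h4⟩
          exact ⟨h2, h3, lt_of_le_of_ne (himax' j ((hF j).2 ⟨h2, h3, h4⟩)) h1⟩
        · rintro ⟨h1, h2, h3⟩
          exact ⟨ne_of_lt h3, h1, h2, hlow i hiI j h3⟩⟩
    refine ⟨Kb, fun v => ?_⟩
    obtain ⟨q1, hq1, hq1y⟩ := hKb v
    -- decide the values of the name on `D`
    have hEfin : {k | (C i).c δ k ∈ D}.Finite :=
      (D.finite_toSet).preimage ((C i).mono δ hδ).injective.injOn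
    obtain ⟨q2, hq2, hq2d⟩ := exists_dec_finite (bk := bk) i q1 δ hEfin.toFinset
    have hq2y : q2 ∈ opB bk i (opA bk I y i) hvalid0 hDU Kb := hnn2.mono _ _ _ hq1y hq2
    let A : Finset W := D.filter (fun ξ => ∃ k, (C i).c δ k = ξ ∧
      Dec (ordF bk i) (bk i) q2 δ k true)
    have hA : ∀ k, (C i).c δ k ∈ D → Dec (ordF bk i) (bk i) q2 δ k (decide ((C i).c δ k ∈ A)) := by
      intro k hk
      obtain ⟨b, hb⟩ := hq2d k (hEfin.mem_toFinset.2 hk)
      by_cases h1 : (C i).c δ k ∈ A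
      · rw [decide_eq_true h1]
        obtain ⟨k', hk', hd⟩ := (Finset.mem_filter.1 h1).2
        rw [((C i).mono δ hδ).injective hk'] at hd
        exact hd
      · rw [decide_eq_false h1]
        cases b with
        | false => exact hb
        | true => exact (h1 (Finset.mem_filter.2 ⟨hk, k, rfl, hb⟩)).elim
    obtain ⟨a, ha, hak, q, hqa, hqs, hq2q⟩ := hq2y A (Finset.mem_powerset.2 (Finset.filter_subset _ _))
    have haB : Below ζ a := hbel a ha
    have hsub : Set.Iio i ⊆ Set.Iic i := fun x hx => le_of_lt hx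
    -- the coordinate of the amalgam
    let U : Finset (W × Bool) := uAt p i ∪ (uAt q i).filter (fun x => x.1 < ζ)
    let V : Finset W := wAt p i ∪ wAt a i
    have hUm : ∀ ξ b, (ξ, b) ∈ U ↔ (i, ξ, b) ∈ p.u ∨ ((i, ξ, b) ∈ q.u ∧ ξ < ζ) := by
      intro ξ b
      rw [Finset.mem_union, Finset.mem_filter, mem_uAt, mem_uAt]
    have hVm : ∀ α, α ∈ V ↔ (i, α) ∈ p.w ∨ (i, α) ∈ a.w := by
      intro α
      rw [Finset.mem_union, mem_wAt, mem_wAt]
    have hii : i ∈ Set.Iic i := le_rfl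
    -- the pattern condition is above `q`
    have hsu : ∀ ξ b, (ξ, b) ∈ patU U0 D A → (i, ξ, b) ∈ q.u := fun ξ b h =>
      (hqs.2 i hii).1 ξ b ((mkTop_u_eq ξ b).2 h)
    have hpq : ∀ ξ b, (i, ξ, b) ∈ p.u → ξ < ζ → (i, ξ, b) ∈ q.u := fun ξ b h1 h2 =>
      hsu ξ b (mem_patU.2 (Or.inl ((hU0 ξ b).2 ⟨h1, h2⟩)))
    have hsw : ∀ α, α ∈ V0 → (i, α) ∈ q.w := fun α h => (hqs.2 i hii).2.1 α ((mkTop_w_eq α).2 h)
    have hsd : ∀ α, α ∈ V0 → ∀ k b, (i, (C i).c α k, b) ∈ q.u →
        ((C i).c α k, b) ∈ patU U0 D A ∨ Dec (ordF bk i) (bk i) q α k b := by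
      intro α hα k b hb
      rcases (hqs.2 i hii).2.2 α ((mkTop_w_eq α).2 hα) k b hb with h | h
      · exact Or.inl ((mkTop_u_eq _ b).1 h)
      · exact Or.inr h
    have hau : ∀ ξ b, (i, ξ, b) ∈ a.u → (i, ξ, b) ∈ q.u := (hqa.2 i hii).1
    have haw : ∀ α, (i, α) ∈ a.w → (i, α) ∈ q.w := (hqa.2 i hii).2.1
    have hfnU : ∀ ξ b b', (ξ, b) ∈ U → (ξ, b') ∈ U → b = b' := by
      intro ξ b b' h1 h2
      rw [hUm] at h1 h2
      rcases h1 with h1 | h1 <;> rcases h2 with h2 | h2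
      · exact p.ufn _ _ _ _ h1 h2
      · exact q.ufn _ _ _ _ (hpq ξ b h1 h2.2) h2.1
      · exact q.ufn _ _ _ _ h1.1 (hpq ξ b' h2 h1.2)
      · exact q.ufn _ _ _ _ h1.1 h2.1
    have hvalid : Valid (C i) U V := by
      refine ⟨hfnU, ?_, ?_⟩
      · intro α h1
        rcases (hVm α).1 h1 with h | h
        · exact p.lim i α h
        · exact a.lim i α h
      · have hmix : ∀ α β, (i, α) ∈ p.w → (i, β) ∈ a.w → α ≠ β → ∀ k l, (C i).c α k = (C i).c β l →
            ∃ b, ((C i).c α k, b) ∈ U := by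
          intro α β hα hβ hne k l hkl
          have hβζ : β < ζ := haB.2.2 i β hβ
          have hpt : (C i).c α k < ζ := by
            rw [hkl]; exact ((C i).lt β (a.lim i β hβ) l).trans hβζ
          rcases lt_trichotomy α δ with h1 | h1 | h1
          · obtain ⟨b, hb⟩ := q.inter i α β (hsw α ((hV0 α).2 ⟨hα, hζw α hα h1⟩)) (haw β hβ) hne
              k l hkl
            exact ⟨b, (hUm _ _).2 (Or.inr ⟨hb, hpt⟩)⟩
          · by_cases h2 : ∃ b, (i, (C i).c α k, b) ∈ p.u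
            · obtain ⟨b, hb⟩ := h2
              exact ⟨b, (hUm _ _).2 (Or.inl hb)⟩
            · have hD' : (C i).c α k ∈ D := (hDmem _).2 ⟨by rw [← h1]; exact hα,
                ⟨hpt, k, by rw [h1]⟩, fun b hb => h2 ⟨b, hb⟩⟩
              exact ⟨decide ((C i).c α k ∈ A), (hUm _ _).2 (Or.inr ⟨hsu _ _ (mem_patU.2
                (Or.inr ⟨hD', rfl⟩)), hpt⟩)⟩
          · obtain ⟨b, hb⟩ := hfull i α hα h1 k (hpt.trans hζδ)
            exact ⟨b, (hUm _ _).2 (Or.inl hb)⟩
        intro α hα β hβ hne k l hkl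
        rcases (hVm α).1 hα with hα | hα <;> rcases (hVm β).1 hβ with hβ | hβ
        · obtain ⟨b, hb⟩ := p.inter i α β hα hβ hne k l hkl
          exact ⟨b, (hUm _ _).2 (Or.inl hb)⟩
        · exact hmix α β hα hβ hne k l hkl
        · obtain ⟨b, hb⟩ := hmix β α hβ hα hne.symm l k hkl.symm
          exact ⟨b, by rw [hkl]; exact hb⟩
        · obtain ⟨b, hb⟩ := a.inter i α β hα hβ hne k l hkl
          exact ⟨b, (hUm _ _).2 (Or.inr ⟨hau _ _ hb,
            ((C i).lt α (a.lim i α hα) k).trans (haB.2.2 i α hα)⟩)⟩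
    -- decisions of `q` are decisions of `q2`
    have hdq : ∀ α k b, Dec (ordF bk i) (bk i) q α k b → Dec (ordF bk i) (bk i) q2 α k b := by
      intro α k b h
      rw [ordF_eq] at h ⊢
      exact h.mono (LE'.trans_Iio i) hq2q
    let t1 : Cd K C := mkTop q2 i U V hvalid
    have ht1p : LE' bk (Set.Iic i) t1 (addS p (δ, n0) v hn0) := by
      refine mkTop_le (LE'.trans (low_Iio i) hq2 hq1) ?_ ?_ ?_
      · intro ξ b hb
        exact (hUm _ _).2 (Or.inl hb)
      · intro α hα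
        exact (hVm _).2 (Or.inl hα)
      · intro α hα k b hb
        have hα' : (i, α) ∈ p.w := hα
        show (i, (C i).c α k, b) ∈ p.u ∨ _
        rcases (hUm _ _).1 hb with h1 | ⟨h1, h2⟩
        · exact Or.inl h1
        · rcases lt_trichotomy α δ with h3 | h3 | h3
          · rcases hsd α ((hV0 α).2 ⟨hα', hζw α hα' h3⟩) k b h1 with h4 | h4
            · rcases mem_patU.1 h4 with h5 | ⟨h5, _⟩
              · exact Or.inl ((hU0 _ _).1 h5).1
              · exfalso
                obtain ⟨h6, ⟨_, l, hl⟩, h8⟩ := (hDmem _).1 h5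
                obtain ⟨c, hc⟩ := p.inter i α δ hα' h6 h3.ne k l hl.symm
                exact h8 c hc
            · exact Or.inr (hdq _ _ _ h4)
          · by_cases h4 : ∃ c, (i, (C i).c α k, c) ∈ p.u
            · obtain ⟨c, hc⟩ := h4
              left
              rw [hfnU _ _ _ hb ((hUm _ _).2 (Or.inl hc))]
              exact hc
            · right
              have hD' : (C i).c α k ∈ D := (hDmem _).2 ⟨by rw [← h3]; exact hα',
                ⟨h2, k, by rw [h3]⟩, fun c hc => h4 ⟨c, hc⟩⟩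
              have h5 : (i, (C i).c α k, decide ((C i).c α k ∈ A)) ∈ q.u :=
                hsu _ _ (mem_patU.2 (Or.inr ⟨hD', rfl⟩))
              rw [q.ufn _ _ _ _ h1 h5, h3]
              exact hA k (by rw [← h3]; exact hD')
          · obtain ⟨c, hc⟩ := hfull i α hα' h3 k (h2.trans hζδ)
            left
            rw [hfnU _ _ _ hb ((hUm _ _).2 (Or.inl hc))]
            exact hc
    have ht1a : LE' bk (Set.Iic i) t1 a := by
      refine mkTop_le (LE'.trans (low_Iio i) hq2q (hqa.mono hsub)) ?_ ?_ ?_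
      · intro ξ b hb
        exact (hUm _ _).2 (Or.inr ⟨hau ξ b hb, haB.2.1 i ξ b hb⟩)
      · intro α hα
        exact (hVm _).2 (Or.inr hα)
      · intro α hα k b hb
        have hpt : (C i).c α k < ζ := ((C i).lt α (a.lim i α hα) k).trans (haB.2.2 i α hα)
        have h1 : (i, (C i).c α k, b) ∈ q.u := by
          rcases (hUm _ _).1 hb with h1 | h1
          · exact hpq _ _ h1 hpt
          · exact h1.1
        rcases (hqa.2 i hii).2.2 α hα k b h1 with h2 | h2
        · exact Or.inl h2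
        · exact Or.inr (hdq _ _ _ h2)
    have ht1y : t1 ∈ opA bk I y i Kb := hnn1.mono Kb a t1 hak ht1a
    obtain ⟨a', ha', hak', hta'⟩ := ht1y
    obtain ⟨t, ht1, ht2, _⟩ := compat_of_disjoint (bk := bk) (I := I) (low_Iic i) ht1p hta' (by
      intro j hj hji hjp hja
      have h1 : j ∈ coords p := hjp
      exact hji (himax' j ((hF j).2 ⟨h1, hcl.crd _ hy a' ha' j hja, hj⟩)))
    exact ⟨t, ht1, hnn.mono Kb a' t hak' ht2⟩

end

end Pool.Agent.Ladder
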