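import Pool.Agent.Lib.MP_62a69e_lc.RO
import Pool.Agent.Lib.MP_62a69e_lc.Basic

/-!
# The finite support iteration

Conditions are finite objects; only the order refers (recursively) to the names handled by the
bookkeeping. Coordinate `i` adds a function `ω₁ → 2` uniformizing the colouring given by the
name `bk i`; the part `s` is a finite piece of a Cohen-generic `ω`-colouring.
-/

set_option autoImplicit false
set_option linter.unusedSectionVars false
set_option linter.unusedVariables false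

namespace Pool.Agent.Ladder

/-- Conditions. -/
@[ext] structure Cd (K : Type) (C : K → LadderSystem) where
  s : Finset ((W × ℕ) × ℕ)
  u : Finset (K × W × Bool)
  w : Finset (K × W)
  sfn : ∀ x k k', (x, k) ∈ s → (x, k') ∈ s → k = k'
  ufn : ∀ i ξ b b', (i, ξ, b) ∈ u → (i, ξ, b') ∈ u → b = b'
  lim : ∀ i α, (i, α) ∈ w → IsLim α
  inter : ∀ i α β, (i, α) ∈ w → (i, β) ∈ w → α ≠ β → ∀ n m, (C i).c α n = (C i).c β m →
    ∃ b, (i, (C i).c α n, b) ∈ u

/-- Codes of names of two-valued colourings: for each `(α, n)` a sequence of conditions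
generating the value `1`. -/
abbrev Code (K : Type) (C : K → LadderSystem) : Type := W × ℕ → ℕ → Option (Cd K C)

section
variable {K : Type} {C : K → LadderSystem}

/-- `q` decides the value at `(α, n)` of the name coded by `S` to be `b`, with respect to the
order `R`. -/
def Dec (R : Cd K C → Cd K C → Prop) (S : Code K C) (q : Cd K C) (α : W) (n : ℕ) (b : Bool) :
    Prop :=
  (b = true → ∀ r, R r q → ∃ r', R r' r ∧ ∃ m a, S (α, n) m = some a ∧ R r' a) ∧
  (b = false → ∀ r, R r q → ∀ m a, S (α, n) m = some a → ¬ R r a)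

/-- The order at coordinate `i`. -/
def Step (i : K) (R : Cd K C → Cd K C → Prop) (S : Code K C) (q p : Cd K C) : Prop :=
  (∀ ξ b, (i, ξ, b) ∈ p.u → (i, ξ, b) ∈ q.u) ∧ (∀ α, (i, α) ∈ p.w → (i, α) ∈ q.w) ∧
  ∀ α, (i, α) ∈ p.w → ∀ n b, (i, (C i).c α n, b) ∈ q.u → (i, (C i).c α n, b) ∈ p.u ∨ Dec R S q α n b

variable [LinearOrder K] [WellFoundedLT K] (bk : K → Code K C)

/-- The order on conditions restricted to coordinates below `i`. -/
def ordF : K → Cd K C → Cd K C → Prop :=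
  (wellFounded_lt (α := K)).fix fun _ rec q p =>
    p.s ⊆ q.s ∧ ∀ j (h : _), Step j (rec j h) (bk j) q p

/-- The order on conditions restricted to coordinates in `I`. -/
def LE' (I : Set K) (q p : Cd K C) : Prop :=
  p.s ⊆ q.s ∧ ∀ i ∈ I, Step i (ordF bk i) (bk i) q p

theorem ordF_eq (i : K) : ordF bk i = LE' bk (Set.Iio i) := by
  funext q p
  unfold ordF
  rw [(wellFounded_lt (α := K)).fix_eq]
  rfl

theorem LE'.refl (I : Set K) (p : Cd K C) : LE' bk I p p :=
  ⟨subset_rfl, fun _ _ => ⟨fun _ _ h => h, fun _ h => h, fun _ _ _ _ h => Or.inl h⟩⟩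

variable {bk}

theorem LE'.mono {I I' : Set K} (hI : I' ⊆ I) {q p : Cd K C} (h : LE' bk I q p) :
    LE' bk I' q p := ⟨h.1, fun i hi => h.2 i (hI hi)⟩

theorem Dec.mono {R : Cd K C → Cd K C → Prop} (hR : ∀ a b c, R a b → R b c → R a c)
    {S : Code K C} {q r : Cd K C} (hrq : R r q) {α : W} {n : ℕ} {b : Bool}
    (h : Dec R S q α n b) : Dec R S r α n b :=
  ⟨fun hb t ht => h.1 hb t (hR _ _ _ ht hrq), fun hb t ht => h.2 hb t (hR _ _ _ ht hrq)⟩

/-- lower sets of coordinates -/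
def Low (I : Set K) : Prop := ∀ i ∈ I, ∀ j, j < i → j ∈ I

theorem low_Iio (i : K) : Low (Set.Iio i) := fun _ hj _ hk => lt_trans hk hj
theorem low_Iic (i : K) : Low (Set.Iic i) := fun _ hj _ hk => (le_of_lt hk).trans hj
theorem low_univ : Low (Set.univ : Set K) := fun _ _ _ _ => trivial

theorem Low.Iio_subset {I : Set K} (hI : Low I) {i : K} (hi : i ∈ I) : Set.Iio i ⊆ I :=
  fun j hj => hI i hi j hj

theorem LE'.trans_aux (I : Set K) (hI : Low I)
    (htr : ∀ i ∈ I, ∀ a b c : Cd K C, LE' bk (Set.Iio i) a b → LE' bk (Set.Iio i) b c →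
      LE' bk (Set.Iio i) a c)
    {r q p : Cd K C} (h : LE' bk I r q) (h' : LE' bk I q p) : LE' bk I r p := by
  refine ⟨h'.1.trans h.1, fun i hi => ?_⟩
  obtain ⟨h1, h2, h3⟩ := h.2 i hi
  obtain ⟨h1', h2', h3'⟩ := h'.2 i hi
  refine ⟨fun ξ b hb => h1 ξ b (h1' ξ b hb), fun α hα => h2 α (h2' α hα), ?_⟩
  intro α hα n b hb
  rcases h3 α (h2' α hα) n b hb with h4 | h4
  · rcases h3' α hα n b h4 with h5 | h5
    · exact Or.inl h5
    · right
      rw [ordF_eq] at h5 ⊢
      exact h5.mono (htr i hi) (h.mono (hI.Iio_subset hi))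
  · exact Or.inr h4

theorem LE'.trans_Iio (i : K) : ∀ a b c : Cd K C, LE' bk (Set.Iio i) a b →
    LE' bk (Set.Iio i) b c → LE' bk (Set.Iio i) a c := by
  induction i using (wellFounded_lt (α := K)).induction with
  | _ i ih =>
    intro a b c h h'
    exact LE'.trans_aux (Set.Iio i) (low_Iio i) (fun j hj => ih j hj) h h'

theorem LE'.trans {I : Set K} (hI : Low I) {r q p : Cd K C} (h : LE' bk I r q)
    (h' : LE' bk I q p) : LE' bk I r p :=
  LE'.trans_aux I hI (fun i _ => LE'.trans_Iio i) h h'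

/-- The order for all coordinates. -/
def Po (_ : K → Code K C) : Type := Cd K C

instance : Preorder (Po bk) where
  le q p := LE' bk Set.univ q p
  le_refl p := LE'.refl bk _ p
  le_trans _ _ _ h h' := LE'.trans low_univ h h'

theorem Po.le_def {p q : Po bk} : q ≤ p ↔ LE' bk Set.univ q p := Iff.rfl

/-- `p` and `p'` have the same `s` and the same coordinates in `I`. -/
def Agree (I : Set K) (p p' : Cd K C) : Prop :=
  p.s = p'.s ∧ ∀ i ∈ I, (∀ ξ b, (i, ξ, b) ∈ p.u ↔ (i, ξ, b) ∈ p'.u) ∧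
    ∀ α, (i, α) ∈ p.w ↔ (i, α) ∈ p'.w

theorem Agree.symm {I : Set K} {p p' : Cd K C} (h : Agree I p p') : Agree I p' p :=
  ⟨h.1.symm, fun i hi => ⟨fun ξ b => ((h.2 i hi).1 ξ b).symm, fun α => ((h.2 i hi).2 α).symm⟩⟩

theorem Agree.le {I : Set K} {p p' : Cd K C} (h : Agree I p p') : LE' bk I p p' :=
  ⟨h.1.ge, fun i hi => ⟨fun ξ b hb => ((h.2 i hi).1 ξ b).2 hb,
    fun α hα => ((h.2 i hi).2 α).2 hα, fun α _ n b hb => Or.inl (((h.2 i hi).1 _ b).1 hb)⟩⟩

open Classical in
/-- `r` on the coordinates in `I` (and the Cohen part), `p` on the others. -/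
noncomputable def glue (I : Set K) (r p : Cd K C) : Cd K C where
  s := r.s
  u := r.u.filter (fun x => x.1 ∈ I) ∪ p.u.filter (fun x => x.1 ∉ I)
  w := r.w.filter (fun x => x.1 ∈ I) ∪ p.w.filter (fun x => x.1 ∉ I)
  sfn := r.sfn
  ufn := by
    intro i ξ b b' h h'
    simp only [Finset.mem_union, Finset.mem_filter] at h h'
    rcases h with h | h <;> rcases h' with h' | h'
    · exact r.ufn _ _ _ _ h.1 h'.1
    · exact absurd h.2 h'.2
    · exact absurd h'.2 h.2
    · exact p.ufn _ _ _ _ h.1 h'.1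
  lim := by
    intro i α h
    simp only [Finset.mem_union, Finset.mem_filter] at h
    rcases h with h | h
    · exact r.lim _ _ h.1
    · exact p.lim _ _ h.1
  inter := by
    intro i α β h h' hne n m hnm
    simp only [Finset.mem_union, Finset.mem_filter] at h h'
    rcases h with h | h <;> rcases h' with h' | h'
    · obtain ⟨b, hb⟩ := r.inter i α β h.1 h'.1 hne n m hnm
      exact ⟨b, by simp only [Finset.mem_union, Finset.mem_filter]; exact Or.inl ⟨hb, h.2⟩⟩
    · exact absurd h.2 h'.2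
    · exact absurd h'.2 h.2
    · obtain ⟨b, hb⟩ := p.inter i α β h.1 h'.1 hne n m hnm
      exact ⟨b, by simp only [Finset.mem_union, Finset.mem_filter]; exact Or.inr ⟨hb, h.2⟩⟩

theorem glue_s (I : Set K) (r p : Cd K C) : (glue I r p).s = r.s := rfl

theorem glue_u_in {I : Set K} {r p : Cd K C} {i : K} (hi : i ∈ I) (ξ : W) (b : Bool) :
    (i, ξ, b) ∈ (glue I r p).u ↔ (i, ξ, b) ∈ r.u := by
  simp only [glue, Finset.mem_union, Finset.mem_filter, hi, and_true, not_true, and_false,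
    or_false]

theorem glue_u_out {I : Set K} {r p : Cd K C} {i : K} (hi : i ∉ I) (ξ : W) (b : Bool) :
    (i, ξ, b) ∈ (glue I r p).u ↔ (i, ξ, b) ∈ p.u := by
  simp only [glue, Finset.mem_union, Finset.mem_filter, hi, and_true, and_false, false_or,
    not_false_eq_true]

theorem glue_w_in {I : Set K} {r p : Cd K C} {i : K} (hi : i ∈ I) (α : W) :
    (i, α) ∈ (glue I r p).w ↔ (i, α) ∈ r.w := by
  simp only [glue, Finset.mem_union, Finset.mem_filter, hi, and_true, not_true, and_false,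
    or_false]

theorem glue_w_out {I : Set K} {r p : Cd K C} {i : K} (hi : i ∉ I) (α : W) :
    (i, α) ∈ (glue I r p).w ↔ (i, α) ∈ p.w := by
  simp only [glue, Finset.mem_union, Finset.mem_filter, hi, and_true, and_false, false_or,
    not_false_eq_true]

theorem glue_agree (I : Set K) (r p : Cd K C) : Agree I (glue I r p) r :=
  ⟨rfl, fun _ hi => ⟨fun ξ b => glue_u_in hi ξ b, fun α => glue_w_in hi α⟩⟩

/-- transport of one coordinate of the order -/
theorem Step.congr {i : K} {q q' p p' : Cd K C} (h : Step i (ordF bk i) (bk i) q p)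
    (hle : LE' bk (Set.Iio i) q' q)
    (hqu : ∀ ξ b, (i, ξ, b) ∈ q'.u ↔ (i, ξ, b) ∈ q.u) (hqw : ∀ α, (i, α) ∈ q'.w ↔ (i, α) ∈ q.w)
    (hpu : ∀ ξ b, (i, ξ, b) ∈ p'.u ↔ (i, ξ, b) ∈ p.u) (hpw : ∀ α, (i, α) ∈ p'.w ↔ (i, α) ∈ p.w) :
    Step i (ordF bk i) (bk i) q' p' := by
  obtain ⟨h1, h2, h3⟩ := h
  refine ⟨fun ξ b hb => (hqu ξ b).2 (h1 ξ b ((hpu ξ b).1 hb)),
    fun α hα => (hqw α).2 (h2 α ((hpw α).1 hα)), fun α hα n b hb => ?_⟩
  rcases h3 α ((hpw α).1 hα) n b ((hqu _ b).1 hb) with h4 | h4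
  · exact Or.inl ((hpu _ b).2 h4)
  · right
    rw [ordF_eq] at h4 ⊢
    exact h4.mono (LE'.trans_Iio i) hle

theorem Step.of_eq {i : K} {R : Cd K C → Cd K C → Prop} {S : Code K C} {q p : Cd K C}
    (hu : ∀ ξ b, (i, ξ, b) ∈ q.u ↔ (i, ξ, b) ∈ p.u) (hw : ∀ α, (i, α) ∈ q.w ↔ (i, α) ∈ p.w) :
    Step i R S q p :=
  ⟨fun ξ b hb => (hu ξ b).2 hb, fun α hα => (hw α).2 hα, fun _ _ _ b hb => Or.inl ((hu _ b).1 hb)⟩

/-- If `r` is below `p` on the lower set `I`, then `r` on `I` together with `p` outside `I` is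
below `p`. -/
theorem glue_le {I J : Set K} (hI : Low I) {r p : Cd K C} (h : LE' bk I r p) :
    LE' bk J (glue I r p) p := by
  refine ⟨h.1, fun i _ => ?_⟩
  by_cases hi : i ∈ I
  · refine (h.2 i hi).congr ?_ (fun ξ b => glue_u_in hi ξ b) (fun α => glue_w_in hi α)
      (fun _ _ => Iff.rfl) (fun _ => Iff.rfl)
    exact ((glue_agree I r p).le).mono (hI.Iio_subset hi)
  · exact Step.of_eq (fun ξ b => glue_u_out hi ξ b) (fun α => glue_w_out hi α)

theorem glue_le_left {I : Set K} {r p : Cd K C} : LE' bk I (glue I r p) r :=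
  (glue_agree I r p).le

/-- Every value of the name at coordinate `i` can be decided by extending below `i`. -/
theorem exists_dec_below (i : K) (p : Cd K C) (α : W) (n : ℕ) :
    ∃ r, LE' bk (Set.Iio i) r p ∧ ∃ b, Dec (ordF bk i) (bk i) r α n b := by
  rw [ordF_eq]
  by_cases h : ∃ r, LE' bk (Set.Iio i) r p ∧ ∃ m a, bk i (α, n) m = some a ∧
      LE' bk (Set.Iio i) r a
  · obtain ⟨r, hr, m, a, hm, hra⟩ := h
    refine ⟨r, hr, true, fun _ t ht => ⟨t, LE'.refl bk _ t, m, a, hm, LE'.trans_Iio i _ _ _ ht hra⟩,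
      fun hb => absurd hb (by simp)⟩
  · refine ⟨p, LE'.refl bk _ p, false, fun hb => absurd hb (by simp), fun _ r hr m a hm hra => ?_⟩
    exact h ⟨r, hr, m, a, hm, hra⟩

open Classical in
/-- Adding the point `(i, ξ, b)` to `p`, if `ξ` is not yet in the domain at coordinate `i`. -/
noncomputable def addU (p : Cd K C) (i : K) (ξ : W) (b : Bool)
    (h : ∀ b', (i, ξ, b') ∉ p.u) : Cd K C where
  s := p.s
  u := insert (i, ξ, b) p.u
  w := p.w
  sfn := p.sfn
  ufn := by
    intro j η c c' h1 h2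
    rw [Finset.mem_insert] at h1 h2
    rcases h1 with h1 | h1 <;> rcases h2 with h2 | h2
    · simp only [Prod.mk.injEq] at h1 h2
      rw [h1.2.2, h2.2.2]
    · simp only [Prod.mk.injEq] at h1
      rw [h1.1, h1.2.1] at h2
      exact absurd h2 (h _)
    · simp only [Prod.mk.injEq] at h2
      rw [h2.1, h2.2.1] at h1
      exact absurd h1 (h _)
    · exact p.ufn _ _ _ _ h1 h2
  lim := p.lim
  inter := fun j α β h1 h2 hne n m hnm => by
    obtain ⟨c, hc⟩ := p.inter j α β h1 h2 hne n m hnm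
    exact ⟨c, Finset.mem_insert_of_mem hc⟩

/-- One point can be added to the domain of coordinate `i` by an extension that changes only
coordinates `≤ i` and adds nothing else at coordinate `i`. -/
theorem exists_add_point (p : Cd K C) (i : K) (ξ : W) :
    ∃ p', LE' bk Set.univ p' p ∧ (∃ b, (i, ξ, b) ∈ p'.u) ∧
      (∀ η b, (i, η, b) ∈ p'.u → (i, η, b) ∈ p.u ∨ η = ξ) ∧
      (∀ α, (i, α) ∈ p'.w ↔ (i, α) ∈ p.w) ∧
      (∀ j, i < j → (∀ η b, (j, η, b) ∈ p'.u ↔ (j, η, b) ∈ p.u) ∧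
        ∀ α, (j, α) ∈ p'.w ↔ (j, α) ∈ p.w) := by
  classical
  by_cases hξ : ∃ b, (i, ξ, b) ∈ p.u
  · exact ⟨p, LE'.refl bk _ p, hξ, fun η b h => Or.inl h, fun α => Iff.rfl,
      fun j _ => ⟨fun _ _ => Iff.rfl, fun _ => Iff.rfl⟩⟩
  -- extend below `i` so as to decide the value
  obtain ⟨r, hr, b, hb⟩ : ∃ r, LE' bk (Set.Iio i) r p ∧ ∃ b, ∀ α, (i, α) ∈ p.w → ∀ n,
      (C i).c α n = ξ → Dec (ordF bk i) (bk i) r α n b := by
    by_cases hex : ∃ α, (i, α) ∈ p.w ∧ ∃ n, (C i).c α n = ξ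
    · obtain ⟨α, hα, n, hn⟩ := hex
      obtain ⟨r, hr, b, hb⟩ := exists_dec_below (bk := bk) i p α n
      refine ⟨r, hr, b, fun β hβ m hm => ?_⟩
      by_cases hαβ : α = β
      · subst hαβ
        have : n = m := ((C i).mono α (p.lim i α hα)).injective (hn.trans hm.symm)
        rw [← this]; exact hb
      · exfalso
        obtain ⟨c, hc⟩ := p.inter i α β hα hβ hαβ n m (hn.trans hm.symm)
        rw [hn] at hc
        exact hξ ⟨c, hc⟩
    · exact ⟨p, LE'.refl bk _ p, true, fun α hα n hn => (hex ⟨α, hα, n, hn⟩).elim⟩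
  let g : Cd K C := glue (Set.Iio i) r p
  have hii : i ∉ Set.Iio i := fun h => lt_irrefl i h
  have hgu : ∀ b', (i, ξ, b') ∉ g.u := fun b' h => hξ ⟨b', (glue_u_out hii ξ b').1 h⟩
  refine ⟨addU g i ξ b hgu, ?_, ⟨b, Finset.mem_insert_self _ _⟩, ?_, ?_, ?_⟩
  · -- the order
    have h1 : LE' bk Set.univ g p := glue_le (low_Iio i) hr
    refine ⟨h1.1, fun j _ => ?_⟩
    obtain ⟨h2, h3, h4⟩ := h1.2 j trivial
    -- the new condition agrees with `g` below `i`
    have hag : Agree (Set.Iio i) (addU g i ξ b hgu) g := by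
      refine ⟨rfl, fun l hl => ⟨fun η c => ?_, fun α => Iff.rfl⟩⟩
      show (l, η, c) ∈ insert (i, ξ, b) g.u ↔ _
      rw [Finset.mem_insert]
      constructor
      · rintro (h | h)
        · simp only [Prod.mk.injEq] at h
          have : l < i := hl
          rw [h.1] at this
          exact absurd this (lt_irrefl i)
        · exact h
      · exact Or.inr
    refine ⟨fun η c hc => Finset.mem_insert_of_mem (h2 η c hc), h3, ?_⟩
    intro α hα n c hc
    have hc' : (j, (C j).c α n, c) ∈ insert (i, ξ, b) g.u := hc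
    rw [Finset.mem_insert] at hc'
    rcases hc' with hc' | hc'
    · simp only [Prod.mk.injEq] at hc'
      obtain ⟨rfl, hξ', rfl⟩ := hc'
      right
      have h5 := hb α hα n hξ'
      rw [ordF_eq] at h5 ⊢
      refine h5.mono (LE'.trans_Iio _) ?_
      exact LE'.trans (low_Iio _) hag.le glue_le_left
    · by_cases hj : j ≤ i
      · rcases h4 α hα n c hc' with h5 | h5
        · exact Or.inl h5
        · right
          rw [ordF_eq] at h5 ⊢
          refine h5.mono (LE'.trans_Iio _) ?_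
          exact hag.le.mono (fun l hl => lt_of_lt_of_le hl hj)
      · left
        have hj' : j ∉ Set.Iio i := fun h => hj (le_of_lt h)
        exact (glue_u_out hj' _ _).1 hc'
  · intro η c hc
    have hc' : (i, η, c) ∈ insert (i, ξ, b) g.u := hc
    rw [Finset.mem_insert] at hc'
    rcases hc' with hc' | hc'
    · simp only [Prod.mk.injEq, true_and] at hc'
      exact Or.inr hc'.1
    · exact Or.inl ((glue_u_out hii _ _).1 hc')
  · intro α
    exact glue_w_out hii α
  · intro j hj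
    have hj' : j ∉ Set.Iio i := fun h => absurd hj (not_lt.2 (le_of_lt h))
    refine ⟨fun η c => ?_, fun α => glue_w_out hj' α⟩
    show (j, η, c) ∈ insert (i, ξ, b) g.u ↔ _
    rw [Finset.mem_insert]
    constructor
    · rintro (h | h)
      · simp only [Prod.mk.injEq] at h
        exact absurd h.1 (ne_of_gt hj)
      · exact (glue_u_out hj' η c).1 h
    · intro h
      exact Or.inr ((glue_u_out hj' η c).2 h)

theorem exists_add_points (p : Cd K C) (i : K) (Ξ : Finset W) :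
    ∃ p', LE' bk Set.univ p' p ∧ (∀ ξ ∈ Ξ, ∃ b, (i, ξ, b) ∈ p'.u) ∧
      (∀ η b, (i, η, b) ∈ p'.u → (i, η, b) ∈ p.u ∨ η ∈ Ξ) ∧
      (∀ α, (i, α) ∈ p'.w ↔ (i, α) ∈ p.w) ∧
      (∀ j, i < j → (∀ η b, (j, η, b) ∈ p'.u ↔ (j, η, b) ∈ p.u) ∧
        ∀ α, (j, α) ∈ p'.w ↔ (j, α) ∈ p.w) := by
  classical
  induction Ξ using Finset.induction_on with
  | empty => exact ⟨p, LE'.refl bk _ p, fun ξ h => absurd h (Finset.notMem_empty _),
      fun η b h => Or.inl h, fun α => Iff.rfl, fun j _ => ⟨fun _ _ => Iff.rfl, fun _ => Iff.rfl⟩⟩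
  | @insert ξ Ξ _ ih =>
    obtain ⟨p1, h1, h2, h3, h4, h5⟩ := ih
    obtain ⟨p2, g1, g2, g3, g4, g5⟩ := exists_add_point (bk := bk) p1 i ξ
    refine ⟨p2, LE'.trans low_univ g1 h1, ?_, ?_, fun α => (g4 α).trans (h4 α), fun j hj =>
      ⟨fun η b => ((g5 j hj).1 η b).trans ((h5 j hj).1 η b),
        fun α => ((g5 j hj).2 α).trans ((h5 j hj).2 α)⟩⟩
    · intro η hη
      rw [Finset.mem_insert] at hη
      rcases hη with rfl | hη
      · exact g2
      · obtain ⟨b, hb⟩ := h2 η hη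
        exact ⟨b, (g1.2 i trivial).1 η b hb⟩
    · intro η b hb
      rcases g3 η b hb with h | h
      · rcases h3 η b h with h | h
        · exact Or.inl h
        · exact Or.inr (Finset.mem_insert_of_mem h)
      · exact Or.inr (by rw [h]; exact Finset.mem_insert_self _ _)

end

end Pool.Agent.Ladder
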