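import Pool.Agent.Lib.MP_62a69e_lc.FSBr
import Pool.Agent.Lib.MP_62a69e_lc.FSCard
import Pool.Agent.Lib.MP_62a69e_lc.FSTree

/-! # Two-valued colourings are uniformized in the extension by the iteration -/

set_option autoImplicit false
set_option linter.unusedSectionVars false

namespace Pool.Agent.Ladder

open Cardinal

section
variable {K : Type} {C : K → LadderSystem} [LinearOrder K] [WellFoundedLT K] {bk : K → Code K C}

open Classical in
/-- Adding the promise `(i, α)` to `p`. -/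
noncomputable def addW (p : Cd K C) (i : K) (α : W) (hα : IsLim α)
    (h : ∀ β, (i, β) ∈ p.w → α ≠ β → ∀ n m, (C i).c α n = (C i).c β m → ∃ b, (i, (C i).c α n, b) ∈ p.u) :
    Cd K C where
  s := p.s
  u := p.u
  w := insert (i, α) p.w
  sfn := p.sfn
  ufn := p.ufn
  lim := by
    intro j β h1
    rw [Finset.mem_insert] at h1
    rcases h1 with h1 | h1
    · simp only [Prod.mk.injEq] at h1
      rw [h1.2]; exact hα
    · exact p.lim j β h1
  inter := by
    intro j β γ h1 h2 hne n m hnm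
    rw [Finset.mem_insert] at h1 h2
    rcases h1 with h1 | h1 <;> rcases h2 with h2 | h2
    · simp only [Prod.mk.injEq] at h1 h2
      exact (hne (h1.2.trans h2.2.symm)).elim
    · simp only [Prod.mk.injEq] at h1
      obtain ⟨rfl, rfl⟩ := h1
      exact h γ h2 hne n m hnm
    · simp only [Prod.mk.injEq] at h2
      obtain ⟨rfl, rfl⟩ := h2
      obtain ⟨b, hb⟩ := h β h1 hne.symm m n hnm.symm
      exact ⟨b, by rw [hnm]; exact hb⟩
    · exact p.inter j β γ h1 h2 hne n m hnm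

/-- The common points of two different ladders form a finite set. -/
theorem finite_ladder_inter (C : LadderSystem) {α β : W} (hα : IsLim α) (hβ : IsLim β)
    (hne : α ≠ β) : {ξ | ∃ n m, C.c α n = ξ ∧ C.c β m = ξ}.Finite := by
  rcases lt_or_gt_of_ne hne with h | h
  · refine (finite_ladder_below' C hβ h).subset ?_
    rintro ξ ⟨n, m, h1, h2⟩
    exact ⟨by rw [← h1]; exact C.lt α hα n, m, h2⟩
  · refine (finite_ladder_below' C hα h).subset ?_
    rintro ξ ⟨n, m, h1, h2⟩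
    exact ⟨by rw [← h2]; exact C.lt β hβ m, n, h1⟩

variable (bk) in
/-- Promises can be made. -/
theorem exists_add_promise (p : Cd K C) (i : K) {α : W} (hα : IsLim α) :
    ∃ q, LE' bk Set.univ q p ∧ (i, α) ∈ q.w := by
  classical
  have hfin : {ξ | ∃ β ∈ wAt p i, α ≠ β ∧ ∃ n m, (C i).c α n = ξ ∧ (C i).c β m = ξ}.Finite := by
    have : {ξ | ∃ β ∈ wAt p i, α ≠ β ∧ ∃ n m, (C i).c α n = ξ ∧ (C i).c β m = ξ} ⊆
        ⋃ β ∈ {β | β ∈ wAt p i ∧ α ≠ β}, {ξ | ∃ n m, (C i).c α n = ξ ∧ (C i).c β m = ξ} := by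
      rintro ξ ⟨β, h1, h2, h3⟩
      exact Set.mem_biUnion (x := β) ⟨h1, h2⟩ h3
    refine Set.Finite.subset (Set.Finite.biUnion ((wAt p i).finite_toSet.subset fun β h => h.1) ?_)
      this
    intro β hβ
    exact finite_ladder_inter (C i) hα (p.lim i β (mem_wAt.1 hβ.1)) hβ.2
  obtain ⟨p', h1, h2, _, h4, _⟩ := exists_add_points (bk := bk) p i hfin.toFinset
  refine ⟨addW p' i α hα ?_, ?_, Finset.mem_insert_self _ _⟩
  · intro β hβ hne n m hnm
    exact h2 _ (hfin.mem_toFinset.2 ⟨β, mem_wAt.2 ((h4 β).1 hβ), hne, n, m, rfl, hnm.symm⟩)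
  · refine LE'.trans low_univ ?_ h1
    refine ⟨subset_rfl, fun j _ => ⟨fun _ _ h => h, fun β h => Finset.mem_insert_of_mem h,
      fun _ _ _ _ h => Or.inl h⟩⟩

variable (bk) in
/-- The value `b` at `ξ` of the generic function at coordinate `j`. -/
noncomputable def uVal (j : K) (ξ : W) (b : Bool) : RO (Po bk) :=
  RO.mk' (P := Po bk) (fun p => (j, ξ, b) ∈ (p : Cd K C).u) (by
    intro p q h hle
    exact (hle.2 j trivial).1 ξ b h)

variable (bk) in
/-- The generic function at coordinate `j`, as a name for a function `T → ω`. -/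
noncomputable def genFun (j : K) {T : Type} [PartialOrder T] (tr : OTree T) :
    BFun (RO (Po bk)) T ℕ where
  val t k := ⨆ b : Bool, ⨆ (_ : b.toNat = k), uVal bk j (tr.ht t) b
  disj := by
    intro t k k' hne
    refine RO.eq_bot_iff'.2 fun p hp => ?_
    obtain ⟨h1, h2⟩ := hp
    obtain ⟨q, hq, b, hb⟩ := RO.mem_iSup.1 h1 p le_rfl
    obtain ⟨q1, hq1, hbk, hb⟩ := RO.mem_iSup.1 hb q le_rfl
    obtain ⟨q2, hq2, b', hb'⟩ := RO.mem_iSup.1 (RO.mem_of_le h2 (hq1.trans hq)) q1 le_rfl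
    obtain ⟨q3, hq3, hbk', hb'⟩ := RO.mem_iSup.1 hb' q2 le_rfl
    obtain ⟨r, hr, hr'⟩ := RO.mem_mk'.1 (RO.mem_of_le hb (hq3.trans hq2)) q3 le_rfl
    obtain ⟨r2, hr2, hr2'⟩ := RO.mem_mk'.1 (RO.mem_of_le hb' hr) r le_rfl
    have h3 : (j, tr.ht t, b) ∈ (r2 : Cd K C).u := (hr2.2 j trivial).1 _ _ hr'
    have h4 := Cd.ufn r2 _ _ _ _ h3 hr2'
    apply hne
    rw [← hbk, ← hbk', h4]
  total := by
    intro t
    refine RO.eq_top_iff'.2 fun p => RO.mem_iSup.2 fun q _ => ?_
    obtain ⟨r, hr, ⟨b, hb⟩, _⟩ := exists_add_point (bk := bk) q j (tr.ht t)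
    refine ⟨r, hr, b.toNat, RO.mem_iSup.2 fun r1 hr1 => ⟨r1, le_rfl, b, ?_⟩⟩
    refine RO.mem_iSup.2 fun r2 hr2 => ⟨r2, le_rfl, rfl, ?_⟩
    exact RO.mem_of_le (RO.mem_mk'_of (P := Po bk) (p := r) hb) (hr2.trans hr1)

theorem mem_genFun {j : K} {T : Type} [PartialOrder T] {tr : OTree T} {t : T} {b : Bool}
    {p : Po bk} (h : (j, tr.ht t, b) ∈ (p : Cd K C).u) : p ∈ (genFun bk j tr).val t b.toNat := by
  refine RO.mem_iSup.2 fun r1 hr1 => ⟨r1, le_rfl, b, ?_⟩
  refine RO.mem_iSup.2 fun r2 hr2 => ⟨r2, le_rfl, rfl, ?_⟩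
  exact RO.mem_of_le (RO.mem_mk'_of (P := Po bk) h) (hr2.trans hr1)

end

/-- Enumeration of a countable set, allowing gaps. -/
theorem exists_option_enum {X : Type} {Z : Set X} (hZ : Z.Countable) :
    ∃ f : ℕ → Option X, ∀ x, x ∈ Z ↔ ∃ m, f m = some x := by
  classical
  rcases Z.eq_empty_or_nonempty with h0 | hne
  · refine ⟨fun _ => none, fun x => ?_⟩
    simp [h0]
  · obtain ⟨g, hg⟩ := hZ.exists_eq_range hne
    refine ⟨fun m => some (g m), fun x => ?_⟩
    rw [hg]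
    simp

section
variable {C : KK → LadderSystem} {bk : KK → Code KK C}

/-- **Every name of a two-valued colouring is uniformized by one of the generic functions.** -/
theorem exists_unif_two_Po
    (hbk : ∀ (L : LadderSystem) (S : Code KK C) (i : KK), ∃ j, i < j ∧ C j = L ∧ bk j = S)
    (L : LadderSystem) {T : Type} [PartialOrder T] (tr : OTree T)
    (hc : ∀ ξ, {t | tr.ht t = ξ}.Nonempty ∧ {t | tr.ht t = ξ}.Countable)
    (f : BFun (RO (Po bk)) (W × ℕ) ℕ) (hf : ∀ x k, 2 ≤ k → f.val x k = ⊥) :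
    ∃ (S : T → RO (Po bk)) (φ : BFun (RO (Po bk)) T ℕ), unifVal L tr f S φ = ⊤ := by
  classical
  -- countable names
  have hZ : ∀ x : W × ℕ, ∃ Z : Set (Cd KK C), (∀ a ∈ Z, (a : Po bk) ∈ f.val x 1) ∧ Z.Countable ∧
      ∀ d : Po bk, d ∈ f.val x 1 → ∃ z ∈ Z, ∃ r, LE' bk Set.univ r d ∧ LE' bk Set.univ r z := by
    intro x
    obtain ⟨Z, hZD, hZc, hZp⟩ := (kn_low (bk := bk) low_univ).exists_countable_predense
      (fun p => LE'.refl bk _ p) {p : Cd KK C | Membership.mem (γ := RO (Po bk)) (f.val x 1) p}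
    exact ⟨Z, fun a ha => hZD ha, hZc, fun d hd => hZp d hd⟩
  choose Z hZA hZc hZp using hZ
  choose Sn hSn using fun x => exists_option_enum (hZc x)
  -- a bound for the coordinates
  obtain ⟨j0, hj0⟩ : ∃ j0 : KK, ∀ x m a, Sn x m = some a → ∀ i ∈ coords a, i < j0 := by
    have h1 : ∀ y : (W × ℕ) × ℕ, ∃ j : KK, ∀ a, Sn y.1 y.2 = some a → ∀ i ∈ coords a, i < j := by
      intro y
      rcases h : Sn y.1 y.2 with _ | a
      · exact ⟨Classical.arbitrary KK, fun a ha => by simp at ha⟩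
      · obtain ⟨j, hj⟩ := exists_gt_KK (coords a : Set KK) (by
          refine (Cardinal.mk_le_aleph0_iff.2 ?_).trans (aleph0_le_aleph 1)
          exact (Finset.countable_toSet _).to_subtype)
        refine ⟨j, fun a' ha' i hi => hj i ?_⟩
        simp only [Option.some.injEq] at ha'
        rw [ha']; exact Finset.mem_coe.2 hi
    choose g hg using h1
    obtain ⟨j0, hj0⟩ := exists_gt_KK_range (ι := (W × ℕ) × ℕ) (by
      simp only [mk_prod, Cardinal.lift_id, mk_nat, mk_W]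
      rw [mul_aleph0_eq (aleph0_le_aleph 1), mul_aleph0_eq (aleph0_le_aleph 1)]) g
    exact ⟨j0, fun x m a ha i hi => (hg (x, m) a ha i hi).trans (hj0 (x, m))⟩
  obtain ⟨j, hj, hCj, hbj⟩ := hbk L Sn j0
  subst hCj
  -- decisions of the name at coordinate `j`
  have htrue : ∀ (r : Po bk) (α : W) (n : ℕ), Dec (ordF bk j) (bk j) r α n true →
      r ∈ f.val (α, n) 1 := by
    intro r α n h
    refine RO.mem_iff_dense.2 fun q hq => ?_
    have h1 := h.1 rfl q (by rw [ordF_eq]; exact hq.mono (Set.subset_univ _))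
    rw [ordF_eq] at h1
    obtain ⟨r', hr', m, a, hm, hra⟩ := h1
    rw [hbj] at hm
    have h2 : LE' bk Set.univ (glue (Set.Iio j) r' q) q := glue_le (low_Iio j) hr'
    have h3 : LE' bk Set.univ (glue (Set.Iio j) r' q) a := by
      refine ⟨hra.1, fun i _ => ?_⟩
      by_cases hi : i ∈ coords a
      · have hij : i ∈ Set.Iio j := (hj0 (α, n) m a hm i hi).trans hj
        refine (hra.2 i hij).congr ?_ (fun ξ b => glue_u_in hij ξ b) (fun α => glue_w_in hij α)
          (fun _ _ => Iff.rfl) (fun _ => Iff.rfl)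
        exact glue_le_left.mono (fun l hl => lt_trans (b := i) hl hij)
      · exact ⟨fun ξ b hb => (hi (mem_coords_u hb)).elim, fun β hβ => (hi (mem_coords_w hβ)).elim,
          fun β hβ => (hi (mem_coords_w hβ)).elim⟩
    refine ⟨glue (Set.Iio j) r' q, h2, ?_⟩
    have h4 : (a : Po bk) ∈ f.val (α, n) 1 := hZA (α, n) a ((hSn (α, n) a).2 ⟨m, hm⟩)
    exact RO.mem_of_le h4 h3
  have hfalse : ∀ (r : Po bk) (α : W) (n : ℕ), Dec (ordF bk j) (bk j) r α n false →
      r ∈ f.val (α, n) 0 := by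
    intro r α n h
    have hcomp : r ∈ (f.val (α, n) 1)ᶜ := by
      refine RO.mem_compl.2 fun q hq hqA => ?_
      obtain ⟨z, hz, t, ht1, ht2⟩ := hZp (α, n) q hqA
      obtain ⟨m, hm⟩ := (hSn (α, n) z).1 hz
      refine h.2 rfl t ?_ m z (by rw [hbj]; exact hm) ?_
      · rw [ordF_eq]
        exact (LE'.trans low_univ ht1 hq).mono (Set.subset_univ _)
      · rw [ordF_eq]
        exact ht2.mono (Set.subset_univ _)
    refine RO.mem_iff_dense.2 fun q hq => ?_
    have h1 : q ∈ ⨆ k, f.val (α, n) k := by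
      rw [f.total]; exact RO.mem_top
    obtain ⟨r', hr', k, hk⟩ := RO.mem_iSup.1 h1 q le_rfl
    refine ⟨r', hr', ?_⟩
    rcases k with _ | k
    · exact hk
    · rcases k with _ | k
      · exact (RO.mem_compl.1 hcomp r' (hr'.trans hq) hk).elim
      · rw [hf (α, n) (k + 1 + 1) (by omega)] at hk
        exact (RO.mem_bot hk).elim
  let S : T → RO (Po bk) := fun t => if t ∈ (OTree.core : Set T) then ⊤ else ⊥
  refine ⟨S, genFun bk j tr, ?_⟩
  unfold unifVal
  rw [subtreeVal_core tr hc S (fun t ht => if_pos ht) (fun t ht => if_neg ht), top_inf_eq]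
  simp only [iInf_eq_top]
  intro s hs
  refine RO.eq_top_iff'.2 fun p0 => RO.mem_himp.2 fun p1 _ _ => RO.mem_iSup.2 fun p _ => ?_
  -- `p` is an arbitrary condition
  obtain ⟨q, hq, hqw⟩ := exists_add_promise bk (p : Cd KK C) j hs
  -- beyond `N` no point of the ladder is in the domain
  obtain ⟨N, hN⟩ : ∃ N, ∀ n, N ≤ n → ∀ b, (j, (C j).c (tr.ht s) n, b) ∉ q.u := by
    have hinj : Function.Injective ((C j).c (tr.ht s)) := ((C j).mono _ hs).injective
    have hfin : {n | ∃ b, (j, (C j).c (tr.ht s) n, b) ∈ q.u}.Finite := by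
      have h1 : ((uAt q j).image Prod.fst : Set W).Finite := Finset.finite_toSet _
      refine (h1.preimage (f := (C j).c (tr.ht s)) hinj.injOn).subset ?_
      rintro n ⟨b, hb⟩
      simp only [Set.mem_preimage, Finset.coe_image, Set.mem_image]
      exact ⟨((C j).c (tr.ht s) n, b), Finset.mem_coe.2 (mem_uAt.2 hb), rfl⟩
    obtain ⟨N, hN⟩ := hfin.bddAbove
    refine ⟨N + 1, fun n hn b hb => ?_⟩
    have := hN ⟨b, hb⟩
    omega
  refine ⟨q, hq, N, RO.mem_iInf.2 fun n => RO.mem_iInf.2 fun hn => RO.mem_iSup.2 fun q' hq' => ?_⟩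
  obtain ⟨r, hr, ⟨b, hb⟩, _⟩ := exists_add_point (bk := bk) q' j ((C j).c (tr.ht s) n)
  have hrq : LE' bk Set.univ r q := LE'.trans low_univ hr hq'
  have hht : tr.ht (tr.res s ((C j).c (tr.ht s) n)) = (C j).c (tr.ht s) n :=
    tr.ht_res ((C j).lt (tr.ht s) hs n).le
  have hdec : Dec (ordF bk j) (bk j) r (tr.ht s) n b := by
    rcases (hrq.2 j trivial).2.2 (tr.ht s) hqw n b hb with h | h
    · exact (hN n hn b h).elim
    · exact h
  refine ⟨r, hr, b.toNat, mem_genFun (bk := bk) (by rw [hht]; exact hb), ?_⟩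
  cases b with
  | false => exact hfalse r _ n hdec
  | true => exact htrue r _ n hdec

theorem unifTwoVal_Po
    (hbk : ∀ (L : LadderSystem) (S : Code KK C) (i : KK), ∃ j, i < j ∧ C j = L ∧ bk j = S)
    (L : LadderSystem) {T : Type} [PartialOrder T] (tr : OTree T)
    (hc : ∀ ξ, {t | tr.ht t = ξ}.Nonempty ∧ {t | tr.ht t = ξ}.Countable) :
    unifTwoVal (RO (Po bk)) L tr = ⊤ := by
  unfold unifTwoVal
  simp only [iInf_eq_top]
  intro f hf
  obtain ⟨S, φ, h⟩ := exists_unif_two_Po hbk L tr hc f hf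
  exact eq_top_iff.2 (h.ge.trans (le_iSup_of_le S (le_iSup_of_le φ le_rfl)))

end

end Pool.Agent.Ladder
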